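import Mathlib

namespace Pool.Agent.Lib.MP_aa6b05_co.D

open Finset

variable {V E : Type}

/-- In the multigraph whose edge `e` has ends `s e` and `t e`, the edge `e` joins `a` and `b`. -/
def Link (s t : E → V) (e : E) (a b : V) : Prop := (s e = a ∧ t e = b) ∨ (s e = b ∧ t e = a)

/-- `a` and `b` are joined by a walk all of whose steps stay in `A` and use edges of `F`. -/
def Conn (s t : E → V) (A : Set V) (F : Set E) (a b : V) : Prop :=
  Relation.ReflTransGen (fun x y => x ∈ A ∧ y ∈ A ∧ ∃ e ∈ F, Link s t e x y) a b

/-- No edge is an isthmus: the ends of `e` stay connected after deleting `e`. -/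
def Bridgeless (s t : E → V) : Prop := ∀ e, Conn s t Set.univ {e}ᶜ (s e) (t e)

/-- Degree; a loop counts twice. -/
noncomputable def degree (s t : E → V) (v : V) : ℕ := {e | s e = v}.ncard + {e | t e = v}.ncard

/-- A nowhere-zero integer 4-flow for the orientation `s e → t e`. -/
def HasNZ4Flow [Fintype E] [DecidableEq V] (s t : E → V) : Prop :=
  ∃ f : E → ℤ, (∀ e, 0 < |f e| ∧ |f e| < 4) ∧
    ∀ v, ∑ e with s e = v, f e = ∑ e with t e = v, f e

/-- Vertices of the Petersen graph `K(5,2)`; two of them are adjacent iff they are disjoint. -/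
abbrev PV : Type := {A : Finset (Fin 5) // A.card = 2}

/-- Contracting the connected classes of a partition of the vertex set gives exactly the
Petersen graph. -/
def ContractsToPetersen (s t : E → V) : Prop :=
  ∃ π : V → PV, Function.Surjective π ∧
    (∀ u v, π u = π v → Conn s t {w | π w = π u} Set.univ u v) ∧
    ∀ a b, a ≠ b → {e | Link (π ∘ s) (π ∘ t) e a b}.ncard = if Disjoint a.1 b.1 then 1 else 0

end Pool.Agent.Lib.MP_aa6b05_co.D
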