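import Pool.Agent.Lib.MP_aa6b05_co.Lift16
import Pool.Agent.Lib.MP_aa6b05_co.Defs

set_option linter.unusedSectionVars false
set_option linter.unusedVariables false
set_option linter.unusedSimpArgs false
set_option synthInstance.maxSize 4096

namespace Pool.Agent.Lib.MP_aa6b05_co

open Finset D

def pv : Fin 10 → PV :=
  ![⟨{0, 1}, by decide⟩, ⟨{2, 3}, by decide⟩, ⟨{0, 4}, by decide⟩, ⟨{1, 2}, by decide⟩,
    ⟨{3, 4}, by decide⟩, ⟨{2, 4}, by decide⟩, ⟨{1, 4}, by decide⟩, ⟨{1, 3}, by decide⟩,
    ⟨{0, 3}, by decide⟩, ⟨{0, 2}, by decide⟩]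

theorem pv_inj : ∀ a b, pv a = pv b → a = b := by decide +kernel

theorem pv_surj : ∀ x : PV, ∃ a, pv a = x := by decide +kernel

theorem pv_adj : ∀ a b : Fin 10, (univ.filter fun k : Fin 15 =>
    (Pet.s k = a ∧ Pet.t k = b) ∨ (Pet.s k = b ∧ Pet.t k = a)).card =
      if Disjoint (pv a).1 (pv b).1 then 1 else 0 := by decide +kernel

def lo (x : K) : ZMod 2 := lam .k2 x

def hi (x : K) : ZMod 2 := lam .k1 x

theorem lo_hi (x : K) (h : x ≠ 0) : lo x = 1 ∨ hi x = 1 := by revert x; decide

open scoped Classical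

noncomputable section

namespace MG

variable {V E : Type} [Fintype V] [Fintype E] {G : MG V E}

def bd (G : MG V E) (g : E → ℤ) (v : V) : ℤ :=
  ∑ e, ((if G.s e = v then g e else 0) - (if G.t e = v then g e else 0))

theorem circ (J : E → ZMod 2) (n : ℕ) : ∀ G : MG V E,
    (univ.filter (fun e => G.s e ≠ G.t e)).card ≤ n → (∀ v, G.df J v = 0) →
    ∃ g : E → ℤ, (∀ e, (J e = 0 → g e = 0) ∧ (J e = 1 → g e = 1 ∨ g e = -1)) ∧
      ∀ v, G.bd g v = 0 := by
  induction n using Nat.strong_induction_on with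
  | _ n ih =>
  intro G hn hJ
  by_cases h0 : ∃ e, G.s e ≠ G.t e ∧ J e = 1
  swap
  · push Not at h0
    refine ⟨fun e => if J e = 1 then 1 else 0, fun e => ⟨fun h => by simp [h], fun h => by simp [h]⟩,
      fun v => sum_eq_zero fun e _ => ?_⟩
    by_cases h : G.s e = G.t e
    · simp [h]
    · simp [h0 e h]
  obtain ⟨c1, n1, hc1⟩ := h0
  set v := G.s c1 with hv
  set x := G.t c1 with hx
  have j1 : G.Joins c1 v x := joins_self c1
  have m1 : c1 ∈ G.cut {v} := by rw [j1.mem_cut]; simp [n1.symm]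
  obtain ⟨c2, m2, hc2⟩ : ∃ c2 ∈ (G.cut {v}).erase c1, J c2 = 1 := by
    by_contra hcon
    push Not at hcon
    have := hJ v
    unfold df at this
    rw [← add_sum_erase _ _ m1, sum_eq_zero (fun e he => (zmod2_cases _).resolve_right (hcon e he)),
      hc1] at this
    exact absurd this (by decide)
  obtain ⟨h21, m2⟩ := mem_erase.mp m2
  obtain ⟨y, j2, n2⟩ := exists_other m2
  have h12 : c1 ≠ c2 := h21.symm
  have j1' : (G.split c1 c2 v x y).Joins c1 x y := Or.inl ⟨by simp [split], by simp [split]⟩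
  have j2' : (G.split c1 c2 v x y).Joins c2 v v := Or.inl ⟨by simp [split, h21], by simp [split, h21]⟩
  have dec : J = fun e => ((if e = c1 ∨ e = c2 then 0 else J e) + if e = c1 then 1 else 0) +
      if e = c2 then 1 else 0 := by
    funext e
    by_cases a : e = c1
    · simp [a, h12, hc1]
    · by_cases b : e = c2
      · simp [b, h21, hc2]
      · simp [a, b]
  obtain ⟨g, g1, g2⟩ := ih _ (lt_of_lt_of_le (m_split h12 j1 n1 j2 n2) hn) (G.split c1 c2 v x y)
    le_rfl (by
      intro u
      have := hJ u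
      rw [dec, df_add, df_add, df_single zmod2_add_self j1, df_single zmod2_add_self j2] at this
      rw [dec, df_add, df_add, df_single zmod2_add_self j1', df_single zmod2_add_self j2']
      have e1 : (G.split c1 c2 v x y).df (fun e => if e = c1 ∨ e = c2 then 0 else J e) u =
          G.df (fun e => if e = c1 ∨ e = c2 then 0 else J e) u := by
        unfold df cut
        rw [sum_filter, sum_filter]
        apply sum_congr rfl
        intro e _
        by_cases a : e = c1
        · simp [a]
        · by_cases b : e = c2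
          · simp [b]
          · simp [split, a, b]
      rw [e1]
      linear_combination this)
  have ha := (g1 c1).2 hc1
  refine ⟨fun e => if e = c1 then - g c1 else if e = c2 then (if G.s c2 = v then g c1 else - g c1)
    else g e, fun e => ?_, fun u => ?_⟩
  · by_cases a : e = c1
    · subst a
      simp only [if_true, hc1]
      exact ⟨by simp, fun _ => by omega⟩
    · by_cases b : e = c2
      · subst b
        simp only [a, if_false, if_true, hc2]
        refine ⟨by simp, fun _ => ?_⟩
        split_ifs <;> omega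
      · simp only [a, b, if_false]
        exact g1 e
  · rw [← g2 u]
    unfold bd
    rw [← add_sum_erase _ _ (mem_univ c1), ← add_sum_erase _ _ (mem_erase.mpr ⟨h21, mem_univ c2⟩),
      ← add_sum_erase _ _ (mem_univ c1), ← add_sum_erase _ _ (mem_erase.mpr ⟨h21, mem_univ c2⟩),
      ← add_assoc, ← add_assoc]
    congr 1
    · simp only [split, if_true, h21, if_false, ← hv, ← hx]
      rcases j2 with ⟨a, b⟩ | ⟨a, b⟩
      · simp only [a, b, if_true]
        split_ifs <;> omega
      · simp only [a, b, n2.symm, if_false]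
        split_ifs <;> omega
    · apply sum_congr rfl
      intro e he
      simp only [mem_erase, mem_univ, and_true] at he
      simp [split, he.1, he.2]

theorem Col.flow [inst : DecidableEq V] (h : G.Col) : HasNZ4Flow G.s G.t := by
  obtain ⟨φ, h1, h2⟩ := h
  have key : ∀ x : K, x ≠ 0 → ∀ v, G.df (fun e => lam x (φ e)) v = 0 := by
    intro x hx v
    rw [df_hom _ (lam_add x hx), h2 v trivial]
    simp [lam]
  obtain ⟨f, f1, f2⟩ := circ (fun e => lo (φ e)) _ G le_rfl (key _ (by decide))
  obtain ⟨g, g1, g2⟩ := circ (fun e => hi (φ e)) _ G le_rfl (key _ (by decide))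
  refine ⟨fun e => f e + 2 * g e, fun e => ?_, fun v => ?_⟩
  · have := lo_hi _ (h1 e)
    obtain ⟨a1, a2⟩ := f1 e
    obtain ⟨b1, b2⟩ := g1 e
    beta_reduce at a1 a2 b1 b2 ⊢
    rw [abs_pos, abs_lt]
    rcases zmod2_cases (lo (φ e)) with a | a <;> rcases zmod2_cases (hi (φ e)) with b | b
    · rw [a, b] at this
      exact absurd this (by decide)
    · have := a1 a
      have := b2 b
      omega
    · have := a2 a
      have := b1 b
      omega
    · have := a2 a
      have := b2 b
      omega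
  · rw [sum_filter, sum_filter, ← sub_eq_zero, ← sum_sub_distrib]
    have : ∑ e, ((if G.s e = v then f e + 2 * g e else 0) - if G.t e = v then f e + 2 * g e else 0) =
        G.bd f v + 2 * G.bd g v := by
      unfold bd
      rw [mul_sum, ← sum_add_distrib]
      apply sum_congr rfl
      intro e _
      split_ifs <;> ring
    rw [this, f2, g2]
    rfl

theorem conn_side {A : Set V} {F : Set E} {X : Set V} (hF : ∀ e ∈ F, e ∉ G.cut X) {a b : V}
    (h : Conn G.s G.t A F a b) : (a ∈ X ↔ b ∈ X) := by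
  induction h with
  | refl => rfl
  | tail _ h2 ih =>
    obtain ⟨-, -, e, he, hj⟩ := h2
    have := hF e he
    rw [Joins.mem_cut (G := G) hj, not_not] at this
    exact ih.trans this

theorem bl_of (h : Bridgeless G.s G.t) : G.Bl := by
  intro X hX
  obtain ⟨e, he⟩ := card_eq_one.mp hX
  have := conn_side (X := X) (by intro f hf; rw [he]; simpa using hf) (h e)
  have h2 : e ∈ G.cut X := by rw [he]; simp
  exact MG.mem_cut.mp h2 this

theorem oc_eq : G.oc Set.univ = {v | Odd (degree G.s G.t v)}.ncard := by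
  unfold oc
  rw [← Set.ncard_coe_finset]
  congr 1
  ext v
  simp only [Set.mem_univ, true_and, coe_filter, mem_univ, Set.mem_ofPred_eq]
  have e1 : degree G.s G.t v = G.d {v} + 2 * (univ.filter (fun e => G.s e = v ∧ G.t e = v)).card := by
    unfold degree
    rw [Set.ncard_eq_toFinset_card', Set.ncard_eq_toFinset_card', d_eq_sum]
    simp only [Set.toFinset_ofPred, card_filter, Set.mem_singleton_iff]
    rw [mul_sum, ← sum_add_distrib, ← sum_add_distrib]
    apply sum_congr rfl
    intro e _
    by_cases a : G.s e = v <;> by_cases b : G.t e = v <;> simp [a, b]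
  rw [e1, Nat.odd_add]
  simp

theorem conn_of_three (hb : G.Bl) (hc : ∀ a b, Conn G.s G.t Set.univ Set.univ a b) {X : Set V}
    (hX : G.d X = 3) {u w : V} (hu : u ∈ X) (hw : w ∈ X) : Conn G.s G.t X Set.univ u w := by
  by_contra hn
  have h1 := d_add_of_no_edge (G := G) (A := X) (Z := {z | Conn G.s G.t X Set.univ u z}) (by
    rintro ⟨g, x, y, j, hx, hy, h1, h2⟩
    exact h2 (h1.tail ⟨hx, hy, g, trivial, j⟩))
  have h2 : ∀ Y : Set V, G.d Y = 0 → (u ∈ Y ↔ w ∈ Y) := fun Y hY =>
    conn_side (by rw [card_eq_zero.mp hY]; simp) (hc u w)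
  have h3 := h2 (X ∩ {z | Conn G.s G.t X Set.univ u z})
  have h4 := h2 (X \ {z | Conn G.s G.t X Set.univ u z})
  have r : Conn G.s G.t X Set.univ u u := Relation.ReflTransGen.refl
  simp only [Set.mem_inter_iff, Set.mem_sdiff, Set.mem_ofPred_eq, hu, hw, hn, r] at h3 h4
  have h5 := hb (X ∩ {z | Conn G.s G.t X Set.univ u z})
  have h6 := hb (X \ {z | Conn G.s G.t X Set.univ u z})
  have : G.d (X ∩ {z | Conn G.s G.t X Set.univ u z}) ≠ 0 := fun h => by simpa using h3 h
  have : G.d (X \ {z | Conn G.s G.t X Set.univ u z}) ≠ 0 := fun h => by simpa using h4 h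
  omega

theorem Quo.contracts (hb : G.Bl) (hc : ∀ a b, Conn G.s G.t Set.univ Set.univ a b)
    (h : G.Quo Pet) : ContractsToPetersen G.s G.t := by
  obtain ⟨π, ι, h⟩ := h
  refine ⟨pv ∘ π, fun x => ?_, fun u w huw => ?_, fun a b hab => ?_⟩
  · obtain ⟨a, rfl⟩ := pv_surj x
    obtain ⟨k, hk⟩ : ∃ k, Pet.s k = a := by revert a; decide
    obtain ⟨z, -, -, hz, -⟩ := h.ends k
    exact ⟨z, by simp [hz, hk]⟩
  · have e : {w | (pv ∘ π) w = (pv ∘ π) u} = π ⁻¹' {π u} := by
      ext z
      exact ⟨fun h => pv_inj _ _ h, fun h => congrArg pv h⟩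
    rw [e]
    exact conn_of_three hb hc (by rw [h.d_eq, Pet_d]) rfl (pv_inj _ _ huw).symm
  · obtain ⟨a, rfl⟩ := pv_surj a
    obtain ⟨b, rfl⟩ := pv_surj b
    have hab' : a ≠ b := fun h => hab (by rw [h])
    rw [← pv_adj, ← card_map ⟨ι, h.inj⟩, ← Set.ncard_coe_finset]
    congr 1
    ext e
    have e1 : Link ((pv ∘ π) ∘ G.s) ((pv ∘ π) ∘ G.t) e (pv a) (pv b) ↔ (G.map π).Joins e a b := by
      have : ∀ a b, pv a = pv b ↔ a = b := fun a b => ⟨pv_inj a b, fun h => by rw [h]⟩
      simp [Link, Joins, MG.map, this]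
    simp only [Set.mem_ofPred_eq, e1, coe_map, Function.Embedding.coeFn_mk, coe_filter, mem_univ,
      true_and, Set.mem_image]
    constructor
    · intro hj
      obtain ⟨k, rfl⟩ : ∃ k, ι k = e := by
        by_contra hn
        push Not at hn
        exact hj.ne hab' (h.lp e hn)
      refine ⟨k, ?_, rfl⟩
      have := h.jn k
      unfold Joins at *
      rcases this with ⟨a1, a2⟩ | ⟨a1, a2⟩ <;> rw [← a1, ← a2] <;> tauto
    · rintro ⟨k, ⟨a1, a2⟩ | ⟨a1, a2⟩, rfl⟩ <;> rw [← a1, ← a2]
      · exact h.jn k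
      · exact (h.jn k).symm

theorem final16 {V E : Type} [Fintype V] [Fintype E] [DecidableEq V] (s t : E → V)
    (hc : ∀ a b, Conn s t Set.univ Set.univ a b) (hb : Bridgeless s t)
    (ho : {v | Odd (degree s t v)}.ncard ≤ 17) : HasNZ4Flow s t ∨ ContractsToPetersen s t := by
  let G : MG V E := ⟨s, t⟩
  have hb' : G.Bl := bl_of hb
  by_cases h : G.Col
  · exact Or.inl h.flow
  · exact Or.inr ((t16 hb' (by rw [oc_eq]; exact ho) h).contracts hb' hc)

end MG

end

end Pool.Agent.Lib.MP_aa6b05_co
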