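import Mathlib.Data.Nat.Bitwise
import Mathlib.Data.Nat.Log
import Mathlib.Tactic.Ring
import Mathlib.Tactic.NormNum

namespace Pool.Agent.Lib.MP_aa6b05_co.S

noncomputable section

def frc {α : Type} (n : Nat) (f : Nat → α) : α := Nat.rec (f 0) (fun m _ => f (Nat.succ m)) n
def row (A i : Nat) : Nat :=
  Nat.land (Nat.shiftRight A (Nat.add (Nat.shiftLeft i 5) 64)) 4294967295
def bit (j : Nat) : Nat := Nat.shiftLeft 1 j
def tb (m j : Nat) : Bool := Nat.beq (Nat.land (Nat.shiftRight m j) 1) 1
def minus (m f : Nat) : Nat := Nat.xor m (Nat.land m f)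
def addE (A i j : Nat) : Nat :=
  frc (Nat.add (Nat.add (Nat.shiftLeft i 5) j) 64) fun p =>
  Nat.xor (Nat.lor A (Nat.lor (bit p) (bit (Nat.add (Nat.add (Nat.shiftLeft j 5) i) 64))))
    (Nat.mod (Nat.mul (Nat.mul p p) (Nat.mul p 11400714819323198485)) 18446744073709551557)
def expand (A : Nat) (fuel : Nat) : Nat → Nat → Nat :=
  Nat.rec (fun _ acc => acc) (fun _ ih m acc => cond (Nat.beq m 0) acc
    (frc (Nat.log2 m) fun j => frc (Nat.xor m (bit j)) fun m' =>
      ih m' (Nat.lor acc (row A j)))) fuel
def allBits (f : Nat → Bool) (fuel : Nat) : Nat → Bool :=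
  Nat.rec (fun m => Nat.beq m 0) (fun _ ih m => cond (Nat.beq m 0) true
    (frc (Nat.log2 m) fun j => cond (f j) (frc (Nat.xor m (bit j)) ih) false)) fuel
def anyBits (f : Nat → Bool) (fuel : Nat) : Nat → Bool :=
  Nat.rec (fun _ => false) (fun _ ih m => cond (Nat.beq m 0) false
    (frc (Nat.log2 m) fun j => cond (f j) true (frc (Nat.xor m (bit j)) ih))) fuel
def par (M x : Nat) : Nat := Nat.log2 (row M x)
def chkV (A M1 M2 x : Nat) : Bool :=
  frc (row A x) fun r => frc (par M1 x) fun a => frc (par M2 x) fun b =>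
  frc (Nat.log2 (Nat.xor r (Nat.xor (bit a) (bit b)))) fun c =>
  cond (Nat.beq a b) false (cond (Nat.beq a c) false (cond (Nat.beq b c) false
    (cond (Nat.beq (par M1 a) x) (cond (Nat.beq (par M2 b) x)
      (Nat.beq r (Nat.lor (bit a) (Nat.lor (bit b) (bit c)))) false) false)))
def walk (A M1 R full : Nat) (fuel : Nat) : Nat → Nat → Nat → Bool :=
  Nat.rec (fun _ _ _ => false) (fun _ ih U M2 x =>
    frc (minus (row R x) U) fun r => cond (Nat.beq r 0) false
      (frc (Nat.log2 r) fun y => frc (Nat.lor U (Nat.lor (bit x) (bit y))) fun U' =>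
        frc (addE M2 x y) fun M2' => frc (minus (row R y) U') fun r2 =>
          cond (Nat.beq r2 0)
            (cond (Nat.beq U' full) (allBits (chkV A M1 M2') 32 full)
              (frc (Nat.log2 (Nat.xor full U')) fun z => ih U' M2' z))
            (frc (Nat.log2 r2) fun z => ih U' M2' z))) fuel
def pm (A full : Nat) (fuel : Nat) : Nat → Nat → Bool :=
  Nat.rec (fun _ _ => false) (fun _ ih U M1 =>
    cond (Nat.beq U full) (frc (Nat.xor A M1) fun R => walk A M1 R full 16 0 0 0)
      (frc (Nat.log2 (Nat.xor full U)) fun x =>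
        anyBits (fun y => frc (Nat.lor U (Nat.lor (bit x) (bit y))) fun U' =>
          frc (addE M1 x y) fun M1' => ih U' M1') 3 (minus (row A x) U))) fuel
def colb (k A : Nat) : Bool := frc (Nat.pred (bit k)) fun full => pm A full 17 0 0
abbrev St := Nat → Nat → Nat → Nat → Nat → Nat → Nat → Bool
def nxt (leaf : Nat → Nat → Bool) (ih : St) (k i j A D1 D2 D3 : Nat) : Bool :=
  frc (Nat.lor (bit i) (bit j)) fun b =>
    frc (addE A i j) fun A' => frc (Nat.lor D1 b) fun E1 =>
    frc (Nat.lor D2 (Nat.land D1 b)) fun E2 =>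
    frc (Nat.lor D3 (Nat.land D2 b)) fun E3 =>
      cond (tb E3 i)
        (frc (minus (Nat.pred (bit k)) E3) fun U => cond (Nat.beq U 0) (leaf k A')
          (frc (Nat.log2 (Nat.xor U (Nat.pred U))) fun i' =>
            cond (tb U i') (ih k i' 0 A' E1 E2 E3) false))
        (frc (Nat.pred (bit (Nat.succ j))) fun L => ih k i L A' E1 E2 E3)
def search (N : Nat) (ex : Nat → Nat → Nat → Nat) (leaf : Nat → Nat → Bool) (orc : St)
    (fuel : Nat) : St :=
  Nat.rec orc (fun _ ih k i L A D1 D2 D3 =>
      frc (row A i) fun B1 => frc (expand A 3 B1 0) fun S2 =>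
       frc (expand A 8 (minus S2 (bit i)) (Nat.lor B1 S2)) fun B3 =>
       frc (minus (Nat.pred (bit k))
          (Nat.lor (Nat.lor (ex A i B3) (Nat.lor D3 L)) (bit i))) fun C =>
       cond (allBits (fun j => nxt leaf ih k i j A D1 D2 D3) 32 C)
        (cond (Nat.ble N k) true (frc (Nat.succ k) fun k' => nxt leaf ih k' i k A D1 D2 D3))
        false) fuel

end

theorem frc_eq {α : Type} (n : Nat) (f : Nat → α) : frc n f = f n := by cases n <;> rfl

theorem bit_eq (j : Nat) : bit j = 2 ^ j := by
  show 1 <<< j = _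
  rw [Nat.one_shiftLeft]

theorem testBit_bit (j x : Nat) : (bit j).testBit x = decide (j = x) := by
  rw [bit_eq, Nat.testBit_two_pow]

theorem testBit_full (k x : Nat) : (Nat.pred (bit k)).testBit x = decide (x < k) := by
  rw [bit_eq]
  exact Nat.testBit_two_pow_sub_one k x

theorem tb_eq (m j : Nat) : tb m j = m.testBit j := by
  show Nat.beq ((m >>> j) &&& 1) 1 = _
  rw [Nat.testBit, Nat.and_one_is_mod, Nat.one_and_eq_mod_two]
  rcases Nat.mod_two_eq_zero_or_one (m >>> j) with h | h <;> rw [h] <;> rfl

theorem testBit_lor (a b x : Nat) : (Nat.lor a b).testBit x = (a.testBit x || b.testBit x) :=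
  Nat.testBit_or a b x

theorem testBit_land (a b x : Nat) : (Nat.land a b).testBit x = (a.testBit x && b.testBit x) :=
  Nat.testBit_and a b x

theorem testBit_xor' (a b x : Nat) : (Nat.xor a b).testBit x = (a.testBit x ^^ b.testBit x) :=
  Nat.testBit_xor a b x

theorem testBit_minus (a b x : Nat) : (minus a b).testBit x = (a.testBit x && !b.testBit x) := by
  unfold minus
  rw [testBit_xor', testBit_land]
  cases a.testBit x <;> cases b.testBit x <;> rfl

def kn (A i j : Nat) : Prop := A.testBit (32 * i + j + 64) = true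

theorem testBit_row (A i j : Nat) : (row A i).testBit j = true ↔ j < 32 ∧ kn A i j := by
  unfold row kn
  rw [testBit_land]
  have h1 : (Nat.shiftRight A (Nat.add (Nat.shiftLeft i 5) 64)).testBit j =
      A.testBit (32 * i + j + 64) := by
    show (A >>> (i <<< 5 + 64)).testBit j = _
    rw [Nat.testBit_shiftRight, Nat.shiftLeft_eq]
    congr 1
    ring
  have h2 : (4294967295 : Nat).testBit j = decide (j < 32) := Nat.testBit_two_pow_sub_one 32 j
  rw [h1, h2]
  simp [and_comm]

theorem kn_addE (A i j x y : Nat) (hi : i < 32) (hj : j < 32) (hy : y < 32) :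
    kn (addE A i j) x y ↔ kn A x y ∨ (x = i ∧ y = j) ∨ (x = j ∧ y = i) := by
  unfold kn addE
  rw [frc_eq, testBit_xor', testBit_lor, testBit_lor, testBit_bit, testBit_bit]
  have h0 : ∀ z : Nat, (Nat.mod z 18446744073709551557).testBit (32 * x + y + 64) = false := by
    intro z
    apply Nat.testBit_lt_two_pow
    calc Nat.mod z 18446744073709551557 < 18446744073709551557 := Nat.mod_lt _ (by norm_num)
      _ ≤ 2 ^ 64 := by norm_num
      _ ≤ 2 ^ (32 * x + y + 64) := Nat.pow_le_pow_right (by norm_num) (by omega)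
  rw [h0]
  have e1 : ∀ a b : Nat, Nat.add (Nat.add (Nat.shiftLeft a 5) b) 64 = 32 * a + b + 64 := by
    intro a b
    show a <<< 5 + b + 64 = _
    rw [Nat.shiftLeft_eq]
    ring
  rw [e1, e1]
  simp only [Bool.xor_false, Bool.or_eq_true, decide_eq_true_eq]
  constructor
  · rintro (h | h | h)
    · exact Or.inl h
    · exact Or.inr (Or.inl (by omega))
    · exact Or.inr (Or.inr (by omega))
  · rintro (h | h | h)
    · exact Or.inl h
    · exact Or.inr (Or.inl (by omega))
    · exact Or.inr (Or.inr (by omega))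

theorem beq_zero_false {m : Nat} (h : Nat.beq m 0 = false) : m ≠ 0 := Nat.ne_of_beq_eq_false h

theorem expand_sound (A : Nat) (fuel : Nat) : ∀ m acc y, (expand A fuel m acc).testBit y = true →
    acc.testBit y = true ∨ ∃ j, m.testBit j = true ∧ y < 32 ∧ kn A j y := by
  induction fuel with
  | zero => intro m acc y h; exact Or.inl h
  | succ n ih =>
    intro m acc y h
    change (cond (Nat.beq m 0) acc (frc (Nat.log2 m) fun j => frc (Nat.xor m (bit j)) fun m' =>
      expand A n m' (Nat.lor acc (row A j)))).testBit y = true at h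
    cases hm : Nat.beq m 0
    · rw [hm, cond_false, frc_eq, frc_eq] at h
      have hb := Nat.testBit_log2 (beq_zero_false hm)
      rcases ih _ _ _ h with h1 | ⟨j, h1, h2⟩
      · rw [testBit_lor, Bool.or_eq_true] at h1
        rcases h1 with h1 | h1
        · exact Or.inl h1
        · exact Or.inr ⟨_, hb, (testBit_row _ _ _).mp h1⟩
      · refine Or.inr ⟨j, ?_, h2⟩
        rw [testBit_xor', testBit_bit] at h1
        by_cases hj : m.log2 = j
        · rw [← hj]; exact hb
        · simpa [hj] using h1
    · rw [hm, cond_true] at h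
      exact Or.inl h

theorem allBits_sound (f : Nat → Bool) (fuel : Nat) : ∀ m, allBits f fuel m = true →
    ∀ j, m.testBit j = true → f j = true := by
  induction fuel with
  | zero =>
    intro m h j hj
    have : m = 0 := Nat.eq_of_beq_eq_true h
    simp [this] at hj
  | succ n ih =>
    intro m h j hj
    change cond (Nat.beq m 0) true (frc (Nat.log2 m) fun j =>
      cond (f j) (frc (Nat.xor m (bit j)) (allBits f n)) false) = true at h
    cases hm : Nat.beq m 0
    · rw [hm, cond_false, frc_eq] at h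
      cases hf : f m.log2
      · rw [hf] at h; simp at h
      · rw [hf, cond_true, frc_eq] at h
        by_cases hj' : m.log2 = j
        · rw [← hj']; exact hf
        · apply ih _ h
          rw [testBit_xor', testBit_bit]
          simp [hj, hj']
    · have : m = 0 := Nat.eq_of_beq_eq_true hm
      simp [this] at hj

theorem anyBits_sound (f : Nat → Bool) (fuel : Nat) : ∀ m, anyBits f fuel m = true →
    ∃ j, f j = true := by
  induction fuel with
  | zero => intro m h; exact absurd h (by simp [anyBits])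
  | succ n ih =>
    intro m h
    change cond (Nat.beq m 0) false (frc (Nat.log2 m) fun j =>
      cond (f j) true (frc (Nat.xor m (bit j)) (anyBits f n))) = true at h
    cases hm : Nat.beq m 0
    · rw [hm, cond_false, frc_eq] at h
      cases hf : f m.log2
      · rw [hf, cond_false, frc_eq] at h
        exact ih _ h
      · exact ⟨_, hf⟩
    · rw [hm] at h; simp at h

theorem walk_sound (A M1 R full : Nat) (fuel : Nat) : ∀ U M2 x, walk A M1 R full fuel U M2 x = true →
    ∃ M2, allBits (chkV A M1 M2) 32 full = true := by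
  induction fuel with
  | zero => intro U M2 x h; exact absurd h (by simp [walk])
  | succ n ih =>
    intro U M2 x h
    change (frc (minus (row R x) U) fun r => cond (Nat.beq r 0) false
      (frc (Nat.log2 r) fun y => frc (Nat.lor U (Nat.lor (bit x) (bit y))) fun U' =>
        frc (addE M2 x y) fun M2' => frc (minus (row R y) U') fun r2 =>
          cond (Nat.beq r2 0)
            (cond (Nat.beq U' full) (allBits (chkV A M1 M2') 32 full)
              (frc (Nat.log2 (Nat.xor full U')) fun z => walk A M1 R full n U' M2' z))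
            (frc (Nat.log2 r2) fun z => walk A M1 R full n U' M2' z))) = true at h
    simp only [frc_eq, Bool.cond_eq_ite] at h
    split_ifs at h
    · exact ⟨_, h⟩
    · exact ih _ _ _ h
    · exact ih _ _ _ h

theorem pm_sound (A full : Nat) (fuel : Nat) : ∀ U M1, pm A full fuel U M1 = true →
    ∃ M1 M2, allBits (chkV A M1 M2) 32 full = true := by
  induction fuel with
  | zero => intro U M1 h; exact absurd h (by simp [pm])
  | succ n ih =>
    intro U M1 h
    change cond (Nat.beq U full) (frc (Nat.xor A M1) fun R => walk A M1 R full 16 0 0 0)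
      (frc (Nat.log2 (Nat.xor full U)) fun x =>
        anyBits (fun y => frc (Nat.lor U (Nat.lor (bit x) (bit y))) fun U' =>
          frc (addE M1 x y) fun M1' => pm A full n U' M1') 3 (minus (row A x) U)) = true at h
    simp only [frc_eq, Bool.cond_eq_ite] at h
    split_ifs at h
    · exact ⟨M1, walk_sound _ _ _ _ _ _ _ _ h⟩
    · obtain ⟨j, hj⟩ := anyBits_sound _ _ _ h
      exact ih _ _ hj

theorem colb_sound {k A : Nat} (h : colb k A = true) : ∃ p q : Nat → Nat, ∀ x < k,
    ∃ c, p x ≠ q x ∧ p x ≠ c ∧ q x ≠ c ∧ p (p x) = x ∧ q (q x) = x ∧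
      ∀ y, (y < 32 ∧ kn A x y) ↔ (y = p x ∨ y = q x ∨ y = c) := by
  unfold colb at h
  rw [frc_eq] at h
  obtain ⟨M1, M2, h⟩ := pm_sound _ _ _ _ _ h
  refine ⟨par M1, par M2, fun x hx => ?_⟩
  have h1 := allBits_sound _ _ _ h x (by rw [testBit_full]; simpa using hx)
  unfold chkV at h1
  simp only [frc_eq, Bool.cond_eq_ite] at h1
  split_ifs at h1 with a1 a2 a3 a4 a5
  refine ⟨_, fun h => a1 (Nat.beq_eq ▸ h), fun h => a2 (Nat.beq_eq ▸ h), fun h => a3 (Nat.beq_eq ▸ h),
    Nat.eq_of_beq_eq_true a4, Nat.eq_of_beq_eq_true a5, fun y => ?_⟩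
  rw [← testBit_row]
  have h2 := Nat.eq_of_beq_eq_true h1
  generalize Nat.log2 _ = c at h2 ⊢
  rw [h2, testBit_lor, testBit_lor, testBit_bit, testBit_bit, testBit_bit]
  simp only [Bool.or_eq_true, decide_eq_true_eq]
  omega

end Pool.Agent.Lib.MP_aa6b05_co.S
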