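import Pool.Agent.Lib.MP_aa6b05_co.Quo
import Pool.Agent.Lib.MP_aa6b05_co.Search

set_option linter.unusedSectionVars false
set_option linter.unusedVariables false
set_option linter.unusedSimpArgs false
set_option synthInstance.maxSize 4096

namespace Pool.Agent.Lib.MP_aa6b05_co

open Finset S

open scoped Classical

noncomputable section

namespace MG

variable {V E : Type} [Fintype V] [Fintype E] {G : MG V E}

structure Cub (G : MG V E) : Prop where
  e4 : G.E4
  np : G.NoPar
  nt : G.NoTri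
  nq : G.NoQuad
  cu : G.Cubic

def Adj (G : MG V E) (a b : V) : Prop := a ≠ b ∧ ∃ e, G.Joins e a b

theorem Adj.symm {a b : V} (h : G.Adj a b) : G.Adj b a :=
  ⟨h.1.symm, h.2.imp fun _ h => h.symm⟩

theorem Adj.ni {a b : V} (h : G.Adj a b) : G.NI a := by
  obtain ⟨h1, e, h2⟩ := h
  exact ⟨e, b, h2, h1⟩

theorem NI.d_pos {a : V} (h : G.NI a) : 0 < G.d {a} := by
  obtain ⟨e, b, hj, hab⟩ := h
  exact card_pos.mpr ⟨e, by rw [hj.mem_cut]; simp [hab.symm]⟩

theorem Cub.d_eq (hG : G.Cub) {a : V} (h : G.NI a) : G.d {a} = 3 := by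
  have := hG.cu a
  have := h.d_pos
  omega

def oth (G : MG V E) (a : V) (e : E) : V := if G.s e = a then G.t e else G.s e

theorem joins_oth {a : V} {e : E} (he : e ∈ G.cut {a}) : G.Joins e a (G.oth a e) ∧ a ≠ G.oth a e := by
  rw [mem_cut_single] at he
  unfold oth
  split_ifs with h
  · exact ⟨Or.inl ⟨h, rfl⟩, h ▸ he.1⟩
  · have h2 : G.t e = a := by tauto
    exact ⟨Or.inr ⟨rfl, h2⟩, fun h' => h h'.symm⟩

theorem sum_nbrs (hp : G.NoPar) {M : Type} [AddCommMonoid M] (a : V) (f : V → M) :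
    ∑ e ∈ G.cut {a}, f (G.oth a e) = ∑ w ∈ univ.filter (G.Adj a), f w := by
  apply sum_bij (fun e _ => G.oth a e)
  · intro e he
    obtain ⟨h1, h2⟩ := joins_oth he
    simp only [mem_filter, mem_univ, true_and]
    exact ⟨h2, e, h1⟩
  · intro e he f hf hef
    by_contra hne
    obtain ⟨h1, h2⟩ := joins_oth he
    obtain ⟨h3, h4⟩ := joins_oth hf
    exact hp e f _ _ hne h2 h1 (hef ▸ h3)
  · intro w hw
    simp only [mem_filter, mem_univ, true_and] at hw
    obtain ⟨h1, e, h2⟩ := hw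
    have he : e ∈ G.cut {a} := by rw [h2.mem_cut]; simp [h1.symm]
    exact ⟨e, he, (joins_oth he).1.unique h2⟩
  · intro e he
    rfl

theorem Cub.card_nbrs (hG : G.Cub) {a : V} (h : G.NI a) : (univ.filter (G.Adj a)).card = 3 := by
  have := sum_nbrs hG.np a (fun _ => (1 : ℕ))
  simp only [sum_const, smul_eq_mul, mul_one] at this
  rw [← this]
  exact hG.d_eq h

theorem Cub.no2 (hG : G.Cub) {a x b : V} (h1 : G.Adj a x) (h2 : G.Adj x b) (h3 : G.Adj b a) :
    False := by
  obtain ⟨n1, e, j1⟩ := h1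
  obtain ⟨n2, f, j2⟩ := h2
  obtain ⟨n3, g, j3⟩ := h3
  exact hG.nt e f g a x b n1 n2 n3.symm j1 j2 j3

theorem Cub.no3' (hG : G.Cub) {a x y b : V} (h1 : G.Adj a x) (h2 : G.Adj x y) (h3 : G.Adj y b)
    (h4 : G.Adj b a) (hay : a ≠ y) (hxb : x ≠ b) : False := by
  obtain ⟨n1, e, j1⟩ := h1
  obtain ⟨n2, f, j2⟩ := h2
  obtain ⟨n3, g, j3⟩ := h3
  obtain ⟨n4, k, j4⟩ := h4
  exact hG.nq e f g k a x y b n1 hay n4.symm n2 hxb n3 j1 j2 j3 j4

def NoPent (G : MG V E) : Prop := ∀ a b c d e : V, G.Adj a b → G.Adj b c → G.Adj c d → G.Adj d e →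
  G.Adj e a → a ≠ c → a ≠ d → b ≠ d → b ≠ e → c ≠ e → False

def NoHex (G : MG V E) : Prop := ∀ a b c d e f : V, G.Adj a b → G.Adj b c → G.Adj c d →
  G.Adj d e → G.Adj e f → G.Adj f a → a ≠ c → a ≠ d → a ≠ e → b ≠ d → b ≠ e → b ≠ f → c ≠ e →
  c ≠ f → d ≠ f → False

section walks

variable {R : V → V → Prop} (hR : ∀ a b, R a b → G.Adj a b) (hs : ∀ a b, R a b → R b a)
include hR hs

theorem Cub.w3 (hG : G.Cub) {a x y b : V} (h1 : R a x) (h2 : R x y) (h3 : R y b)
    (h : G.Adj b a) (hn : ¬ R a b) : False := by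
  refine hG.no3' (hR _ _ h1) (hR _ _ h2) (hR _ _ h3) h ?_ ?_
  · rintro rfl; exact hn h3
  · rintro rfl; exact hn h1

theorem Cub.w4 (hG : G.Cub) (h5 : G.NoPent) {a x y z b : V} (h1 : R a x) (h2 : R x y) (h3 : R y z)
    (h4 : R z b) (h : G.Adj b a) (hn : ¬ R a b) : False := by
  refine h5 a x y z b (hR _ _ h1) (hR _ _ h2) (hR _ _ h3) (hR _ _ h4) h ?_ ?_ ?_ ?_ ?_
  · rintro rfl; exact hG.no2 (hR _ _ h3) (hR _ _ h4) h
  · rintro rfl; exact hn h4
  · rintro rfl; exact hG.no2 (hR _ _ h1) (hR _ _ h4) h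
  · rintro rfl; exact hn h1
  · rintro rfl; exact hG.no2 (hR _ _ h1) (hR _ _ h2) h

theorem Cub.w5 (hG : G.Cub) (h6 : G.NoHex) {a x y z u b : V} (h1 : R a x) (h2 : R x y)
    (h3 : R y z) (h4 : R z u) (h5 : R u b) (h : G.Adj b a) (hn : ¬ R a b) : False := by
  refine h6 a x y z u b (hR _ _ h1) (hR _ _ h2) (hR _ _ h3) (hR _ _ h4) (hR _ _ h5) h
    ?_ ?_ ?_ ?_ ?_ ?_ ?_ ?_ ?_
  · rintro rfl; exact hG.w3 hR hs h3 h4 h5 h hn
  · rintro rfl; exact hG.no2 (hR _ _ h4) (hR _ _ h5) h
  · rintro rfl; exact hn h5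
  · rintro rfl; exact hG.w3 hR hs h1 h4 h5 h hn
  · rintro rfl; exact hG.no2 (hR _ _ h1) (hR _ _ h5) h
  · rintro rfl; exact hn h1
  · rintro rfl; exact hG.w3 hR hs h1 h2 h5 h hn
  · rintro rfl; exact hG.no2 (hR _ _ h1) (hR _ _ h2) h
  · rintro rfl; exact hG.w3 hR hs h1 h2 h3 h hn

end walks

def deg (A i : ℕ) : ℕ := ((range 32).filter (fun j => kn A i j)).card

structure Inv (G : MG V E) (l : ℕ → V) (k A D1 D2 D3 : ℕ) : Prop where
  le : k ≤ 32
  inj : ∀ i < k, ∀ j < k, l i = l j → i = j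
  ni : ∀ i < k, G.NI (l i)
  adj : ∀ i < 32, ∀ j < 32, kn A i j → i < k ∧ j < k ∧ G.Adj (l i) (l j) ∧ kn A j i
  dg : ∀ x < 32, (D1.testBit x = true ↔ 1 ≤ deg A x) ∧ (D2.testBit x = true ↔ 2 ≤ deg A x) ∧
    (D3.testBit x = true ↔ 3 ≤ deg A x)

def Forb (G : MG V E) (l : ℕ → V) (k A i L : ℕ) : Prop :=
  ∀ j < k, L.testBit j = true → G.Adj (l i) (l j) → kn A i j

variable {l : ℕ → V} {k A D1 D2 D3 : ℕ}

theorem Inv.k_le (hG : G.Cub) (h : G.Inv l k A D1 D2 D3) : k ≤ G.oc Set.univ := by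
  unfold oc
  have := card_le_card_of_injOn l (s := range k)
    (t := univ.filter (fun v => v ∈ Set.univ ∧ Odd (G.d {v}))) (by
      intro i hi
      simp only [coe_filter, mem_univ, true_and, Set.mem_ofPred_eq, Set.mem_univ]
      rw [hG.d_eq (h.ni i (by simpa using hi))]
      decide) (by
      intro i hi j hj hij
      exact h.inj i (by simpa using hi) j (by simpa using hj) hij)
  simpa using this

theorem Inv.img_sub (h : G.Inv l k A D1 D2 D3) {i : ℕ} (hi : i < k) :
    ((range 32).filter (fun j => kn A i j)).image l ⊆ univ.filter (G.Adj (l i)) ∧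
    (((range 32).filter (fun j => kn A i j)).image l).card = deg A i := by
  have hi' : i < 32 := lt_of_lt_of_le hi h.le
  constructor
  · intro w hw
    simp only [mem_image, mem_filter, mem_range] at hw
    obtain ⟨j, ⟨hj, hk⟩, rfl⟩ := hw
    simp only [mem_filter, mem_univ, true_and]
    exact (h.adj i hi' j hj hk).2.2.1
  · apply card_image_of_injOn
    intro a ha b hb hab
    simp only [coe_filter, mem_range, Set.mem_ofPred_eq] at ha hb
    exact h.inj a (h.adj i hi' a ha.1 ha.2).2.1 b (h.adj i hi' b hb.1 hb.2).2.1 hab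

theorem Inv.sat (hG : G.Cub) (h : G.Inv l k A D1 D2 D3) {i : ℕ} (hi : i < k)
    (h3 : D3.testBit i = true) {w : V} (hw : G.Adj (l i) w) : ∃ j < k, kn A i j ∧ l j = w := by
  have hi' : i < 32 := lt_of_lt_of_le hi h.le
  obtain ⟨h1, h2⟩ := h.img_sub hi
  have h4 := ((h.dg i hi').2.2).mp h3
  have h5 := eq_of_subset_of_card_le h1 (by rw [hG.card_nbrs (h.ni i hi), h2]; exact h4)
  have : w ∈ ((range 32).filter (fun j => kn A i j)).image l := by
    rw [h5]; simpa using hw
  simp only [mem_image, mem_filter, mem_range] at this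
  obtain ⟨j, ⟨hj, hk⟩, rfl⟩ := this
  exact ⟨j, (h.adj i hi' j hj hk).2.1, hk, rfl⟩

theorem Inv.unsat (hG : G.Cub) (h : G.Inv l k A D1 D2 D3) {i : ℕ} (hi : i < k)
    (h3 : D3.testBit i = false) : ∃ w, G.Adj (l i) w ∧ ∀ j < k, kn A i j → l j ≠ w := by
  have hi' : i < 32 := lt_of_lt_of_le hi h.le
  obtain ⟨h1, h2⟩ := h.img_sub hi
  have h4 : deg A i < 3 := by
    by_contra hc
    have := ((h.dg i hi').2.2).mpr (by omega)
    rw [h3] at this
    exact absurd this (by simp)
  by_contra hcon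
  push Not at hcon
  have : univ.filter (G.Adj (l i)) ⊆ ((range 32).filter (fun j => kn A i j)).image l := by
    intro w hw
    simp only [mem_filter, mem_univ, true_and] at hw
    obtain ⟨j, hj, hk, rfl⟩ := hcon w hw
    simp only [mem_image, mem_filter, mem_range]
    exact ⟨j, ⟨lt_of_lt_of_le hj h.le, hk⟩, rfl⟩
  have := card_le_card this
  rw [hG.card_nbrs (h.ni i hi), h2] at this
  omega

theorem Inv.add (h : G.Inv l k A D1 D2 D3) {i j : ℕ} (hi : i < k) (hj : j < k)
    (hadj : G.Adj (l i) (l j)) (hn : ¬ kn A i j) :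
    G.Inv l k (addE A i j) (Nat.lor D1 (Nat.lor (bit i) (bit j)))
      (Nat.lor D2 (Nat.land D1 (Nat.lor (bit i) (bit j))))
      (Nat.lor D3 (Nat.land D2 (Nat.lor (bit i) (bit j)))) := by
  have hi' : i < 32 := lt_of_lt_of_le hi h.le
  have hj' : j < 32 := lt_of_lt_of_le hj h.le
  have hij : i ≠ j := fun h' => hadj.1 (by rw [h'])
  have hn' : ¬ kn A j i := fun h' => hn (h.adj j hj' i hi' h').2.2.2
  refine ⟨h.le, h.inj, h.ni, ?_, ?_⟩
  · intro x hx y hy hk
    rw [kn_addE A i j x y hi' hj' hy] at hk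
    rw [kn_addE A i j y x hi' hj' hx]
    rcases hk with hk | ⟨rfl, rfl⟩ | ⟨rfl, rfl⟩
    · obtain ⟨a, b, c, d⟩ := h.adj x hx y hy hk
      exact ⟨a, b, c, Or.inl d⟩
    · exact ⟨hi, hj, hadj, by tauto⟩
    · exact ⟨hj, hi, hadj.symm, by tauto⟩
  · intro x hx
    have hd : deg (addE A i j) x = deg A x + (if x = i ∨ x = j then 1 else 0) := by
      unfold deg
      by_cases hxi : x = i
      · subst hxi
        have : (range 32).filter (fun y => kn (addE A x j) x y) =
            insert j ((range 32).filter (fun y => kn A x y)) := by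
          ext y
          simp only [mem_filter, mem_range, mem_insert]
          constructor
          · rintro ⟨hy, hk⟩
            rw [kn_addE A x j x y hi' hj' hy] at hk
            tauto
          · rintro (rfl | ⟨hy, hk⟩)
            · exact ⟨hj', (kn_addE A x y x y hi' hj' hj').mpr (by tauto)⟩
            · exact ⟨hy, (kn_addE A x j x y hi' hj' hy).mpr (by tauto)⟩
        rw [this, card_insert_of_notMem (by simp [hn])]
        simp
      · by_cases hxj : x = j
        · subst hxj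
          have : (range 32).filter (fun y => kn (addE A i x) x y) =
              insert i ((range 32).filter (fun y => kn A x y)) := by
            ext y
            simp only [mem_filter, mem_range, mem_insert]
            constructor
            · rintro ⟨hy, hk⟩
              rw [kn_addE A i x x y hi' hj' hy] at hk
              tauto
            · rintro (rfl | ⟨hy, hk⟩)
              · exact ⟨hi', (kn_addE A y x x y hi' hj' hi').mpr (by tauto)⟩
              · exact ⟨hy, (kn_addE A i x x y hi' hj' hy).mpr (by tauto)⟩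
          rw [this, card_insert_of_notMem (by simp [hn'])]
          simp
        · simp only [hxi, hxj, or_self, if_false, add_zero]
          congr 1
          ext y
          simp only [mem_filter, mem_range]
          constructor
          · rintro ⟨hy, hk⟩
            rw [kn_addE A i j x y hi' hj' hy] at hk
            tauto
          · rintro ⟨hy, hk⟩
            exact ⟨hy, (kn_addE A i j x y hi' hj' hy).mpr (by tauto)⟩
    obtain ⟨a1, a2, a3⟩ := h.dg x hx
    simp only [testBit_lor, testBit_land, testBit_bit, Bool.or_eq_true, Bool.and_eq_true,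
      decide_eq_true_eq, a1, a2, a3, hd]
    split_ifs with hc
    · have : i = x ∨ j = x := by omega
      simp only [this, or_true, and_true]
      refine ⟨⟨fun _ => by omega, fun _ => trivial⟩, by omega, by omega⟩
    · have : ¬ (i = x ∨ j = x) := by omega
      simp only [this, or_false, and_false, add_zero, and_self]

theorem Inv.extend (h : G.Inv l k A D1 D2 D3) (hk : k < 32) {w : V} (hw : G.NI w)
    (hn : ∀ j < k, l j ≠ w) : G.Inv (Function.update l k w) (k + 1) A D1 D2 D3 := by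
  have up : ∀ j < k, Function.update l k w j = l j := fun j hj =>
    Function.update_of_ne (by omega) _ _
  refine ⟨hk, ?_, ?_, ?_, h.dg⟩
  · intro i hi j hj hij
    by_cases a : i = k <;> by_cases b : j = k
    · omega
    · rw [a, Function.update_self, up j (by omega)] at hij
      exact absurd hij.symm (hn j (by omega))
    · rw [b, Function.update_self, up i (by omega)] at hij
      exact absurd hij (hn i (by omega))
    · rw [up i (by omega), up j (by omega)] at hij
      exact h.inj i (by omega) j (by omega) hij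
  · intro i hi
    by_cases a : i = k
    · rw [a, Function.update_self]; exact hw
    · rw [up i (by omega)]; exact h.ni i (by omega)
  · intro i hi j hj hk
    obtain ⟨a, b, c, d⟩ := h.adj i hi j hj hk
    rw [up i a, up j b]
    exact ⟨by omega, by omega, c, d⟩

def KR (l : ℕ → V) (A : ℕ) (a b : V) : Prop := ∃ i < 32, ∃ j < 32, kn A i j ∧ l i = a ∧ l j = b

theorem Inv.kr_adj (h : G.Inv l k A D1 D2 D3) (a b : V) (hr : KR l A a b) : G.Adj a b := by
  obtain ⟨i, hi, j, hj, hk, rfl, rfl⟩ := hr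
  exact (h.adj i hi j hj hk).2.2.1

theorem Inv.kr_symm (h : G.Inv l k A D1 D2 D3) (a b : V) (hr : KR l A a b) : KR l A b a := by
  obtain ⟨i, hi, j, hj, hk, rfl, rfl⟩ := hr
  exact ⟨j, hj, i, hi, (h.adj i hi j hj hk).2.2.2, rfl, rfl⟩

theorem Inv.kr_kn (h : G.Inv l k A D1 D2 D3) {i j : ℕ} (hi : i < k) (hj : j < k)
    (hr : KR l A (l i) (l j)) : kn A i j := by
  obtain ⟨i', hi', j', hj', hk, h1, h2⟩ := hr
  obtain ⟨a, b, -, -⟩ := h.adj i' hi' j' hj' hk
  rw [← h.inj i' a i hi h1, ← h.inj j' b j hj h2]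
  exact hk

/-- walks of length `n` along known edges -/
def Wk (l : ℕ → V) (A : ℕ) : ℕ → V → V → Prop
  | 0, a, b => a = b
  | n + 1, a, b => ∃ x, Wk l A n a x ∧ KR l A x b

def Near (l : ℕ → V) (A i r B : ℕ) : Prop :=
  ∀ j, B.testBit j = true → j < 32 ∧ ∃ n ≤ r, Wk l A n (l i) (l j)

theorem Near.expand {i r B C : ℕ} (hB : Near l A i r B) (hC : Near l A i (r + 1) C) (fuel : ℕ) :
    Near l A i (r + 1) (expand A fuel B C) := by
  intro y hy
  rcases expand_sound A fuel B C y hy with h | ⟨j, h1, h2, h3⟩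
  · exact hC y h
  · obtain ⟨hj, n, hn, hw⟩ := hB j h1
    exact ⟨h2, n + 1, by omega, l j, hw, j, hj, y, h2, h3, rfl, rfl⟩

theorem Near.mono {i r r' B : ℕ} (hB : Near l A i r B) (h : r ≤ r') : Near l A i r' B := by
  intro j hj
  obtain ⟨a, n, hn, hw⟩ := hB j hj
  exact ⟨a, n, by omega, hw⟩

theorem Inv.forb_of_near (hG : G.Cub) (h : G.Inv l k A D1 D2 D3) {i r B : ℕ} (hi : i < k)
    (hB : Near l A i r B) (hr : r ≤ 5) (h4 : 4 ≤ r → G.NoPent) (h5 : 5 ≤ r → G.NoHex) :
    G.Forb l k A i B := by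
  intro j hj hb hadj
  obtain ⟨-, n, hn, hw⟩ := hB j hb
  by_contra hk
  have hn' : ¬ KR l A (l i) (l j) := fun h' => hk (h.kr_kn hi hj h')
  have : n = 0 ∨ n = 1 ∨ n = 2 ∨ n = 3 ∨ n = 4 ∨ n = 5 := by omega
  rcases this with rfl | rfl | rfl | rfl | rfl | rfl
  · exact hadj.1 hw
  · obtain ⟨x, rfl, h1⟩ := hw
    exact hn' h1
  · obtain ⟨y, ⟨x, rfl, h1⟩, h2⟩ := hw
    exact hG.no2 (h.kr_adj _ _ h1) (h.kr_adj _ _ h2) hadj.symm
  · obtain ⟨z, ⟨y, ⟨x, rfl, h1⟩, h2⟩, h3⟩ := hw
    exact hG.w3 h.kr_adj h.kr_symm h1 h2 h3 hadj.symm hn'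
  · obtain ⟨u, ⟨z, ⟨y, ⟨x, rfl, h1⟩, h2⟩, h3⟩, h4'⟩ := hw
    exact hG.w4 h.kr_adj h.kr_symm (h4 hn) h1 h2 h3 h4' hadj.symm hn'
  · obtain ⟨v, ⟨u, ⟨z, ⟨y, ⟨x, rfl, h1⟩, h2⟩, h3⟩, h4'⟩, h5'⟩ := hw
    exact hG.w5 h.kr_adj h.kr_symm (h5 hn) h1 h2 h3 h4' h5' hadj.symm hn'

def Sound (G : MG V E) (Hyp : (ℕ → V) → Prop) (k0 : ℕ) (Good : Prop) (f : St) : Prop :=
  ∀ k i L A D1 D2 D3 l, f k i L A D1 D2 D3 = true → G.Inv l k A D1 D2 D3 → Hyp l → k0 ≤ k →
    i < k → D3.testBit i = false → G.Forb l k A i L → Good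

theorem nxt_sound {Hyp : (ℕ → V) → Prop} {k0 : ℕ} {Good : Prop} {leaf : ℕ → ℕ → Bool} {ih : St}
    (hleaf : ∀ k A D1 D2 D3 l, leaf k A = true → G.Inv l k A D1 D2 D3 → 0 < k →
      (∀ i < k, D3.testBit i = true) → Good)
    (hih : G.Sound Hyp k0 Good ih) {i j : ℕ} (h : nxt leaf ih k i j A D1 D2 D3 = true)
    (hI : G.Inv l k A D1 D2 D3) (hH : Hyp l) (hk : k0 ≤ k) (hi : i < k) (hj : j < k)
    (hadj : G.Adj (l i) (l j)) (hn : ¬ kn A i j)
    (hord : ∀ j' < j, G.Adj (l i) (l j') → kn A i j') : Good := by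
  have hI' := hI.add hi hj hadj hn
  unfold nxt at h
  simp only [frc_eq, Bool.cond_eq_ite, tb_eq] at h
  split_ifs at h with h1 h2 h3
  · refine hleaf _ _ _ _ _ l h hI' (by omega) fun x hx => ?_
    have h4 := congrArg (fun m => Nat.testBit m x) (Nat.eq_of_beq_eq_true h2)
    simp only [testBit_minus, testBit_full, hx, decide_true, Bool.true_and, Nat.zero_testBit] at h4
    generalize Nat.testBit _ x = b at h4 ⊢
    revert h4
    cases b <;> simp
  · rw [testBit_minus, testBit_full] at h3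
    simp only [Bool.and_eq_true, decide_eq_true_eq, Bool.not_eq_true'] at h3
    exact hih _ _ _ _ _ _ _ l h hI' hH hk h3.1 h3.2 (by intro y _ hy; simp at hy)
  · refine hih _ _ _ _ _ _ _ l h hI' hH hk hi (by simpa using h1) ?_
    intro y hy hb ha
    rw [testBit_full] at hb
    have hi' : i < 32 := lt_of_lt_of_le hi hI.le
    have hj' : j < 32 := lt_of_lt_of_le hj hI.le
    rw [kn_addE A i j i y hi' hj' (lt_of_lt_of_le hy hI.le)]
    simp only [Nat.succ_eq_add_one, decide_eq_true_eq] at hb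
    by_cases hyj : y = j
    · tauto
    · exact Or.inl (hord y (by omega) ha)

theorem search_sound (hG : G.Cub) {N : ℕ} (hN : N ≤ 31) (hoc : G.oc Set.univ ≤ N)
    {Hyp : (ℕ → V) → Prop} {k0 : ℕ} {Good : Prop} {leaf : ℕ → ℕ → Bool}
    {ex : ℕ → ℕ → ℕ → ℕ} {orc : St}
    (hstab : ∀ l k w, k0 ≤ k → Hyp l → Hyp (Function.update l k w))
    (hleaf : ∀ k A D1 D2 D3 l, leaf k A = true → G.Inv l k A D1 D2 D3 → 0 < k →
      (∀ i < k, D3.testBit i = true) → Good)
    (hex : ∀ k A D1 D2 D3 l i B, G.Inv l k A D1 D2 D3 → Hyp l → k0 ≤ k → i < k →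
      Near l A i 3 B → G.Forb l k A i (ex A i B))
    (horc : G.Sound Hyp k0 Good orc) (fuel : ℕ) :
    G.Sound Hyp k0 Good (search N ex leaf orc fuel) := by
  induction fuel with
  | zero => exact horc
  | succ n ih =>
    intro k i L A D1 D2 D3 l h hI hH hk hi h3 hL
    change (frc (row A i) fun B1 => frc (expand A 3 B1 0) fun S2 =>
       frc (expand A 8 (minus S2 (bit i)) (Nat.lor B1 S2)) fun B3 =>
       frc (minus (Nat.pred (bit k))
          (Nat.lor (Nat.lor (ex A i B3) (Nat.lor D3 L)) (bit i))) fun C =>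
       cond (allBits (fun j => nxt leaf (search N ex leaf orc n) k i j A D1 D2 D3) 32 C)
        (cond (Nat.ble N k) true (frc (Nat.succ k) fun k' =>
          nxt leaf (search N ex leaf orc n) k' i k A D1 D2 D3)) false) = true at h
    simp only [frc_eq, Bool.cond_eq_ite] at h
    have hi' : i < 32 := lt_of_lt_of_le hi hI.le
    have n1 : Near l A i 1 (row A i) := by
      intro j hj
      rw [testBit_row] at hj
      exact ⟨hj.1, 1, le_rfl, l i, rfl, i, hi', j, hj.1, hj.2, rfl, rfl⟩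
    have n2 : Near l A i 2 (expand A 3 (row A i) 0) := n1.expand (by intro j hj; simp at hj) 3
    have n3 : Near l A i 3 (expand A 8 (minus (expand A 3 (row A i) 0) (bit i))
        (Nat.lor (row A i) (expand A 3 (row A i) 0))) := by
      apply Near.expand
      · intro j hj
        rw [testBit_minus, Bool.and_eq_true] at hj
        exact n2 j hj.1
      · intro j hj
        rw [testBit_lor, Bool.or_eq_true] at hj
        rcases hj with hj | hj
        · exact n1.mono (by omega) j hj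
        · exact n2.mono (by omega) j hj
    have f1 := hex k A D1 D2 D3 l i _ hI hH hk hi n3
    by_cases hex' : ∃ j, j < k ∧ G.Adj (l i) (l j) ∧ ¬ kn A i j
    · have hj := Nat.find_spec hex'
      have hmin : ∀ j' < Nat.find hex', G.Adj (l i) (l j') → kn A i j' := by
        intro j' hj' ha
        have := Nat.find_min hex' hj'
        by_contra hc
        exact this ⟨by omega, ha, hc⟩
      generalize Nat.find hex' = j at hj hmin
      obtain ⟨hjk, hadj, hn⟩ := hj
      split_ifs at h with h1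
      all_goals
        refine nxt_sound hleaf ih (allBits_sound _ _ _ h1 j ?_) hI hH hk hi hjk hadj hn hmin
        rw [testBit_minus, testBit_full, testBit_lor, testBit_lor, testBit_lor, testBit_bit]
        have b1 : Nat.testBit _ j = false := Bool.eq_false_iff.mpr fun h' => hn (f1 j hjk h' hadj)
        have b2 : L.testBit j = false := Bool.eq_false_iff.mpr fun h' => hn (hL j hjk h' hadj)
        have b3 : D3.testBit j = false := Bool.eq_false_iff.mpr fun h' => by
          obtain ⟨x, hx, h1, h2⟩ := hI.sat hG hjk h' hadj.symm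
          rw [hI.inj x hx i hi h2] at h1
          exact hn (hI.adj j (lt_of_lt_of_le hjk hI.le) i hi' h1).2.2.2
        have b4 : i ≠ j := fun h' => hadj.1 (by rw [h'])
        rw [b1, b2, b3]
        simp [b4, hjk]
    · push Not at hex'
      obtain ⟨w, hw, hwn⟩ := hI.unsat hG hi h3
      have hnew : ∀ j < k, l j ≠ w := by
        intro j hj h'
        exact hwn j hj (hex' j hj (h' ▸ hw)) h'
      have hk1 := hI.k_le hG
      have hI' := hI.extend (by omega) hw.symm.ni hnew
      have hk2 := hI'.k_le hG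
      split_ifs at h with h1 h2
      · have := Nat.le_of_ble_eq_true h2
        omega
      · have up : ∀ j < k, Function.update l k w j = l j := fun j hj =>
          Function.update_of_ne (by omega) _ _
        refine nxt_sound hleaf ih h hI' (hstab l k w hk hH) (by omega) (by omega) (by omega) ?_ ?_ ?_
        · rw [up i hi, Function.update_self]; exact hw
        · intro h'
          have := (hI.adj i hi' k (by omega) h').2.1
          omega
        · intro j' hj' ha
          rw [up i hi, up j' hj'] at ha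
          exact hex' j' hj' ha

theorem Inv.all (hG : G.Cub) (h : G.Inv l k A D1 D2 D3) (hk : 0 < k)
    (h3 : ∀ i < k, D3.testBit i = true) {w : V} (hw : G.NI w) : ∃ i < k, l i = w := by
  by_contra hcon
  have h1 := hG.e4.three_le' (X := {v | ∃ i < k, l i = v}) (h.ni 0 hk) hw ⟨0, hk, rfl⟩ hcon
  obtain ⟨e, he⟩ : (G.cut {v | ∃ i < k, l i = v}).Nonempty := card_pos.mp (by unfold d at h1; omega)
  obtain ⟨a, b, hj, ⟨i, hi, rfl⟩, hb⟩ := exists_joins_of_mem_cut he
  obtain ⟨j, hj', -, h2⟩ := h.sat hG hi (h3 i hi) (w := b)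
    ⟨fun h' => hb ⟨i, hi, h'⟩, e, hj⟩
  exact hb ⟨j, hj', h2⟩

def lab (l : ℕ → V) (k : ℕ) (v : V) : ℕ := if h : ∃ i < k, l i = v then h.choose else 0

theorem Inv.lab_eq (h : G.Inv l k A D1 D2 D3) {i : ℕ} (hi : i < k) : lab l k (l i) = i := by
  have : ∃ j < k, l j = l i := ⟨i, hi, rfl⟩
  unfold lab
  rw [dif_pos this]
  exact h.inj _ this.choose_spec.1 i hi this.choose_spec.2

theorem Inv.col (hG : G.Cub) (h : G.Inv l k A D1 D2 D3) (hk : 0 < k)
    (h3 : ∀ i < k, D3.testBit i = true) (hc : colb k A = true) : G.Col := by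
  obtain ⟨p, q, hpq⟩ := colb_sound hc
  let c : ℕ → ℕ → K := fun i j => if p i = j then .k1 else if q i = j then .k2 else .k3
  have csymm : ∀ i < k, ∀ j < k, c i j = c j i := by
    intro i hi j hj
    obtain ⟨-, -, -, -, a1, a2, -⟩ := hpq i hi
    obtain ⟨-, -, -, -, b1, b2, -⟩ := hpq j hj
    have e1 : p i = j ↔ p j = i := ⟨fun h => h ▸ a1, fun h => h ▸ b1⟩
    have e2 : q i = j ↔ q j = i := ⟨fun h => h ▸ a2, fun h => h ▸ b2⟩
    simp only [c, e1, e2]
  refine ⟨fun e => c (lab l k (G.s e)) (lab l k (G.t e)), fun e => ?_, fun v _ => ?_⟩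
  · simp only [c]
    split_ifs <;> decide
  · by_cases hv : G.NI v
    · obtain ⟨i, hi, rfl⟩ := h.all hG hk h3 hv
      have e1 : G.df (fun e => c (lab l k (G.s e)) (lab l k (G.t e))) (l i) =
          ∑ e ∈ G.cut {l i}, c i (lab l k (G.oth (l i) e)) := by
        apply sum_congr rfl
        intro e he
        obtain ⟨j1, j2⟩ := joins_oth he
        obtain ⟨j, hj, -, hj2⟩ := h.sat hG hi (h3 i hi) ⟨j2, e, j1⟩
        rw [← hj2] at j1 ⊢
        rcases j1 with ⟨a, b⟩ | ⟨a, b⟩ <;> beta_reduce <;> rw [a, b, h.lab_eq hi, h.lab_eq hj]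
        exact csymm j hj i hi
      rw [e1, sum_nbrs hG.np (l i) (fun w => c i (lab l k w))]
      obtain ⟨z, n1, n2, n3, -, -, hy⟩ := hpq i hi
      have hi' : i < 32 := lt_of_lt_of_le hi h.le
      have m : ∀ y, (y = p i ∨ y = q i ∨ y = z) → y < k ∧ G.Adj (l i) (l y) := by
        intro y h'
        obtain ⟨a, b⟩ := (hy y).mpr h'
        obtain ⟨-, c, d, -⟩ := h.adj i hi' y a b
        exact ⟨c, d⟩
      obtain ⟨k1, a1⟩ := m _ (Or.inl rfl)
      obtain ⟨k2, a2⟩ := m _ (Or.inr (Or.inl rfl))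
      obtain ⟨k3, a3⟩ := m _ (Or.inr (Or.inr rfl))
      have e2 : univ.filter (G.Adj (l i)) = {l (p i), l (q i), l z} := by
        ext w
        simp only [mem_filter, mem_univ, true_and, mem_insert, mem_singleton]
        constructor
        · intro hw
          obtain ⟨j, hj, hj1, rfl⟩ := h.sat hG hi (h3 i hi) hw
          rcases (hy j).mp ⟨lt_of_lt_of_le hj h.le, hj1⟩ with rfl | rfl | rfl <;> simp
        · rintro (rfl | rfl | rfl) <;> assumption
      have d1 : l (p i) ≠ l (q i) := fun h' => n1 (h.inj _ k1 _ k2 h')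
      have d2 : l (p i) ≠ l z := fun h' => n2 (h.inj _ k1 _ k3 h')
      have d3 : l (q i) ≠ l z := fun h' => n3 (h.inj _ k2 _ k3 h')
      rw [e2, sum_insert (by simp [d1, d2]), sum_pair d3, h.lab_eq k1, h.lab_eq k2, h.lab_eq k3]
      simp only [c, if_true, n1, n2, n3, if_false]
      decide
    · apply sum_eq_zero
      intro e he
      obtain ⟨x, hj, hx⟩ := exists_other he
      exact absurd (hj.ni hx) hv

end MG

end

end Pool.Agent.Lib.MP_aa6b05_co
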