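import Mathlib

set_option linter.unusedSectionVars false
set_option linter.unusedVariables false
set_option synthInstance.maxSize 4096

namespace Pool.Agent.Lib.MP_aa6b05_co

open Finset

inductive K | k0 | k1 | k2 | k3
  deriving DecidableEq

instance : Fintype K := ⟨{.k0, .k1, .k2, .k3}, by intro x; cases x <;> decide⟩

def K.add : K → K → K
  | .k0, x => x
  | .k1, .k0 => .k1
  | .k1, .k1 => .k0
  | .k1, .k2 => .k3
  | .k1, .k3 => .k2
  | .k2, .k0 => .k2
  | .k2, .k1 => .k3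
  | .k2, .k2 => .k0
  | .k2, .k3 => .k1
  | .k3, .k0 => .k3
  | .k3, .k1 => .k2
  | .k3, .k2 => .k1
  | .k3, .k3 => .k0

instance : Add K := ⟨K.add⟩
instance : Zero K := ⟨K.k0⟩
instance : Neg K := ⟨id⟩

instance : AddCommGroup K where
  add_assoc := by decide
  zero_add := by decide
  add_zero := by decide
  add_comm := by decide
  neg_add_cancel := by decide
  nsmul := nsmulRec
  zsmul := zsmulRec

theorem K.add_self (x : K) : x + x = 0 := by revert x; decide

theorem zmod2_add_self (x : ZMod 2) : x + x = 0 := by revert x; decide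

/-- additive automorphisms of `K` -/
def GoodAut (σ : K → K) : Prop := (∀ x y, σ (x + y) = σ x + σ y) ∧ ∀ x, x ≠ 0 → σ x ≠ 0

theorem exists_aut_two (a b c d : K) (ha : a ≠ 0) (hb : b ≠ 0) (hab : a ≠ b) (hc : c ≠ 0)
    (hd : d ≠ 0) (hcd : c ≠ d) : ∃ σ, GoodAut σ ∧ σ a = c ∧ σ b = d := by
  refine ⟨fun x => if x = a then c else if x = b then d else if x = 0 then 0 else c + d, ?_⟩
  unfold GoodAut
  revert a b c d
  decide +kernel

theorem exists_aut_one (a c : K) (ha : a ≠ 0) (hc : c ≠ 0) : ∃ σ, GoodAut σ ∧ σ a = c := by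
  obtain ⟨b, hb, hab⟩ : ∃ b, b ≠ 0 ∧ a ≠ b := by revert a; decide
  obtain ⟨d, hd, hcd⟩ : ∃ d, d ≠ 0 ∧ c ≠ d := by revert c; decide
  obtain ⟨σ, h1, h2, -⟩ := exists_aut_two a b c d ha hb hab hc hd hcd
  exact ⟨σ, h1, h2⟩

structure MG (V E : Type) where
  s : E → V
  t : E → V

open scoped Classical

noncomputable section

namespace MG

variable {V E : Type} [Fintype V] [Fintype E] (G : MG V E)

def cut (X : Set V) : Finset E := univ.filter (fun e => ¬ (G.s e ∈ X ↔ G.t e ∈ X))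

def d (X : Set V) : ℕ := (G.cut X).card

variable {G}

theorem mem_cut {X : Set V} {e : E} : e ∈ G.cut X ↔ ¬ (G.s e ∈ X ↔ G.t e ∈ X) := by
  simp [cut]

theorem cut_compl (X : Set V) : G.cut Xᶜ = G.cut X := by
  ext e
  simp only [mem_cut, Set.mem_compl_iff]
  tauto

theorem d_compl (X : Set V) : G.d Xᶜ = G.d X := by
  unfold d
  rw [cut_compl]

theorem mem_cut_single {v : V} {e : E} :
    e ∈ G.cut {v} ↔ G.s e ≠ G.t e ∧ (G.s e = v ∨ G.t e = v) := by
  simp only [mem_cut, Set.mem_singleton_iff]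
  constructor
  · intro h
    refine ⟨fun h' => h (by rw [h']), ?_⟩
    tauto
  · rintro ⟨h1, h2 | h2⟩ h3
    · exact h1 (h2.trans (h3.mp h2).symm)
    · exact h1 ((h3.mpr h2).trans h2.symm)

theorem d_eq_sum (X : Set V) :
    G.d X = ∑ e, if ¬ (G.s e ∈ X ↔ G.t e ∈ X) then 1 else 0 := by
  unfold d cut
  rw [card_filter]

theorem sum_cut {M : Type} [AddCommGroup M] (h2 : ∀ x : M, x + x = 0) (φ : E → M)
    (X : Set V) :
    ∑ e ∈ G.cut X, φ e = ∑ v ∈ univ.filter (fun v => v ∈ X), ∑ e ∈ G.cut {v}, φ e := by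
  have h1 : ∀ Y : Set V, ∑ e ∈ G.cut Y, φ e =
      ∑ e, ((if G.s e ∈ Y then φ e else 0) + (if G.t e ∈ Y then φ e else 0)) := by
    intro Y
    unfold cut
    rw [sum_filter]
    apply sum_congr rfl
    intro e _
    by_cases a : G.s e ∈ Y <;> by_cases b : G.t e ∈ Y <;> simp [a, b, h2]
  rw [h1]
  simp only [h1]
  rw [sum_comm]
  apply sum_congr rfl
  intro e _
  rw [sum_add_distrib]
  congr 1
  · simp only [Set.mem_singleton_iff]
    rw [sum_ite_eq]
    simp
  · simp only [Set.mem_singleton_iff]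
    rw [sum_ite_eq]
    simp

/-- defect of `φ` at `v` -/
def df (G : MG V E) {M : Type} [AddCommMonoid M] (φ : E → M) (v : V) : M := ∑ e ∈ G.cut {v}, φ e

theorem sum_cut_eq_zero {M : Type} [AddCommGroup M] (h2 : ∀ x : M, x + x = 0) {φ : E → M}
    {X : Set V} (h : ∀ v ∈ X, G.df φ v = 0) : ∑ e ∈ G.cut X, φ e = 0 := by
  rw [sum_cut h2]
  apply sum_eq_zero
  intro v hv
  exact h v (mem_filter.mp hv).2

theorem sum_cut_eq_one {M : Type} [AddCommGroup M] (h2 : ∀ x : M, x + x = 0) {φ : E → M}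
    {X : Set V} {u : V} (hu : u ∈ X) (h : ∀ v ∈ X, v ≠ u → G.df φ v = 0) :
    ∑ e ∈ G.cut X, φ e = G.df φ u := by
  rw [sum_cut h2]
  rw [sum_eq_single u]
  · rfl
  · intro v hv hvu
    exact h v (mem_filter.mp hv).2 hvu
  · intro h'
    exact absurd (by simp [hu]) h'

variable (G)

def Loc (A : Set V) (φ : E → K) : Prop := (∀ e, φ e ≠ 0) ∧ ∀ v ∈ A, G.df φ v = 0

def Col : Prop := ∃ φ, G.Loc Set.univ φ

def Bl : Prop := ∀ X, G.d X ≠ 1

def oc (X : Set V) : ℕ := (univ.filter (fun v => v ∈ X ∧ Odd (G.d {v}))).card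

def m : ℕ := (univ.filter (fun e => G.s e ≠ G.t e)).card

def Triv (X : Set V) : Prop :=
  ∃ w, ∀ e, G.s e ≠ G.t e → (G.s e ∈ X → G.s e = w) ∧ (G.t e ∈ X → G.t e = w)

def E4 : Prop := (∀ X, G.d X ≠ 1 ∧ G.d X ≠ 2) ∧ ∀ X, G.d X ≤ 3 → G.Triv X ∨ G.Triv Xᶜ

variable {G}

theorem Loc.mono {A B : Set V} {φ : E → K} (h : G.Loc A φ) (hBA : B ⊆ A) : G.Loc B φ :=
  ⟨h.1, fun v hv => h.2 v (hBA hv)⟩

theorem Loc.sum_cut {A X : Set V} {φ : E → K} (h : G.Loc A φ) (hX : X ⊆ A) :
    ∑ e ∈ G.cut X, φ e = 0 :=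
  sum_cut_eq_zero K.add_self fun v hv => h.2 v (hX hv)

theorem odd_d_iff (X : Set V) : Odd (G.d X) ↔ Odd (G.oc X) := by
  have h := sum_cut (G := G) zmod2_add_self (fun _ : E => (1 : ZMod 2)) X
  simp only [sum_const, nsmul_eq_mul, mul_one] at h
  have h2 : ∑ v ∈ univ.filter (fun v => v ∈ X), (((G.cut {v}).card : ℕ) : ZMod 2) =
      ((G.oc X : ℕ) : ZMod 2) := by
    unfold oc
    rw [← filter_filter, card_filter, Nat.cast_sum]
    apply sum_congr rfl
    intro v _
    by_cases hv : Odd (G.d {v})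
    · rw [if_pos hv]
      exact (ZMod.natCast_eq_one_iff_odd).mpr hv
    · rw [if_neg hv]
      rw [Nat.cast_zero]
      exact (ZMod.natCast_eq_zero_iff_even).mpr (Nat.not_odd_iff_even.mp hv)
  rw [h2] at h
  rw [← ZMod.natCast_eq_one_iff_odd, ← ZMod.natCast_eq_one_iff_odd]
  unfold d
  rw [h]

theorem oc_mono {X Y : Set V} (h : X ⊆ Y) : G.oc X ≤ G.oc Y := by
  apply card_le_card
  intro v hv
  simp only [mem_filter, mem_univ, true_and] at hv ⊢
  exact ⟨h hv.1, hv.2⟩

theorem oc_union {X Y : Set V} (h : Disjoint X Y) : G.oc (X ∪ Y) = G.oc X + G.oc Y := by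
  unfold oc
  rw [← card_union_of_disjoint]
  · congr 1
    ext v
    simp only [mem_filter, mem_univ, true_and, mem_union, Set.mem_union]
    tauto
  · rw [disjoint_left]
    intro v hv hv'
    simp only [mem_filter, mem_univ, true_and] at hv hv'
    exact Set.disjoint_left.mp h hv.1 hv'.1

theorem oc_pos_of_odd {X : Set V} (h : Odd (G.d X)) : 1 ≤ G.oc X :=
  ((odd_d_iff X).mp h).pos

/-- sum of `oc` over the fibres of a map -/
theorem sum_oc_fibres {ι : Type} [Fintype ι] (π : V → ι) :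
    ∑ i, G.oc (π ⁻¹' {i}) = G.oc Set.univ := by
  unfold oc
  rw [card_eq_sum_card_fiberwise (f := π) (t := univ) (by intro _ _; simp)]
  apply sum_congr rfl
  intro i _
  congr 1
  ext v
  simp only [mem_filter, mem_univ, true_and, Set.mem_preimage, Set.mem_singleton_iff,
    Set.mem_univ]
  tauto

variable (G)

def map {V' : Type} (π : V → V') : MG V' E where
  s := fun e => π (G.s e)
  t := fun e => π (G.t e)

variable {G}

theorem cut_map {V' : Type} [Fintype V'] (π : V → V') (X : Set V') :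
    (G.map π).cut X = G.cut (π ⁻¹' X) := rfl

theorem d_map {V' : Type} [Fintype V'] (π : V → V') (X : Set V') :
    (G.map π).d X = G.d (π ⁻¹' X) := rfl

theorem Bl.map {V' : Type} [Fintype V'] (π : V → V') (h : G.Bl) : (G.map π).Bl :=
  fun X => h (π ⁻¹' X)

theorem oc_map_le {V' : Type} [Fintype V'] (π : V → V') :
    (G.map π).oc Set.univ ≤ G.oc Set.univ := by
  rw [← sum_oc_fibres π]
  unfold oc
  rw [card_filter]
  apply sum_le_sum
  intro i _
  split_ifs with h
  · exact oc_pos_of_odd (X := π ⁻¹' {i}) h.2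
  · exact Nat.zero_le _

theorem m_map_lt {V' : Type} [Fintype V'] (π : V → V') (e : E) (h1 : G.s e ≠ G.t e)
    (h2 : π (G.s e) = π (G.t e)) : (G.map π).m < G.m := by
  apply card_lt_card
  constructor
  · intro f hf
    simp only [mem_filter, mem_univ, true_and] at hf ⊢
    intro h
    exact hf (congrArg π h)
  · intro h
    have : e ∈ univ.filter (fun e => (G.map π).s e ≠ (G.map π).t e) := h (by simp [h1])
    simp only [mem_filter, mem_univ, true_and] at this
    exact this h2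

theorem df_map {V' : Type} [Fintype V'] (π : V → V') (φ : E → K) (v : V)
    (h : ∀ u, π u = π v → u = v) : (G.map π).df φ (π v) = G.df φ v := by
  unfold df
  rw [cut_map]
  have : π ⁻¹' {π v} = {v} := by
    ext u
    simp only [Set.mem_preimage, Set.mem_singleton_iff]
    exact ⟨h u, fun h => by rw [h]⟩
  rw [this]

theorem df_congr {M : Type} [AddCommMonoid M] {φ ψ : E → M} {v : V}
    (h : ∀ e ∈ G.cut {v}, φ e = ψ e) : G.df φ v = G.df ψ v :=
  sum_congr rfl h

def Joins (G : MG V E) (e : E) (a b : V) : Prop :=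
  (G.s e = a ∧ G.t e = b) ∨ (G.s e = b ∧ G.t e = a)

theorem Joins.symm {e : E} {a b : V} (h : G.Joins e a b) : G.Joins e b a := Or.symm h

theorem Joins.mem_cut {e : E} {a b : V} (h : G.Joins e a b) {X : Set V} :
    e ∈ G.cut X ↔ ¬ (a ∈ X ↔ b ∈ X) := by
  rw [MG.mem_cut]
  rcases h with ⟨h1, h2⟩ | ⟨h1, h2⟩ <;> rw [h1, h2]
  tauto

theorem joins_self (e : E) : G.Joins e (G.s e) (G.t e) := Or.inl ⟨rfl, rfl⟩

theorem Joins.map {V' : Type} [Fintype V'] (π : V → V') {e : E} {a b : V}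
    (h : G.Joins e a b) : (G.map π).Joins e (π a) (π b) := by
  rcases h with ⟨h1, h2⟩ | ⟨h1, h2⟩
  · exact Or.inl ⟨congrArg π h1, congrArg π h2⟩
  · exact Or.inr ⟨congrArg π h1, congrArg π h2⟩

theorem exists_joins_of_mem_cut {X : Set V} {e : E} (h : e ∈ G.cut X) :
    ∃ a b, G.Joins e a b ∧ a ∈ X ∧ b ∉ X := by
  rw [mem_cut] at h
  by_cases hs : G.s e ∈ X
  · exact ⟨_, _, joins_self e, hs, by tauto⟩
  · exact ⟨_, _, (joins_self e).symm, by tauto, hs⟩

theorem Joins.ne {e : E} {a b : V} (h : G.Joins e a b) (hab : a ≠ b) : G.s e ≠ G.t e := by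
  rcases h with ⟨h1, h2⟩ | ⟨h1, h2⟩ <;> rw [h1, h2]
  · exact hab
  · exact hab.symm

theorem Joins.unique {e : E} {a b c : V} (h : G.Joins e a b) (h' : G.Joins e a c) : b = c := by
  rcases h with ⟨h1, h2⟩ | ⟨h1, h2⟩ <;> rcases h' with ⟨h3, h4⟩ | ⟨h3, h4⟩
  · exact h2.symm.trans h4
  · rw [← h2, ← h3, h4, h1]
  · rw [← h1, ← h4, h3, h2]
  · exact h1.symm.trans h3

theorem Triv.eq {X : Set V} (h : G.Triv X) : ∃ w, ∀ e a b, G.Joins e a b → a ≠ b → a ∈ X → a = w := by
  obtain ⟨w, hw⟩ := h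
  refine ⟨w, fun e a b hj hab ha => ?_⟩
  have := hw e (hj.ne hab)
  rcases hj with ⟨h1, h2⟩ | ⟨h1, h2⟩
  · rw [h1] at this; exact this.1 ha
  · rw [h2] at this; exact this.2 ha

theorem not_triv {X : Set V} {e f : E} {a b c d : V} (h1 : G.Joins e a b) (hab : a ≠ b)
    (h2 : G.Joins f c d) (hcd : c ≠ d) (ha : a ∈ X) (hc : c ∈ X) (hac : a ≠ c) : ¬ G.Triv X := by
  intro h
  obtain ⟨w, hw⟩ := h.eq
  exact hac ((hw e a b h1 hab ha).trans (hw f c d h2 hcd hc).symm)

theorem Triv.loc {X : Set V} (h : G.Triv X) {φ : E → K} (h0 : ∀ e, φ e ≠ 0)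
    (hs : ∑ e ∈ G.cut X, φ e = 0) : G.Loc X φ := by
  obtain ⟨w, hw⟩ := h.eq
  have hz : ∀ v ∈ X, v ≠ w → G.df φ v = 0 := by
    intro v hv hvw
    apply sum_eq_zero
    intro e he
    obtain ⟨a, b, hj, ha, hb⟩ := exists_joins_of_mem_cut he
    rw [Set.mem_singleton_iff] at ha hb
    subst ha
    exact absurd (hw e a b hj (Ne.symm hb) hv) hvw
  refine ⟨h0, fun v hv => ?_⟩
  by_cases hvw : v = w
  · subst hvw
    rw [← sum_cut_eq_one K.add_self hv hz, hs]
  · exact hz v hv hvw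

theorem Triv.cut_eq {X : Set V} (h : G.Triv X) {e : E} {a b : V} (hj : G.Joins e a b)
    (hab : a ≠ b) (ha : a ∈ X) : G.cut X = G.cut {a} := by
  obtain ⟨w, hw⟩ := h.eq
  have haw := hw e a b hj hab ha
  subst haw
  ext f
  constructor
  · intro hf
    obtain ⟨c, d, hj', hc, hd⟩ := exists_joins_of_mem_cut hf
    have hcd : c ≠ d := fun h => hd (h ▸ hc)
    have := hw f c d hj' hcd hc
    subst this
    rw [hj'.mem_cut]
    simp [hcd.symm]
  · intro hf
    obtain ⟨c, d, hj', hc, hd⟩ := exists_joins_of_mem_cut hf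
    rw [Set.mem_singleton_iff] at hc hd
    subst hc
    rw [hj'.mem_cut]
    intro h
    exact hd (hw f d c hj'.symm hd (h.mp ha))

theorem E4.three_le (h : G.E4) {X : Set V} {e f : E} {a b c d : V} (h1 : G.Joins e a b)
    (hab : a ≠ b) (h2 : G.Joins f c d) (hcd : c ≠ d) (ha : a ∈ X) (hc : c ∉ X) : 3 ≤ G.d X := by
  by_contra hlt
  have h0 : G.d X = 0 := by
    have := h.1 X
    omega
  have hcut : G.cut X = ∅ := card_eq_zero.mp h0
  rcases h.2 X (by omega) with ht | ht
  · have := ht.cut_eq h1 hab ha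
    have h3 : e ∈ G.cut {a} := by rw [h1.mem_cut]; simp [hab.symm]
    rw [← this, hcut] at h3
    simp at h3
  · have := ht.cut_eq h2 hcd hc
    have h3 : f ∈ G.cut {c} := by rw [h2.mem_cut]; simp [hcd.symm]
    rw [← this, cut_compl, hcut] at h3
    simp at h3

theorem Loc.aut {A : Set V} {φ : E → K} (h : G.Loc A φ) {σ : K → K} (hσ : GoodAut σ) :
    G.Loc A (fun e => σ (φ e)) := by
  refine ⟨fun e => hσ.2 _ (h.1 e), fun v hv => ?_⟩
  have h0 : σ 0 = 0 := by
    have := hσ.1 0 0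
    rw [add_zero] at this
    rw [this, K.add_self]
  have := map_sum (AddMonoidHom.mk' σ hσ.1) φ (G.cut {v})
  simp only [AddMonoidHom.mk'_apply] at this
  unfold df
  rw [← this]
  have h2 := h.2 v hv
  unfold df at h2
  rw [h2, h0]

theorem loc_glue {A B : Set V} {φ ψ : E → K} (hφ : G.Loc A φ) (hψ : G.Loc B ψ)
    (hAB : Disjoint A B) (h : ∀ e ∈ G.cut A, e ∈ G.cut B → φ e = ψ e) :
    G.Loc (A ∪ B) (fun e => if G.s e ∈ A ∨ G.t e ∈ A then φ e else ψ e) := by
  constructor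
  · intro e
    dsimp only
    split_ifs
    · exact hφ.1 e
    · exact hψ.1 e
  · rintro v (hv | hv)
    · rw [← hφ.2 v hv]
      apply df_congr
      intro e he
      rw [mem_cut_single] at he
      rw [if_pos]
      rcases he.2 with h | h
      · exact Or.inl (h ▸ hv)
      · exact Or.inr (h ▸ hv)
    · rw [← hψ.2 v hv]
      apply df_congr
      intro e he
      rw [mem_cut_single] at he
      have hd := Set.disjoint_left.mp hAB
      split_ifs with h'
      · apply h
        · rw [mem_cut]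
          rcases he.2 with h2 | h2
          · have : G.s e ∉ A := fun h3 => hd h3 (h2 ▸ hv)
            tauto
          · have : G.t e ∉ A := fun h3 => hd h3 (h2 ▸ hv)
            tauto
        · rw [mem_cut]
          rcases he.2 with h2 | h2
          · have h4 : G.s e ∈ B := h2 ▸ hv
            have : G.s e ∉ A := fun h3 => hd h3 h4
            have : G.t e ∉ B := hd (by tauto)
            tauto
          · have h4 : G.t e ∈ B := h2 ▸ hv
            have : G.t e ∉ A := fun h3 => hd h3 h4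
            have : G.s e ∉ B := hd (by tauto)
            tauto
      · rfl

theorem col_of_two {A : Set V} {φ ψ : E → K} (hφ : G.Loc A φ) (hψ : G.Loc Aᶜ ψ)
    (h : ∀ e ∈ G.cut A, φ e = ψ e) : G.Col := by
  have := loc_glue hφ hψ disjoint_compl_right (fun e he _ => h e he)
  rw [Set.union_compl_self] at this
  exact ⟨_, this⟩

end MG

end

end Pool.Agent.Lib.MP_aa6b05_co
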