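import Pool.Agent.Lib.MP_aa6b05_co.N16Data

set_option maxRecDepth 100000

namespace Pool.Agent.Lib.MP_aa6b05_co.S.N16

def L2 : List T7 := [⟨11,5,0,3782592595000653915819240322646236036310590537978761347180898684679037341598819866666753461104629795952956663373173201,2047,1151,31⟩]

theorem c2 : allL (search 16 exB lf orcF 40) L2 = true := by decide +kernel

def L3 : List T7 := [⟨10,5,0,146783911440452473032449110904364468607459697556963574072812610444231081863563527170591779736453568538443088,1023,31,31⟩]

theorem c3 : allL (search 16 exC lf orcF 40) L3 = true := by decide +kernel


end Pool.Agent.Lib.MP_aa6b05_co.S.N16
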