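import Pool.Agent.Lib.MP_aa6b05_co.N16Data

set_option maxRecDepth 100000

namespace Pool.Agent.Lib.MP_aa6b05_co.S.N16

def L4 : List T7 := [⟨6,0,0,458319093592644945954036519782786180413817333929452288854282684047689,63,63,0⟩]

theorem c4 : allL (search 16 exH lf orcF 40) L4 = true := by decide +kernel

def L5 : List T7 := [⟨1,0,0,0,0,0,0⟩]

theorem c5 : allL (search 16 exS lf orcF 40) L5 = true := by decide +kernel


end Pool.Agent.Lib.MP_aa6b05_co.S.N16
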