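import Pool.Agent.Lib.MP_aa6b05_co.N16C0
import Pool.Agent.Lib.MP_aa6b05_co.N16C1
import Pool.Agent.Lib.MP_aa6b05_co.N16C2

set_option maxRecDepth 100000

namespace Pool.Agent.Lib.MP_aa6b05_co.S.N16

theorem da : Done 16 exA lf (bld 10 5 eA) :=
  ⟨⟨10,5,0,146783911440452473048363454469477641159882802671057122849744585200884721547883928917258086687900098799120611,1023,191,31⟩, [L0, L1], 4, 40, by decide +kernel, by decide +kernel, by
    simp only [List.forall_mem_cons, List.not_mem_nil, false_imp_iff, implies_true, and_true]
    exact ⟨c0, c1⟩⟩

theorem db : Done 16 exB lf (bld 11 5 eB) :=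
  ⟨⟨11,5,0,3782592595000653915819240322646236036310590537978761347180898684679037341598819866666753461104629795952956663373173201,2047,1151,31⟩, [L2], 0, 40, by decide +kernel, by decide +kernel, by
    simp only [List.forall_mem_cons, List.not_mem_nil, false_imp_iff, implies_true, and_true]
    exact c2⟩

theorem dc : Done 16 exC lf (bld 10 5 e10) :=
  ⟨⟨10,5,0,146783911440452473032449110904364468607459697556963574072812610444231081863563527170591779736453568538443088,1023,31,31⟩, [L3], 0, 40, by decide +kernel, by decide +kernel, by
    simp only [List.forall_mem_cons, List.not_mem_nil, false_imp_iff, implies_true, and_true]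
    exact c3⟩

theorem dh : Done 16 exH lf (bld 6 0 e6) :=
  ⟨⟨6,0,0,458319093592644945954036519782786180413817333929452288854282684047689,63,63,0⟩, [L4], 0, 40, by decide +kernel, by decide +kernel, by
    simp only [List.forall_mem_cons, List.not_mem_nil, false_imp_iff, implies_true, and_true]
    exact c4⟩

theorem ds : Done 16 exS lf (bld 1 0 []) :=
  ⟨⟨1,0,0,0,0,0,0⟩, [L5], 0, 40, by decide +kernel, by decide +kernel, by
    simp only [List.forall_mem_cons, List.not_mem_nil, false_imp_iff, implies_true, and_true]
    exact c5⟩

theorem all : Fin5 16 lf :=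
  ⟨⟨⟨5,0,0,56493915647710159624542986842548219846795480124537126228287,31,31,0⟩, ⟨10,5,0,146783911440452473032449110904364468607459697556963574072812610444231081863563527170591779736453568538443088,1023,31,31⟩, by decide +kernel, by decide +kernel, by decide +kernel⟩, da, db, dc, dh, ds⟩

end Pool.Agent.Lib.MP_aa6b05_co.S.N16
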