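import Pool.Agent.Lib.MP_aa6b05_co.Search

namespace Pool.Agent.Lib.MP_aa6b05_co.S

structure T7 where
  k : Nat
  i : Nat
  L : Nat
  A : Nat
  D1 : Nat
  D2 : Nat
  D3 : Nat

structure T4 where
  A : Nat
  p : Nat
  a : Nat
  b : Nat

noncomputable section

def exA (_A _i B : Nat) : Nat := B
def exB (_A i B : Nat) : Nat := cond (tb 992 i) (Nat.lor B 992) B
def nx (i : Nat) : Nat := cond (Nat.beq i 9) 5 (Nat.succ i)
def pv (i : Nat) : Nat := cond (Nat.beq i 5) 9 (Nat.pred i)
def exC (A i B : Nat) : Nat :=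
  cond (tb 992 i) (Nat.lor (Nat.lor B 992) (Nat.lor (row A (nx i)) (row A (pv i)))) B
def exH (A _i B : Nat) : Nat := expand A 32 B B
def exS (A _i B : Nat) : Nat := frc (expand A 32 B B) fun C => expand A 32 C C
def dig (c i : Nat) : Nat := Nat.land (Nat.shiftRight c (Nat.mul 5 i)) 31
def allLt (f : Nat → Bool) (n : Nat) : Bool := Nat.rec true (fun m r => cond (f m) r false) n
def anyLt (f : Nat → Bool) (n : Nat) : Bool := Nat.rec false (fun m r => cond (f m) true r) n
def quoChk (m s t k A p a b : Nat) : Bool :=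
  cond (allLt (fun x => frc (dig a x) fun i => frc (dig b x) fun j =>
      Nat.blt i k && (Nat.blt j k && (tb (row A i) j && (Nat.beq (dig p i) (dig s x) &&
        Nat.beq (dig p j) (dig t x))))) m)
    (allLt (fun i => allBits (fun j => Nat.beq (dig p i) (dig p j) ||
      anyLt (fun x => (Nat.beq (dig a x) i && Nat.beq (dig b x) j) ||
        (Nat.beq (dig a x) j && Nat.beq (dig b x) i)) m) 32 (row A i)) k) false
def anyCert (m s t k A : Nat) (cs : List T4) : Bool :=
  frc (Nat.shiftRight A 64) fun B =>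
  List.rec false (fun c _ r => cond (Nat.beq c.A B) (quoChk m s t k A c.p c.a c.b) r) cs
def sP : Nat := 4835389144820709689376
def tP : Nat := 10928764961371803749441
def sE : Nat := 151104776079647312960
def tE : Nat := 46375999854926106722
def leafQ (cP cE : List T4) (k A : Nat) : Bool :=
  cond (colb k A) true (cond (Nat.beq k 10) (anyCert 15 sP tP k A cP)
    (cond (Nat.beq k 18) (anyCert 14 sE tE k A cE) false))
def eq7 (s : T7) : St := fun k i L A D1 D2 D3 =>
  cond (Nat.beq s.A A) (Nat.beq s.k k && (Nat.beq s.i i && (Nat.beq s.L L && (Nat.beq s.D1 D1 &&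
    (Nat.beq s.D2 D2 && Nat.beq s.D3 D3))))) false
def orcL (l : List T7) : St := fun k i L A D1 D2 D3 =>
  List.rec false (fun s _ r => cond (eq7 s k i L A D1 D2 D3) true r) l
def orcLL (l : List (List T7)) : St := fun k i L A D1 D2 D3 =>
  List.rec false (fun s _ r => cond (orcL s k i L A D1 D2 D3) true r) l
def orcF : St := fun _ _ _ _ _ _ _ => false
def run (f : St) (s : T7) : Bool := f s.k s.i s.L s.A s.D1 s.D2 s.D3
def allL (f : St) (l : List T7) : Bool := List.rec true (fun s _ r => cond (run f s) r false) l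
def bld (k i : Nat) (es : List (Nat × Nat)) : T7 :=
  List.rec ⟨k, i, 0, 0, 0, 0, 0⟩ (fun e _ r => ⟨k, i, 0, addE r.A e.1 e.2,
    Nat.lor r.D1 (Nat.lor (bit e.1) (bit e.2)),
    Nat.lor r.D2 (Nat.land r.D1 (Nat.lor (bit e.1) (bit e.2))),
    Nat.lor r.D3 (Nat.land r.D2 (Nat.lor (bit e.1) (bit e.2)))⟩) es
def okb (k : Nat) (es : List (Nat × Nat)) : Bool :=
  List.rec true (fun e es r => Nat.blt e.1 k && (Nat.blt e.2 k &&
    (!(tb (row (bld k 0 es).A e.1) e.2) && r))) es
def same (s t : T7) : Bool := run (eq7 s) t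

end

def e5 : List (Nat × Nat) := [(4,0),(3,4),(2,3),(1,2),(0,1)]
def e10 : List (Nat × Nat) := [(4,9),(3,8),(2,7),(1,6),(0,5),(4,0),(3,4),(2,3),(1,2),(0,1)]
def eA : List (Nat × Nat) := (5,7) :: e10
def eB : List (Nat × Nat) := (6,10) :: (5,10) :: e10
def e6 : List (Nat × Nat) := [(5,0),(4,5),(3,4),(2,3),(1,2),(0,1)]

def Done (N : Nat) (ex : Nat → Nat → Nat → Nat) (leaf : Nat → Nat → Bool) (s : T7) : Prop :=
  ∃ (r : T7) (LL : List (List T7)) (d f : Nat), same r s = true ∧
    run (search N ex leaf (orcLL LL) d) r = true ∧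
    ∀ L ∈ LL, allL (search N ex leaf orcF f) L = true

structure Fin5 (N : Nat) (leaf : Nat → Nat → Bool) : Prop where
  p : ∃ r s, same r (bld 5 0 e5) = true ∧ same s (bld 10 5 e10) = true ∧
    run (search N exA leaf (eq7 s) 5) r = true
  a : Done N exA leaf (bld 10 5 eA)
  b : Done N exB leaf (bld 11 5 eB)
  c : Done N exC leaf (bld 10 5 e10)
  h : Done N exH leaf (bld 6 0 e6)
  s : Done N exS leaf (bld 1 0 [])

theorem allLt_sound (f : Nat → Bool) (n : Nat) (h : allLt f n = true) : ∀ x < n, f x = true := by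
  induction n with
  | zero => intro x hx; omega
  | succ n ih =>
    change cond (f n) (allLt f n) false = true at h
    intro x hx
    cases hf : f n
    · rw [hf] at h; simp at h
    · rw [hf, cond_true] at h
      by_cases hxn : x = n
      · rw [hxn, hf]
      · exact ih h x (by omega)

theorem anyLt_sound (f : Nat → Bool) (n : Nat) (h : anyLt f n = true) : ∃ x < n, f x = true := by
  induction n with
  | zero => exact absurd h (by simp [anyLt])
  | succ n ih =>
    change cond (f n) true (anyLt f n) = true at h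
    cases hf : f n
    · rw [hf, cond_false] at h
      obtain ⟨x, hx, h⟩ := ih h
      exact ⟨x, by omega, h⟩
    · exact ⟨n, by omega, hf⟩

theorem quoChk_sound {m s t k A p a b : Nat} (h : quoChk m s t k A p a b = true) :
    (∀ x < m, dig a x < k ∧ dig b x < k ∧ kn A (dig a x) (dig b x) ∧ dig p (dig a x) = dig s x ∧
      dig p (dig b x) = dig t x) ∧
    ∀ i < k, ∀ j < 32, kn A i j → dig p i = dig p j ∨
      ∃ x < m, (dig a x = i ∧ dig b x = j) ∨ (dig a x = j ∧ dig b x = i) := by
  unfold quoChk at h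
  simp only [Bool.cond_eq_ite] at h
  split_ifs at h with h1
  constructor
  · intro x hx
    have := allLt_sound _ _ h1 x hx
    simp only [frc_eq, Bool.and_eq_true, Nat.blt_eq, Nat.beq_eq, tb_eq, testBit_row] at this
    tauto
  · intro i hi j hj hk
    have := allBits_sound _ _ _ (allLt_sound _ _ h i hi) j ((testBit_row _ _ _).mpr ⟨hj, hk⟩)
    simp only [Bool.or_eq_true, Nat.beq_eq] at this
    rcases this with h2 | h2
    · exact Or.inl h2
    · obtain ⟨x, hx, h3⟩ := anyLt_sound _ _ h2
      simp only [Bool.or_eq_true, Bool.and_eq_true, Nat.beq_eq] at h3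
      exact Or.inr ⟨x, hx, h3⟩

theorem anyCert_sound {m s t k A : Nat} {cs : List T4} (h : anyCert m s t k A cs = true) :
    ∃ p a b, quoChk m s t k A p a b = true := by
  unfold anyCert at h
  rw [frc_eq] at h
  induction cs with
  | nil => exact absurd h (by simp)
  | cons c cs ih =>
    change cond _ _ _ = true at h
    cases hc : Nat.beq c.A (Nat.shiftRight A 64)
    · rw [hc, cond_false] at h
      exact ih h
    · rw [hc, cond_true] at h
      exact ⟨_, _, _, h⟩

theorem eq7_sound {s : T7} {k i L A D1 D2 D3 : Nat} (h : eq7 s k i L A D1 D2 D3 = true) :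
    s = ⟨k, i, L, A, D1, D2, D3⟩ := by
  unfold eq7 at h
  simp only [Bool.cond_eq_ite] at h
  split_ifs at h with h1
  simp only [Bool.and_eq_true, Nat.beq_eq] at h h1
  obtain ⟨a, b, c, d, e, f⟩ := h
  cases s
  simp_all

theorem same_sound {s t : T7} (h : same s t = true) : s = t := eq7_sound h

theorem orcL_sound {l : List T7} {k i L A D1 D2 D3 : Nat} (h : orcL l k i L A D1 D2 D3 = true) :
    (⟨k, i, L, A, D1, D2, D3⟩ : T7) ∈ l := by
  induction l with
  | nil => exact absurd h (by simp [orcL])
  | cons s l ih =>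
    change cond (eq7 s k i L A D1 D2 D3) true (orcL l k i L A D1 D2 D3) = true at h
    cases hc : eq7 s k i L A D1 D2 D3
    · rw [hc, cond_false] at h
      exact List.mem_cons_of_mem _ (ih h)
    · rw [eq7_sound hc]
      exact List.mem_cons_self

theorem orcLL_sound {l : List (List T7)} {k i L A D1 D2 D3 : Nat}
    (h : orcLL l k i L A D1 D2 D3 = true) : ∃ x ∈ l, (⟨k, i, L, A, D1, D2, D3⟩ : T7) ∈ x := by
  induction l with
  | nil => exact absurd h (by simp [orcLL])
  | cons s l ih =>
    change cond (orcL s k i L A D1 D2 D3) true (orcLL l k i L A D1 D2 D3) = true at h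
    cases hc : orcL s k i L A D1 D2 D3
    · rw [hc, cond_false] at h
      obtain ⟨x, hx, h⟩ := ih h
      exact ⟨x, List.mem_cons_of_mem _ hx, h⟩
    · exact ⟨s, List.mem_cons_self, orcL_sound hc⟩

theorem allL_sound {f : St} {l : List T7} (h : allL f l = true) : ∀ s ∈ l, run f s = true := by
  induction l with
  | nil => simp
  | cons s l ih =>
    change cond (run f s) (allL f l) false = true at h
    cases hc : run f s
    · rw [hc] at h; simp at h
    · rw [hc, cond_true] at h
      intro x hx
      rcases List.mem_cons.mp hx with rfl | hx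
      · exact hc
      · exact ih h x hx

end Pool.Agent.Lib.MP_aa6b05_co.S
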