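import Pool.Agent.Lib.MP_aa6b05_co.Base
import Pool.Agent.Lib.MP_aa6b05_co.Modes

set_option linter.unusedSectionVars false
set_option linter.unusedVariables false
set_option linter.unusedSimpArgs false
set_option synthInstance.maxSize 4096

namespace Pool.Agent.Lib.MP_aa6b05_co

open Finset S

theorem Pet_simple : ∀ x y : Fin 15, Pet.Joins y (Pet.s x) (Pet.t x) → x = y := by
  unfold MG.Joins; decide +kernel

theorem Pe_simple : ∀ x y : Fin 14, Pe.Joins y (Pe.s x) (Pe.t x) → x = y := by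
  unfold MG.Joins; decide +kernel

theorem Pet_dig : ∀ x : Fin 15, dig sP x = Pet.s x ∧ dig tP x = Pet.t x := by decide +kernel

theorem Pe_dig : ∀ x : Fin 14, dig sE x = Pe.s x ∧ dig tE x = Pe.t x := by decide +kernel

open scoped Classical

noncomputable section

namespace MG

variable {V E : Type} [Fintype V] [Fintype E] {G : MG V E}
variable {l : ℕ → V} {k A D1 D2 D3 : ℕ}

theorem Inv.quo (hG : G.Cub) (h : G.Inv l k A D1 D2 D3) (hk : 0 < k)
    (h3 : ∀ i < k, D3.testBit i = true) {n m : ℕ} [NeZero n] (H : MG (Fin n) (Fin m))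
    (hH : ∀ x y, H.Joins y (H.s x) (H.t x) → x = y) {s t p a b : ℕ}
    (hd : ∀ x : Fin m, dig s x = H.s x ∧ dig t x = H.t x)
    (hc : quoChk m s t k A p a b = true) : G.Quo H := by
  obtain ⟨c1, c2⟩ := quoChk_sound hc
  have hx : ∀ x : Fin m, ∃ e, G.Joins e (l (dig a x)) (l (dig b x)) := by
    intro x
    obtain ⟨a1, a2, a3, -⟩ := c1 x x.2
    exact (h.adj _ (lt_of_lt_of_le a1 h.le) _ (lt_of_lt_of_le a2 h.le) a3).2.2.1.2
  choose ι hι using hx
  let π : V → Fin n := fun v => Fin.ofNat n (dig p (lab l k v))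
  have jn : ∀ x, (G.map π).Joins (ι x) (H.s x) (H.t x) := by
    intro x
    obtain ⟨a1, a2, a3, a4, a5⟩ := c1 x x.2
    have := (hι x).map π
    simp only [π, h.lab_eq a1, h.lab_eq a2, a4, a5, (hd x).1, (hd x).2, Fin.ofNat_val_eq_self] at this
    exact this
  refine ⟨π, ι, fun x y hxy => hH x y ?_, jn, fun e he => ?_⟩
  · have a := jn x
    have b := jn y
    rw [hxy] at a
    unfold Joins at *
    rcases a with ⟨a1, a2⟩ | ⟨a1, a2⟩ <;> rcases b with ⟨b1, b2⟩ | ⟨b1, b2⟩ <;>
      rw [← a1, ← a2, ← b1, ← b2] <;> simp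
  · by_cases hst : G.s e = G.t e
    · rw [hst]
    · obtain ⟨i, hi, h1⟩ := h.all hG hk h3 ((joins_self e).ni hst)
      obtain ⟨j, hj, h2, h4⟩ := h.sat hG hi (h3 i hi) (w := G.t e)
        (by rw [h1]; exact ⟨hst, e, joins_self e⟩)
      rcases c2 i hi j (lt_of_lt_of_le hj h.le) h2 with h5 | ⟨x, hx, h5⟩
      · simp only [π, ← h1, ← h4, h.lab_eq hi, h.lab_eq hj, h5]
      · exfalso
        have h6 := hι ⟨x, hx⟩
        have h7 : G.Joins (ι ⟨x, hx⟩) (G.s e) (G.t e) := by
          rcases h5 with ⟨a, b⟩ | ⟨a, b⟩ <;> simp only [a, b, h1, h4] at h6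
          · exact h6
          · exact h6.symm
        exact hG.np _ _ _ _ (he _) hst h7 (joins_self e)

def Gd (G : MG V E) : Prop := G.Col ∨ G.Quo Pet ∨ (G.oc Set.univ = 18 ∧ G.Quo Pe)

theorem leafQ_sound (hG : G.Cub) (hoc : G.oc Set.univ ≤ 18) (cP cE : List T4) :
    ∀ k A D1 D2 D3 l, leafQ cP cE k A = true → G.Inv l k A D1 D2 D3 → 0 < k →
      (∀ i < k, D3.testBit i = true) → G.Gd := by
  intro k A D1 D2 D3 l h hI hk h3
  unfold leafQ at h
  simp only [Bool.cond_eq_ite] at h
  split_ifs at h with h1 h2 h4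
  · exact Or.inl (hI.col hG hk h3 h1)
  · obtain ⟨p, a, b, h⟩ := anyCert_sound h
    exact Or.inr (Or.inl (hI.quo hG hk h3 Pet Pet_simple Pet_dig h))
  · obtain ⟨p, a, b, h⟩ := anyCert_sound h
    have := hI.k_le hG
    have := Nat.eq_of_beq_eq_true h4
    exact Or.inr (Or.inr ⟨by omega, hI.quo hG hk h3 Pe Pe_simple Pe_dig h⟩)

structure Conf (G : MG V E) (l : ℕ → V) (k : ℕ) (es : List (ℕ × ℕ)) : Prop where
  inj : ∀ i < k, ∀ j < k, l i = l j → i = j
  ni : ∀ i < k, G.NI (l i)
  adj : ∀ p ∈ es, G.Adj (l p.1) (l p.2)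

theorem bld_i (k i : ℕ) (es : List (ℕ × ℕ)) : (bld k i es).A = (bld k 0 es).A := by
  induction es with
  | nil => rfl
  | cons e es ih =>
    change addE (bld k i es).A e.1 e.2 = addE (bld k 0 es).A e.1 e.2
    rw [ih]

theorem Conf.inv {es : List (ℕ × ℕ)} (h : G.Conf l k es) (hk : k ≤ 32) (i : ℕ)
    (ho : okb k es = true) :
    G.Inv l k (bld k i es).A (bld k i es).D1 (bld k i es).D2 (bld k i es).D3 := by
  induction es with
  | nil =>
    refine ⟨hk, h.inj, h.ni, ?_, ?_⟩
    · intro i _ j _ hkn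
      exact absurd hkn (by simp [kn, bld])
    · intro x _
      simp [deg, kn, bld]
  | cons e es ih =>
    change (Nat.blt e.1 k && (Nat.blt e.2 k &&
      (!(tb (row (bld k 0 es).A e.1) e.2) && okb k es))) = true at ho
    simp only [Bool.and_eq_true, Nat.blt_eq, Bool.not_eq_true', tb_eq] at ho
    obtain ⟨o1, o2, o3, o4⟩ := ho
    refine (ih ⟨h.inj, h.ni, fun p hp => h.adj p (List.mem_cons_of_mem _ hp)⟩ o4).add o1 o2
      (h.adj e List.mem_cons_self) fun hc => ?_
    rw [bld_i] at hc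
    rw [(testBit_row _ _ _).mpr ⟨by omega, hc⟩] at o3
    exact absurd o3 (by simp)

theorem root_sound {Hyp : (ℕ → V) → Prop} {k0 : ℕ} {Good : Prop} {f : St}
    (s3 : G.Sound Hyp k0 Good f)
    {i : ℕ} {es : List (ℕ × ℕ)} (h2 : run f (bld k i es) = true) (hc : G.Conf l k es)
    (ho : okb k es = true) (hH : Hyp l) (hk : k0 ≤ k) (hk' : k ≤ 32) (hi : i < k)
    (h3 : (bld k i es).D3.testBit i = false) : Good := by
  have e1 : (bld k i es).k = k := by cases es <;> rfl
  have e2 : (bld k i es).i = i := by cases es <;> rfl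
  have e3 : (bld k i es).L = 0 := by cases es <;> rfl
  unfold run at h2
  rw [e1, e2, e3] at h2
  exact s3 _ _ _ _ _ _ _ l h2 (hc.inv hk' i ho) hH hk hi h3 (by intro j _ hj; simp at hj)

theorem conf5 {a b c d e : V} (h1 : G.Adj a b) (h2 : G.Adj b c) (h3 : G.Adj c d) (h4 : G.Adj d e)
    (h5 : G.Adj e a) (n1 : a ≠ c) (n2 : a ≠ d) (n3 : b ≠ d) (n4 : b ≠ e) (n5 : c ≠ e) :
    G.Conf (fun i => [a, b, c, d, e].getD i a) 5 e5 := by
  have := h1.1
  have := h2.1
  have := h3.1
  have := h4.1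
  have := h5.1
  refine ⟨?_, ?_, ?_⟩
  · intro i hi j hj
    interval_cases i <;> interval_cases j <;> simp <;> tauto
  · intro i hi
    interval_cases i
    exacts [h1.ni, h2.ni, h3.ni, h4.ni, h5.ni]
  · intro p hp
    simp only [e5, List.mem_cons, List.not_mem_nil, or_false] at hp
    rcases hp with rfl | rfl | rfl | rfl | rfl <;> assumption

theorem done_sound (hG : G.Cub) {N : ℕ} (hN : N ≤ 31) (hoc : G.oc Set.univ ≤ N)
    {Hyp : (ℕ → V) → Prop} {k0 : ℕ} {Good : Prop} {leaf : ℕ → ℕ → Bool}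
    {ex : ℕ → ℕ → ℕ → ℕ}
    (hstab : ∀ l k w, k0 ≤ k → Hyp l → Hyp (Function.update l k w))
    (hleaf : ∀ k A D1 D2 D3 l, leaf k A = true → G.Inv l k A D1 D2 D3 → 0 < k →
      (∀ i < k, D3.testBit i = true) → Good)
    (hex : ∀ k A D1 D2 D3 l i B, G.Inv l k A D1 D2 D3 → Hyp l → k0 ≤ k → i < k →
      Near l A i 3 B → G.Forb l k A i (ex A i B))
    {i : ℕ} {es : List (ℕ × ℕ)} (hd : Done N ex leaf (bld k i es)) (hc : G.Conf l k es)
    (ho : okb k es = true) (hH : Hyp l) (hk : k0 ≤ k) (hk' : k ≤ 32) (hi : i < k)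
    (h3 : (bld k i es).D3.testBit i = false) : Good := by
  obtain ⟨r, LL, d, f, h1, h2, h4⟩ := hd
  have s0 : G.Sound Hyp k0 Good orcF := by
    intro k i L A D1 D2 D3 l h
    exact absurd h (by simp [orcF])
  have s1 := search_sound hG hN hoc hstab hleaf hex s0 f
  have s2 : G.Sound Hyp k0 Good (orcLL LL) := by
    intro k i L A D1 D2 D3 l h
    obtain ⟨x, hx, h5⟩ := orcLL_sound h
    exact s1 k i L A D1 D2 D3 l (allL_sound (h4 x hx) _ h5)
  have s3 := search_sound hG hN hoc hstab hleaf hex s2 d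
  rw [same_sound h1] at h2
  exact root_sound s3 h2 hc ho hH hk hk' hi h3

theorem Forb.lor {i B C : ℕ} (h1 : G.Forb l k A i B) (h2 : G.Forb l k A i C) :
    G.Forb l k A i (Nat.lor B C) := by
  intro j hj hb
  rw [testBit_lor, Bool.or_eq_true] at hb
  rcases hb with hb | hb
  · exact h1 j hj hb
  · exact h2 j hj hb

theorem tb992 : ∀ i, (992 : ℕ).testBit i = true → 5 ≤ i ∧ i < 10 := by
  intro i h
  by_cases hi : i < 10
  · revert h; revert i; decide
  · have : (992 : ℕ).testBit i = false := Nat.testBit_lt_two_pow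
      (lt_of_lt_of_le (by norm_num) (Nat.pow_le_pow_right (by norm_num) (not_lt.mp hi)))
    rw [this] at h
    exact absurd h (by simp)

def NoCh (G : MG V E) (l : ℕ → V) : Prop :=
  ∀ i j, 5 ≤ i → i < 10 → 5 ≤ j → j < 10 → ¬ G.Adj (l i) (l j)

def NoCo (G : MG V E) (l : ℕ → V) : Prop :=
  ∀ i w, 5 ≤ i → i < 10 → G.Adj (l i) w → ¬ G.Adj (l (nx i)) w

theorem nx_lt : ∀ i < 10, 5 ≤ i → nx i < 10 ∧ pv i < 10 ∧ 5 ≤ pv i ∧ nx (pv i) = i := by
  decide +kernel

theorem NoCh.stab (l : ℕ → V) (k : ℕ) (w : V) (hk : 10 ≤ k) (h : G.NoCh l) :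
    G.NoCh (Function.update l k w) := by
  intro i j a b c d
  rw [Function.update_of_ne (by omega), Function.update_of_ne (by omega)]
  exact h i j a b c d

theorem NoCo.stab (l : ℕ → V) (k : ℕ) (w : V) (hk : 10 ≤ k) (h : G.NoCo l) :
    G.NoCo (Function.update l k w) := by
  intro i x a b
  have := nx_lt i b a
  rw [Function.update_of_ne (by omega), Function.update_of_ne (by omega)]
  exact h i x a b

theorem NoCh.forb (h : G.NoCh l) {i : ℕ} (hi : (992 : ℕ).testBit i = true) : G.Forb l k A i 992 := by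
  intro j _ hj ha
  have := tb992 i hi
  have := tb992 j hj
  exact absurd ha (h i j (by omega) (by omega) (by omega) (by omega))

def rot (i : ℕ) : ℕ := if i = 4 then 0 else if i = 9 then 5 else if i < 9 then i + 1 else i

theorem Conf.rot (h : G.Conf l 10 e10) : G.Conf (l ∘ rot) 10 e10 := by
  have r1 : ∀ i < 10, MG.rot i < 10 := by decide
  have r2 : ∀ i < 10, ∀ j < 10, MG.rot i = MG.rot j → i = j := by decide
  have r3 : ∀ p ∈ e10, (MG.rot p.1, MG.rot p.2) ∈ e10 := by decide
  exact ⟨fun i hi j hj hij => r2 i hi j hj (h.inj _ (r1 i hi) _ (r1 j hj) hij),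
    fun i hi => h.ni _ (r1 i hi), fun p hp => h.adj _ (r3 p hp)⟩

theorem NoCh.rot (h : G.NoCh l) : G.NoCh (l ∘ rot) := by
  have r1 : ∀ i < 10, 5 ≤ i → MG.rot i < 10 ∧ 5 ≤ MG.rot i := by decide
  intro i j a b c d
  exact h _ _ (r1 i b a).2 (r1 i b a).1 (r1 j d c).2 (r1 j d c).1

section main

variable (hG : G.Cub) {N : ℕ} (hN : N ≤ 18) (hoc : G.oc Set.univ ≤ N) {cP cE : List T4}
  (hF : Fin5 N (leafQ cP cE))
include hG hN hoc hF

theorem modeA (h : G.Conf l 10 e10) (ha : G.Adj (l 5) (l 7)) : G.Gd := by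
  refine done_sound hG (by omega) hoc (Hyp := fun _ => True) (k0 := 0) (fun _ _ _ _ _ => trivial)
    (leafQ_sound hG (by omega) cP cE) ?_ hF.a (l := l) ⟨h.inj, h.ni, ?_⟩ (by decide +kernel) trivial
    (by omega) (by omega) (by omega) (by decide +kernel)
  · intro k A D1 D2 D3 l i B hI _ _ hi hB
    exact hI.forb_of_near hG hi hB (by omega) (by omega) (by omega)
  · intro p hp
    rcases List.mem_cons.mp hp with rfl | hp
    · exact ha
    · exact h.adj p hp

theorem modeB (h : G.Conf l 10 e10) (hc : G.NoCh l) {w : V} (h5 : G.Adj (l 5) w)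
    (h6 : G.Adj (l 6) w) : G.Gd := by
  have a01 := h.adj (0, 1) (by decide)
  have a12 := h.adj (1, 2) (by decide)
  have a23 := h.adj (2, 3) (by decide)
  have a40 := h.adj (4, 0) (by decide)
  have a05 := h.adj (0, 5) (by decide)
  have a16 := h.adj (1, 6) (by decide)
  dsimp only at a01 a12 a23 a40 a05 a16
  have hn : ∀ j < 10, l j ≠ w := by
    intro j hj hw
    subst hw
    by_cases h' : 5 ≤ j
    · exact hc 5 j (by omega) (by omega) h' hj h5
    · have : j = 0 ∨ j = 1 ∨ j = 2 ∨ j = 3 ∨ j = 4 := by omega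
      rcases this with rfl | rfl | rfl | rfl | rfl
      · exact hG.no2 a01 a16 h6
      · exact hG.no2 a01.symm a05 h5
      · exact hG.no2 a12.symm a16 h6
      · refine hG.no3' a23.symm a12.symm a16 h6 ?_ ?_
        · intro h'; have := h.inj _ (by omega) _ (by omega) h'; omega
        · intro h'; have := h.inj _ (by omega) _ (by omega) h'; omega
      · exact hG.no2 a40 a05 h5
  have up : ∀ j < 10, Function.update l 10 w j = l j := fun j hj =>
    Function.update_of_ne (by omega) _ _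
  refine done_sound hG (by omega) hoc (Hyp := G.NoCh) (k0 := 10) NoCh.stab
    (leafQ_sound hG (by omega) cP cE) ?_ hF.b (l := Function.update l 10 w) ⟨?_, ?_, ?_⟩
    (by decide +kernel) (NoCh.stab l 10 w le_rfl hc) (by omega) (by omega) (by omega) (by decide +kernel)
  · intro k A D1 D2 D3 l i B hI hH _ hi hB
    have := hI.forb_of_near hG hi hB (by omega) (by omega) (by omega)
    unfold exB
    rw [tb_eq]
    cases h9 : Nat.testBit 992 i
    · exact this
    · exact this.lor (hH.forb h9)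
  · intro i hi j hj hij
    by_cases a : i = 10 <;> by_cases b : j = 10
    · omega
    · rw [a, Function.update_self, up j (by omega)] at hij
      exact absurd hij.symm (hn j (by omega))
    · rw [b, Function.update_self, up i (by omega)] at hij
      exact absurd hij (hn i (by omega))
    · rw [up i (by omega), up j (by omega)] at hij
      exact h.inj i (by omega) j (by omega) hij
  · intro i hi
    by_cases a : i = 10
    · rw [a, Function.update_self]; exact h5.symm.ni
    · rw [up i (by omega)]; exact h.ni i (by omega)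
  · intro p hp
    rcases List.mem_cons.mp hp with rfl | hp
    · rw [up _ (by omega), Function.update_self]; exact h6
    rcases List.mem_cons.mp hp with rfl | hp
    · rw [up _ (by omega), Function.update_self]; exact h5
    · have : ∀ p ∈ e10, p.1 < 10 ∧ p.2 < 10 := by decide
      rw [up _ (this p hp).1, up _ (this p hp).2]
      exact h.adj p hp

theorem modeC (h : G.Conf l 10 e10) (hc : G.NoCh l) (ho : G.NoCo l) : G.Gd := by
  refine done_sound hG (by omega) hoc (Hyp := fun l => G.NoCh l ∧ G.NoCo l) (k0 := 10)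
    (fun l k w hk h => ⟨NoCh.stab l k w hk h.1, NoCo.stab l k w hk h.2⟩)
    (leafQ_sound hG (by omega) cP cE) ?_ hF.c h (by decide +kernel) ⟨hc, ho⟩
    (by omega) (by omega) (by omega) (by decide +kernel)
  intro k A D1 D2 D3 l i B hI hH _ hi hB
  have := hI.forb_of_near hG hi hB (by omega) (by omega) (by omega)
  unfold exC
  rw [tb_eq]
  cases h9 : Nat.testBit 992 i
  · exact this
  · obtain ⟨b1, b2⟩ := tb992 i h9
    obtain ⟨c1, c2, c3, c4⟩ := nx_lt i b2 b1
    refine (this.lor (hH.1.forb h9)).lor (Forb.lor ?_ ?_)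
    · intro j hj hb ha
      rw [testBit_row] at hb
      exact absurd (hI.adj _ (by omega) _ hb.1 hb.2).2.2.1 (hH.2 i _ b1 b2 ha)
    · intro j hj hb ha
      rw [testBit_row] at hb
      have := hH.2 (pv i) _ c3 c2 (hI.adj _ (by omega) _ hb.1 hb.2).2.2.1
      rw [c4] at this
      exact absurd ha this

theorem modeP (h : G.Conf l 10 e10) : G.Gd := by
  by_contra hn
  have hA : ∀ l : ℕ → V, G.Conf l 10 e10 → ¬ G.Adj (l 5) (l 7) ∧ ¬ G.Adj (l 5) (l 6) := by
    intro l h
    refine ⟨fun ha => hn (modeA hG hN hoc hF h ha), fun ha => ?_⟩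
    refine hG.no3' (h.adj (0, 5) (by decide)) ha (h.adj (1, 6) (by decide)).symm
      (h.adj (0, 1) (by decide)).symm ?_ ?_
    · intro h'; have := h.inj _ (by omega) _ (by omega) h'; omega
    · intro h'; have := h.inj _ (by omega) _ (by omega) h'; omega
  have hc : G.NoCh l := by
    obtain ⟨a0, b0⟩ := hA _ h
    obtain ⟨a1, b1⟩ := hA _ h.rot
    obtain ⟨a2, b2⟩ := hA _ h.rot.rot
    obtain ⟨a3, b3⟩ := hA _ h.rot.rot.rot
    obtain ⟨a4, b4⟩ := hA _ h.rot.rot.rot.rot
    simp only [Function.comp, rot] at a1 a2 a3 a4 b1 b2 b3 b4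
    norm_num at a1 a2 a3 a4 b1 b2 b3 b4
    intro i j i1 i2 j1 j2 ha
    have hs := ha.symm
    have hne := ha.1
    interval_cases i <;> interval_cases j <;> contradiction
  apply hn
  apply modeC hG hN hoc hF h hc
  intro i w i1 i2 h1 h2
  apply hn
  interval_cases i
  · exact modeB hG hN hoc hF h hc h1 h2
  · exact modeB hG hN hoc hF h.rot hc.rot h1 h2
  · exact modeB hG hN hoc hF h.rot.rot hc.rot.rot h1 h2
  · exact modeB hG hN hoc hF h.rot.rot.rot hc.rot.rot.rot h1 h2
  · exact modeB hG hN hoc hF h.rot.rot.rot.rot hc.rot.rot.rot.rot h1 h2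

theorem base_gd : G.Gd := by
  by_cases h0 : ∃ v, G.NI v
  swap
  · push Not at h0
    refine Or.inl ⟨fun _ => .k1, fun _ => (by decide : K.k1 ≠ 0), fun v _ => sum_eq_zero fun e he => ?_⟩
    obtain ⟨x, hj, hx⟩ := exists_other he
    exact absurd (hj.ni hx) (h0 v)
  by_cases h5 : G.NoPent
  swap
  · unfold NoPent at h5
    push Not at h5
    obtain ⟨a, b, c, d, e, h1, h2, h3, h4, h5, n1, n2, n3, n4, n5, -⟩ := h5
    obtain ⟨r, s, r1, r2, r3⟩ := hF.p
    have s0 : G.Sound (fun _ => True) 0 G.Gd (eq7 s) := by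
      intro k i L A D1 D2 D3 l h hI _ _ _ _ _
      have h6 := (eq7_sound h).symm.trans (same_sound r2)
      have e1 : k = 10 := congrArg T7.k h6
      have e2 : A = (bld 10 5 e10).A := congrArg T7.A h6
      subst e1 e2
      refine modeP hG hN hoc hF (l := l) ⟨hI.inj, hI.ni, fun p hp => ?_⟩
      have : ∀ p ∈ e10, p.1 < 32 ∧ p.2 < 32 ∧
        (bld 10 5 e10).A.testBit (32 * p.1 + p.2 + 64) = true := by decide +kernel
      obtain ⟨c1, c2, c3⟩ := this p hp
      exact (hI.adj _ c1 _ c2 c3).2.2.1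
    have s1 := search_sound hG (by omega) hoc (Hyp := fun _ => True) (k0 := 0) (ex := exA)
      (fun _ _ _ _ _ => trivial) (leafQ_sound hG (by omega) cP cE)
      (fun k A D1 D2 D3 l i B hI _ _ hi hB =>
        hI.forb_of_near hG hi hB (by omega) (by omega) (by omega)) s0 5
    rw [same_sound r1] at r3
    exact root_sound s1 r3 (conf5 h1 h2 h3 h4 h5 n1 n2 n3 n4 n5) (by decide +kernel) trivial
      (by omega) (by omega) (by omega) (by decide +kernel)
  by_cases h6 : G.NoHex
  swap
  · unfold NoHex at h6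
    push Not at h6
    obtain ⟨a, b, c, d, e, f, h1, h2, h3, h4, h5', h6, n1, n2, n3, n4, n5, n6, n7, n8, n9, -⟩ := h6
    refine done_sound hG (by omega) hoc (Hyp := fun _ => True) (k0 := 0) (fun _ _ _ _ _ => trivial)
      (leafQ_sound hG (by omega) cP cE) ?_ hF.h (l := fun i => [a, b, c, d, e, f].getD i a)
      ?_ (by decide +kernel) trivial (by omega) (by omega) (by omega) (by decide +kernel)
    · intro k A D1 D2 D3 l i B hI _ _ hi hB
      exact hI.forb_of_near hG hi (hB.expand (hB.mono (by omega)) 32) (by omega) (fun _ => h5)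
        (by omega)
    · have := h1.1
      have := h2.1
      have := h3.1
      have := h4.1
      have := h5'.1
      have := h6.1
      refine ⟨?_, ?_, ?_⟩
      · intro i hi j hj
        interval_cases i <;> interval_cases j <;> simp <;> tauto
      · intro i hi
        interval_cases i
        exacts [h1.ni, h2.ni, h3.ni, h4.ni, h5'.ni, h6.ni]
      · intro p hp
        simp only [e6, List.mem_cons, List.not_mem_nil, or_false] at hp
        rcases hp with rfl | rfl | rfl | rfl | rfl | rfl <;> assumption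
  obtain ⟨v, hv⟩ := h0
  refine done_sound hG (by omega) hoc (Hyp := fun _ => True) (k0 := 0) (fun _ _ _ _ _ => trivial)
    (leafQ_sound hG (by omega) cP cE) ?_ hF.s (l := fun _ => v)
    ⟨by omega, fun _ _ => hv, by simp⟩ (by decide +kernel) trivial (by omega) (by omega) (by omega)
    (by decide +kernel)
  intro k A D1 D2 D3 l i B hI _ _ hi hB
  have h4 := hB.expand (hB.mono (by omega)) 32
  unfold exS
  rw [frc_eq]
  exact hI.forb_of_near hG hi (h4.expand (h4.mono (by omega)) 32) (by omega) (fun _ => h5)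
    (fun _ => h6)

end main

end MG

end

end Pool.Agent.Lib.MP_aa6b05_co
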