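import Pool.Agent.Lib.MP_aa6b05_co.Glue
import Pool.Agent.Lib.MP_aa6b05_co.Roots
import Pool.Agent.Lib.MP_aa6b05_co.N16All

set_option linter.unusedSectionVars false
set_option linter.unusedVariables false
set_option linter.unusedSimpArgs false
set_option synthInstance.maxSize 4096

namespace Pool.Agent.Lib.MP_aa6b05_co

open Finset

def P0 (W : Type) : MG W (Fin 0) := ⟨Fin.elim0, Fin.elim0⟩

def oPair (i j k : Fin 5) : Bool := decide (k = i ∨ k = j)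

def oPath : Fin 5 → Fin 3 := ![1, 2, 2, 0, 0]

def PPath : MG (Fin 3) (Fin 2) := ⟨![0, 1], ![1, 2]⟩

theorem pair_h1 : ∀ i j : Fin 5, i ≠ j → ∀ b Z, pc (oPair i j) (P0 Bool) (fun _ => b) Z ≠ 1 := by
  decide +kernel

theorem pair_h2 : ∀ i j : Fin 5, i ≠ j → ∀ S Z, pc (oPair i j) (P0 Bool) S Z = 0 →
    ∀ i' j', i' ≠ j' → ∀ b, (∀ k, S k = b ↔ (k = i' ∨ k = j')) →
      (i' = i ∧ j' = j) ∨ (i' = j ∧ j' = i) := by decide +kernel

theorem pair_odd : ∀ i j : Fin 5, i ≠ j → oddc (oPair i j) (P0 Bool) = 1 := by decide +kernel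

theorem pair_col : ∀ i j : Fin 5, i ≠ j → ∀ x : Fin 5 → K,
    (∑ k, if oPair i j k = true then x k else 0) = 0 → x i = x j := by decide +kernel

theorem path_h1 : ∀ b Z, pc oPath PPath (fun _ => b) Z ≠ 1 := by decide +kernel

theorem path_h2 : ∀ S Z, pc oPath PPath S Z = 0 →
    ∀ i' j', i' ≠ j' → ∀ b, ¬ (∀ k, S k = b ↔ (k = i' ∨ k = j')) := by decide +kernel

theorem path_odd : oddc oPath PPath = 3 := by decide +kernel

theorem path_col : ∀ x : Fin 5 → K, PCol oPath PPath x → x 1 ≠ x 2 ∧ x 3 ≠ x 4 := by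
  unfold PCol
  decide +kernel

theorem GoodAut.inj {σ : K → K} (h : GoodAut σ) {x y : K} (hxy : σ x = σ y) : x = y := by
  by_contra hne
  have h1 : x + y ≠ 0 := fun h' => hne (K.eq_of_add_eq_zero h')
  apply h.2 _ h1
  rw [h.1, hxy, K.add_self]

theorem Pet_d (w : Fin 10) : Pet.d {w} = 3 := by
  rw [d_single_dg]
  revert w
  decide +kernel

theorem Pet_oc : Pet.oc Set.univ = 10 := by
  classical
  unfold MG.oc
  have : ∀ w : Fin 10, Odd (Pet.d {w}) := fun w => by rw [Pet_d]; decide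
  simp [this]

open scoped Classical

noncomputable section

namespace MG

variable {V E : Type} [Fintype V] [Fintype E] {G : MG V E}

theorem oc_even : Even (G.oc Set.univ) := by
  rw [← Nat.not_odd_iff_even, ← odd_d_iff]
  have : G.d Set.univ = 0 := by simp [d, cut]
  rw [this]
  decide

theorem base16 (hG : G.Cub) (hoc : G.oc Set.univ ≤ 16) (hc : ¬ G.Col) : G.Quo Pet := by
  rcases base_gd hG (by omega) hoc S.N16.all with h | h | h
  · exact absurd h hc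
  · exact h
  · omega

theorem t8 (hb : G.Bl) (hoc : G.oc Set.univ ≤ 9) : G.Col := by
  by_contra hc
  refine reduce2 (fun _ => False) 9 (fun _ _ h => h) ?_
    (fun _ _ _ _ _ _ _ _ _ _ _ _ _ _ _ _ _ h => h) G hb hoc hc
  intro V E _ _ G h4 hp ht hq hcu hoc hc
  obtain ⟨π, ι, h⟩ := base16 ⟨h4, hp, ht, hq, hcu⟩ (by omega) hc
  have := h.oc_le
  rw [Pet_oc] at this
  omega

variable {A : Set V} {ε : Fin 5 → E} {α : Fin 5 → V}

theorem Bad.symm {I : Type} {α : I → V} {i j : I} (h : G.Bad α i j) : G.Bad α j i :=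
  ⟨h.1.symm, h.1 ▸ h.2⟩

theorem Pole.pair_bl (h4 : G.E4) (h : G.Pole A ε α) (hA : ¬ G.Triv Aᶜ) {i j : Fin 5} (hij : i ≠ j)
    (hb : ¬ G.Bad α i j) : (G.glue A ε (oPair i j) (P0 Bool)).Bl := by
  refine h.bl5 h4 hA (pair_h1 i j hij) fun S Z h0 i' j' h1 b h2 h3 => hb ?_
  rcases pair_h2 i j hij S Z h0 i' j' h1 b h2 with ⟨rfl, rfl⟩ | ⟨rfl, rfl⟩
  · exact h3
  · exact h3.symm

theorem Pole.pair_loc (h : G.Pole A ε α) {i j : Fin 5} (hij : i ≠ j)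
    (hc : (G.glue A ε (oPair i j) (P0 Bool)).Col) : ∃ φ, G.Loc A φ ∧ φ (ε i) = φ (ε j) := by
  obtain ⟨φ, h1, ψ, -, h2⟩ := h.glue_loc hc
  refine ⟨φ, h1, pair_col i j hij (fun k => φ (ε k)) ?_⟩
  have := h2 true
  simpa [cons] using this

theorem Pole.pair (h4 : G.E4) (h : G.Pole A ε α) (hA : ¬ G.Triv Aᶜ) (hoc : G.oc A ≤ 8)
    {i j : Fin 5} (hij : i ≠ j) (hb : ¬ G.Bad α i j) : ∃ φ, G.Loc A φ ∧ φ (ε i) = φ (ε j) :=
  h.pair_loc hij (t8 (h.pair_bl h4 hA hij hb) (by rw [h.glue_oc, pair_odd i j hij]; omega))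

theorem Pole.sum0 (h : G.Pole A ε α) {φ : E → K} (hφ : G.Loc A φ) :
    φ (ε 0) + φ (ε 1) + φ (ε 2) + φ (ε 3) + φ (ε 4) = 0 := by
  have := hφ.sum_cut (X := A) le_rfl
  rw [h.cut_eq, sum_map, Fin.sum_univ_five] at this
  exact this

def Ty (G : MG V E) (A : Set V) (ε : Fin 5 → E) (b : Bool) : Prop :=
  ∃ φ, G.Loc A φ ∧ φ (ε 3) = .k1 ∧ φ (ε 4) = .k2 ∧ (φ (ε 1) = φ (ε 2) ↔ b = true)

theorem ty_of {φ : E → K} (hφ : G.Loc A φ) (h : φ (ε 3) ≠ φ (ε 4)) {b : Bool}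
    (hb : φ (ε 1) = φ (ε 2) ↔ b = true) : G.Ty A ε b := by
  obtain ⟨σ, h1, h2, h3⟩ := exists_aut_two _ _ .k1 .k2 (hφ.1 _) (hφ.1 _) h (by decide) (by decide)
    (by decide)
  exact ⟨_, hφ.aut h1, h2, h3, by rw [← hb]; exact ⟨h1.inj, fun h => by rw [h]⟩⟩

theorem K.five : ∀ a b c d e : K, a + b + c + d + e = 0 →
    (a ≠ 0 → b = c → d ≠ e) ∧ (c ≠ 0 → a = b → d ≠ e) ∧ (b ≠ 0 → a = c → d ≠ e) := by
  decide +kernel

theorem Pole.tyU (h4 : G.E4) (h : G.Pole A ε α) (hA : ¬ G.Triv Aᶜ) (hoc : G.oc A ≤ 8)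
    (hb : ¬ G.Bad α 1 2) : G.Ty A ε true := by
  obtain ⟨φ, h1, h2⟩ := h.pair h4 hA hoc (by decide) hb
  exact ty_of h1 ((K.five _ _ _ _ _ (h.sum0 h1)).1 (h1.1 _) h2) (by simp [h2])

theorem Pole.not_bad3 (h4 : G.E4) (h : G.Pole A ε α) {i j k : Fin 5} (hij : i ≠ j) (hik : i ≠ k)
    (hjk : j ≠ k) (h1 : G.Bad α i j) (h2 : G.Bad α i k) : False := by
  have d1 := h.d_sub' (Y := {α i}) (by simpa using h.mem i) (fun x => decide (α x = α i)) true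
    (by simp)
  have d2 := h.d_sub' (Y := A \ {α i}) Set.sdiff_subset (fun x => decide (α x = α i)) false
    (by simp [h.mem])
  rw [icut_diff] at d2
  have key : ∀ S : Fin 5 → Bool, ∀ i j k, i ≠ j → i ≠ k → j ≠ k → S i = true → S j = true →
      S k = true → 3 ≤ (∑ i, if S i = true then 1 else 0) ∧
      (∑ i, if S i = true then 1 else 0) + (∑ i, if S i = false then 1 else 0) = 5 := by
    decide +kernel
  have := key (fun x => decide (α x = α i)) i j k hij hik hjk (by simp) (by simp [h1.1])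
    (by simp [h2.1])
  have := h1.2
  have := h4.1 (A \ {α i})
  omega

theorem Pole.ne34 (h4 : G.E4) (h : G.Pole A ε α) (hA : ¬ G.Triv Aᶜ) (hoc : G.oc A ≤ 8) :
    ∃ φ, G.Loc A φ ∧ φ (ε 3) ≠ φ (ε 4) := by
  by_cases hb : G.Bad α 0 1
  · obtain ⟨φ, h1, h2⟩ := h.pair h4 hA hoc (i := 0) (j := 2) (by decide)
      (h.not_bad3 h4 (by decide) (by decide) (by decide) hb)
    exact ⟨φ, h1, (K.five _ _ _ _ _ (h.sum0 h1)).2.2 (h1.1 _) h2⟩
  · obtain ⟨φ, h1, h2⟩ := h.pair h4 hA hoc (by decide) hb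
    exact ⟨φ, h1, (K.five _ _ _ _ _ (h.sum0 h1)).2.1 (h1.1 _) h2⟩

theorem Pole.mem_cut_single {I : Type} [Fintype I] {ε : I → E} {α : I → V} (h : G.Pole A ε α)
    (i : I) : ε i ∈ G.cut {α i} := by
  obtain ⟨b, h1, h2⟩ := h.jn i
  rw [h1.mem_cut]
  have : b ≠ α i := fun h' => h2 (h' ▸ h.mem i)
  simp [this]

theorem Pole.bad_ne {I : Type} [Fintype I] {ε : I → E} {α : I → V} (h : G.Pole A ε α) {i j : I}
    (hij : i ≠ j) (hb : G.Bad α i j) {φ : E → K} (hφ : G.Loc A φ) : φ (ε i) ≠ φ (ε j) := by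
  intro he
  have h0 := hφ.2 _ (h.mem i)
  have m1 := h.mem_cut_single i
  have m2 := h.mem_cut_single j
  rw [← hb.1] at m2
  have hne : ε j ≠ ε i := fun h' => hij (h.inj h').symm
  have m3 : ε j ∈ (G.cut {α i}).erase (ε i) := mem_erase.mpr ⟨hne, m2⟩
  have hc : (((G.cut {α i}).erase (ε i)).erase (ε j)).card = 1 := by
    rw [card_erase_of_mem m3, card_erase_of_mem m1]
    have := hb.2
    unfold d at this
    omega
  obtain ⟨g, hg⟩ := card_eq_one.mp hc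
  unfold df at h0
  rw [← add_sum_erase _ _ m1, ← add_sum_erase _ _ m3, hg, sum_singleton, ← add_assoc, he,
    K.add_self, zero_add] at h0
  exact hφ.1 g h0

theorem Pole.tyW_bad (h4 : G.E4) (h : G.Pole A ε α) (hA : ¬ G.Triv Aᶜ) (hoc : G.oc A ≤ 8)
    (hb : G.Bad α 1 2) : G.Ty A ε false := by
  obtain ⟨φ, h1, h2⟩ := h.ne34 h4 hA hoc
  exact ty_of h1 h2 (by simpa using h.bad_ne (by decide) hb h1)

theorem Pole.tyW (h4 : G.E4) (h : G.Pole A ε α) (hA : ¬ G.Triv Aᶜ) (hoc : G.oc A ≤ 6) :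
    G.Ty A ε false := by
  have := t8 (h.bl5 h4 hA path_h1 fun S Z h0 i j hij b hk => absurd hk (path_h2 S Z h0 i j hij b))
    (by rw [h.glue_oc, path_odd]; omega)
  obtain ⟨φ, h1, h2⟩ := h.glue_loc this
  obtain ⟨h3, h5⟩ := path_col _ h2
  exact ty_of h1 h5 (by simpa using h3)

theorem E4.no_small (h4 : G.E4) {X : Set V} (hd : G.d X ≤ 3) (h1 : ¬ G.Triv X) (h2 : ¬ G.Triv Xᶜ) :
    False := (h4.2 X hd).elim h1 h2

theorem not_triv' {X : Set V} {a c : V} (ha : G.NI a) (hc : G.NI c) (haX : a ∈ X) (hcX : c ∈ X)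
    (hac : a ≠ c) : ¬ G.Triv X := fun h => hac (h.eq' ha hc haX hcX)

theorem d_remove {X : Set V} {u : V} (hu : u ∈ X) (h3 : G.d {u} = 3) {e f : E} (hef : e ≠ f)
    (e1 : e ∈ G.cut {u}) (e2 : e ∈ G.cut X) (f1 : f ∈ G.cut {u}) (f2 : f ∈ G.cut X) :
    G.d (X \ {u}) + 1 ≤ G.d X := by
  have h := d_insert (G := G) Xᶜ u (by simpa using hu)
  have e : insert u Xᶜ = (X \ {u})ᶜ := by
    ext z
    simp only [Set.mem_insert_iff, Set.mem_compl_iff, Set.mem_sdiff, Set.mem_singleton_iff]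
    tauto
  rw [e, d_compl, d_compl, cut_compl, h3] at h
  have : 2 ≤ (G.cut {u} ∩ G.cut X).card := by
    rw [← card_pair hef]
    apply card_le_card
    intro z hz
    simp only [mem_insert, mem_singleton] at hz
    rcases hz with rfl | rfl <;> simp [*]
  omega

variable {W F : Type} [Fintype W] [Fintype F] {H : MG W F} {π : V → W} {ι : F → E}

theorem QuoVia.ends (h : G.QuoVia H π ι) (k : F) :
    ∃ a b, G.Joins (ι k) a b ∧ π a = H.s k ∧ π b = H.t k := by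
  rcases h.jn k with ⟨a, b⟩ | ⟨a, b⟩
  · exact ⟨_, _, joins_self _, a, b⟩
  · exact ⟨_, _, (joins_self _).symm, b, a⟩

theorem QuoVia.not_triv (h : G.QuoVia H π ι) (k : F) (hk : H.s k ≠ H.t k) {X : Set V}
    (hs : ∀ z, π z = H.s k → z ∈ X) (ht : ∀ z, π z = H.t k → z ∈ X) : ¬ G.Triv X := by
  obtain ⟨a, b, h1, h2, h3⟩ := h.ends k
  have hab : a ≠ b := fun h' => hk (by rw [← h2, ← h3, h'])
  exact not_triv' (h1.ni hab) (h1.ni' hab) (hs a h2) (ht b h3) hab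

theorem QuoVia.triv (h4 : G.E4) (h : G.QuoVia H π ι) (Y : Set W) (hd : H.d Y ≤ 3) (k : F)
    (hk : H.s k ≠ H.t k) (hs : H.s k ∉ Y) (ht : H.t k ∉ Y) : G.Triv (π ⁻¹' Y) := by
  rcases h4.2 (π ⁻¹' Y) (by rw [h.d_eq]; exact hd) with h1 | h1
  · exact h1
  · exact absurd h1 (h.not_triv k hk (fun z hz => by simpa [hz] using hs)
      (fun z hz => by simpa [hz] using ht))

theorem QuoVia.pole (h : G.QuoVia H π ι) (Y : Set W) {I : Type} [Fintype I] (κ : I → F)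
    (hκ : Function.Injective κ) (hc : ∀ k, ¬ (H.s k ∈ Y ↔ H.t k ∈ Y) ↔ ∃ i, κ i = k) :
    ∃ α, G.Pole (π ⁻¹' Y) (fun i => ι (κ i)) α := by
  have : ∀ i, ∃ a b, G.Joins (ι (κ i)) a b ∧ a ∈ π ⁻¹' Y ∧ b ∉ π ⁻¹' Y := fun i =>
    exists_joins_of_mem_cut ((h.mem_cut Y _).mpr (MG.mem_cut.mpr ((hc _).mpr ⟨i, rfl⟩)))
  choose α β h1 h2 h3 using this
  refine ⟨α, h.inj.comp hκ, fun i => ⟨β i, h1 i, h3 i⟩, h2, fun e he => ?_⟩
  rw [h.cut_eq, mem_map] at he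
  obtain ⟨k, hk, rfl⟩ := he
  obtain ⟨i, rfl⟩ := (hc k).mp (MG.mem_cut.mp hk)
  exact ⟨i, rfl⟩

theorem QuoVia.odd_part (h : G.QuoVia H π ι) {Y : Set W} (hd : Odd (H.d Y)) :
    1 ≤ G.oc (π ⁻¹' Y) := oc_pos_of_odd (by rw [h.d_eq]; exact hd)

theorem Triv.d_eq {X : Set V} (h : G.Triv X) {v : V} (hv : G.NI v) (hX : v ∈ X) :
    G.d X = G.d {v} := by
  obtain ⟨e, b, h1, h2⟩ := hv
  unfold d
  rw [h.cut_eq h1 h2 hX]

end MG

end

end Pool.Agent.Lib.MP_aa6b05_co
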