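import Pool.Agent.Lib.MP_aa6b05_co.Quo

set_option linter.unusedSectionVars false
set_option linter.unusedVariables false
set_option linter.unusedSimpArgs false
set_option synthInstance.maxSize 4096

namespace Pool.Agent.Lib.MP_aa6b05_co

open Finset

/-- size of the pole part of a cut -/
def pc {I W F : Type} [Fintype I] [Fintype F] (o : I → W) (P : MG W F) (S : I → Bool)
    (Z : W → Bool) : ℕ :=
  (∑ i, if S i = Z (o i) then 0 else 1) + ∑ f, if Z (P.s f) = Z (P.t f) then 0 else 1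

/-- number of pole vertices of odd degree -/
def oddc {I W F : Type} [Fintype I] [Fintype F] [Fintype W] [DecidableEq W] (o : I → W)
    (P : MG W F) : ℕ :=
  (univ.filter (fun w => pc o P (fun _ => false) (fun z => decide (z = w)) % 2 = 1)).card

/-- conservation at the vertex `w` -/
def cons {W F : Type} [Fintype F] [DecidableEq W] (P : MG W F) (ψ : F → K) (w : W) : K :=
  ∑ f, ((if P.s f = w then ψ f else 0) + (if P.t f = w then ψ f else 0))

/-- the boundary values `x` extend to the pole -/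
def PCol {I W F : Type} [Fintype I] [Fintype F] [DecidableEq W] (o : I → W) (P : MG W F)
    (x : I → K) : Prop :=
  ∃ ψ : F → K, (∀ f, ψ f ≠ 0) ∧ ∀ w, (∑ i, if o i = w then x i else 0) + cons P ψ w = 0

/-- degree -/
def dg {W F : Type} [Fintype F] (P : MG W F) (Z : W → Bool) : ℕ :=
  ∑ f, if Z (P.s f) = Z (P.t f) then 0 else 1

theorem df_eq_cons {W F : Type} [Fintype F] [Fintype W] [DecidableEq W] (P : MG W F) (ψ : F → K)
    (w : W) : P.df ψ w = cons P ψ w := by
  classical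
  unfold MG.df MG.cut cons
  rw [sum_filter]
  apply sum_congr rfl
  intro e _
  by_cases a : P.s e = w <;> by_cases b : P.t e = w <;> simp [a, b, K.add_self]

theorem d_eq_dg {W F : Type} [Fintype F] [Fintype W] (P : MG W F) (Z : W → Bool) :
    P.d {w | Z w = true} = dg P Z := by
  classical
  rw [MG.d_eq_sum]
  apply sum_congr rfl
  intro e _
  simp only [Set.mem_ofPred_eq]
  by_cases a : Z (P.s e) = true <;> by_cases b : Z (P.t e) = true <;> simp [a, b]

theorem d_single_dg {W F : Type} [Fintype F] [Fintype W] [DecidableEq W] (P : MG W F) (w : W) :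
    P.d {w} = dg P (fun z => decide (z = w)) := by
  rw [← d_eq_dg]
  congr 1
  ext z
  simp

open scoped Classical

noncomputable section

namespace MG

variable {V E : Type} [Fintype V] [Fintype E] {G : MG V E}

structure Pole (G : MG V E) (A : Set V) {I : Type} (ε : I → E) (α : I → V) : Prop where
  inj : Function.Injective ε
  jn : ∀ i, ∃ b, G.Joins (ε i) (α i) b ∧ b ∉ A
  mem : ∀ i, α i ∈ A
  all : ∀ e ∈ G.cut A, ∃ i, ε i = e

def icut (G : MG V E) (A Y : Set V) : Finset E :=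
  univ.filter (fun e => G.s e ∈ A ∧ G.t e ∈ A ∧ ¬ (G.s e ∈ Y ↔ G.t e ∈ Y))

theorem icut_inter (A Y : Set V) : G.icut A (A ∩ Y) = G.icut A Y := by
  ext e
  simp only [icut, mem_filter, mem_univ, true_and, Set.mem_inter_iff]
  tauto

theorem icut_diff (A Y : Set V) : G.icut A (A \ Y) = G.icut A Y := by
  ext e
  simp only [icut, mem_filter, mem_univ, true_and, Set.mem_sdiff]
  tauto

variable {I : Type} [Fintype I] {A : Set V} {ε : I → E} {α : I → V}

theorem Pole.mem_cut (h : G.Pole A ε α) (i : I) : ε i ∈ G.cut A := by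
  obtain ⟨b, h1, h2⟩ := h.jn i
  rw [h1.mem_cut]
  simp [h.mem i, h2]

theorem Pole.cut_eq (h : G.Pole A ε α) : G.cut A = univ.map ⟨ε, h.inj⟩ := by
  ext e
  simp only [mem_map, mem_univ, true_and, Function.Embedding.coeFn_mk]
  exact ⟨h.all e, by rintro ⟨i, rfl⟩; exact h.mem_cut i⟩

theorem Pole.sum_all {M : Type} [AddCommMonoid M] (h : G.Pole A ε α) (g : E → M)
    (h0 : ∀ e, G.s e ∉ A → G.t e ∉ A → g e = 0) :
    ∑ e, g e = (∑ e, if G.s e ∈ A ∧ G.t e ∈ A then g e else 0) + ∑ i, g (ε i) := by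
  have : ∑ i, g (ε i) = ∑ e ∈ G.cut A, g e := by
    rw [h.cut_eq, sum_map]
    rfl
  rw [this, cut, sum_filter, ← sum_add_distrib]
  apply sum_congr rfl
  intro e _
  by_cases a : G.s e ∈ A <;> by_cases b : G.t e ∈ A <;> simp [a, b, h0 e]

theorem Pole.sum_cut {M : Type} [AddCommMonoid M] (h : G.Pole A ε α) {Y : Set V} (hY : Y ⊆ A)
    (φ : E → M) : ∑ e ∈ G.cut Y, φ e =
      ∑ e ∈ G.icut A Y, φ e + ∑ i, if α i ∈ Y then φ (ε i) else 0 := by
  rw [cut, sum_filter, h.sum_all, icut, sum_filter]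
  · congr 1
    · apply sum_congr rfl
      intro e _
      by_cases a : G.s e ∈ A <;> by_cases b : G.t e ∈ A <;> simp [a, b]
    · apply sum_congr rfl
      intro i _
      obtain ⟨b, h1, h2⟩ := h.jn i
      have h3 : b ∉ Y := fun h' => h2 (hY h')
      have h4 := h1.mem_cut (X := Y)
      rw [MG.mem_cut] at h4
      simp only [h4, h3, iff_false, not_not]
  · intro e a b
    have a' : G.s e ∉ Y := fun h' => a (hY h')
    have b' : G.t e ∉ Y := fun h' => b (hY h')
    simp [a', b']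

theorem Pole.d_sub (h : G.Pole A ε α) {Y : Set V} (hY : Y ⊆ A) :
    G.d Y = (G.icut A Y).card + ∑ i, if α i ∈ Y then 1 else 0 := by
  have := h.sum_cut hY (fun _ => (1 : ℕ))
  simpa [d] using this

theorem Pole.d_sub' (h : G.Pole A ε α) {Y : Set V} (hY : Y ⊆ A) (S : I → Bool) (b : Bool)
    (hS : ∀ i, α i ∈ Y ↔ S i = b) :
    G.d Y = (G.icut A Y).card + ∑ i, if S i = b then 1 else 0 := by
  rw [h.d_sub hY]
  congr 1
  apply sum_congr rfl
  intro i _
  by_cases a : S i = b <;> simp [hS, a]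

variable {W F : Type} [Fintype W] [Fintype F] [Inhabited W]

def ob (ε : I → E) (o : I → W) (e : E) : W := if h : ∃ i, ε i = e then o h.choose else default

theorem ob_eq (h : Function.Injective ε) (o : I → W) (i : I) : ob ε o (ε i) = o i := by
  have : ∃ j, ε j = ε i := ⟨i, rfl⟩
  unfold ob
  rw [dif_pos this, h this.choose_spec]

def glue (G : MG V E) (A : Set V) (ε : I → E) (o : I → W) (P : MG W F) : MG (V ⊕ W) (E ⊕ F) where
  s := Sum.elim (fun e => if G.s e ∈ A then .inl (G.s e) else .inr (ob ε o e)) (fun f => .inr (P.s f))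
  t := Sum.elim (fun e => if G.t e ∈ A then .inl (G.t e) else .inr (ob ε o e)) (fun f => .inr (P.t f))

variable {o : I → W} {P : MG W F}

theorem Pole.glue_joins (h : G.Pole A ε α) (i : I) :
    (G.glue A ε o P).Joins (.inl (ε i)) (.inl (α i)) (.inr (o i)) := by
  obtain ⟨b, h1, h2⟩ := h.jn i
  have h3 := h.mem i
  rcases h1 with ⟨a, c⟩ | ⟨a, c⟩
  · left; simp [glue, a, c, h2, h3, ob_eq h.inj]
  · right; simp [glue, a, c, h2, h3, ob_eq h.inj]

theorem glue_joins_in {e : E} {a b : V} (hj : G.Joins e a b) (ha : a ∈ A) (hb : b ∈ A) :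
    (G.glue A ε o P).Joins (.inl e) (.inl a) (.inl b) := by
  rcases hj with ⟨a, c⟩ | ⟨a, c⟩
  · left; simp [glue, a, c, ha, hb]
  · right; simp [glue, a, c, ha, hb]

theorem Pole.glue_sum {M : Type} [AddCommMonoid M] (h : G.Pole A ε α) (X : Set (V ⊕ W))
    (φ : E ⊕ F → M) : ∑ e ∈ (G.glue A ε o P).cut X, φ e =
      ∑ e ∈ G.icut A (Sum.inl ⁻¹' X), φ (.inl e) +
      (∑ i, if ¬ (.inl (α i) ∈ X ↔ .inr (o i) ∈ X) then φ (.inl (ε i)) else 0) +
      ∑ f ∈ P.cut (Sum.inr ⁻¹' X), φ (.inr f) := by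
  rw [cut, sum_filter, Fintype.sum_sum_type, h.sum_all, icut, sum_filter, cut, sum_filter]
  · congr 1
    congr 1
    · apply sum_congr rfl
      intro e _
      by_cases a : G.s e ∈ A <;> by_cases b : G.t e ∈ A <;> simp [a, b, glue]
    · apply sum_congr rfl
      intro i _
      have h4 := (h.glue_joins (o := o) (P := P) i).mem_cut (X := X)
      rw [MG.mem_cut] at h4
      simp only [h4]
  · intro e a b
    simp [glue, a, b]

theorem Pole.glue_d (h : G.Pole A ε α) (X : Set (V ⊕ W)) :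
    (G.glue A ε o P).d X = (G.icut A (Sum.inl ⁻¹' X)).card +
      pc o P (fun i => decide (.inl (α i) ∈ X)) (fun w => decide (.inr w ∈ X)) := by
  have := h.glue_sum (o := o) (P := P) X (fun _ => (1 : ℕ))
  simp only [sum_const, smul_eq_mul, mul_one] at this
  unfold d pc
  rw [this, add_assoc, cut, card_filter]
  congr 2
  · apply sum_congr rfl
    intro i _
    by_cases a : Sum.inl (α i) ∈ X <;> by_cases b : Sum.inr (o i) ∈ X <;> simp [a, b]
  · apply sum_congr rfl
    intro f _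
    by_cases a : Sum.inr (P.s f) ∈ X <;> by_cases b : Sum.inr (P.t f) ∈ X <;> simp [a, b]

theorem Pole.glue_df_inl {M : Type} [AddCommMonoid M] (h : G.Pole A ε α) (φ : E ⊕ F → M) {v : V}
    (hv : v ∈ A) : (G.glue A ε o P).df φ (.inl v) = G.df (fun e => φ (.inl e)) v := by
  unfold df
  rw [h.glue_sum, h.sum_cut (by simpa using hv)]
  have e1 : (Sum.inl ⁻¹' ({Sum.inl v} : Set (V ⊕ W))) = {v} := by ext; simp
  have e2 : P.cut (Sum.inr ⁻¹' ({Sum.inl v} : Set (V ⊕ W))) = ∅ := by ext; simp [MG.mem_cut]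
  rw [e1, e2]
  simp

theorem Pole.glue_df_inl' {M : Type} [AddCommMonoid M] (h : G.Pole A ε α) (φ : E ⊕ F → M) {v : V}
    (hv : v ∉ A) : (G.glue A ε o P).df φ (.inl v) = 0 := by
  unfold df
  rw [h.glue_sum]
  have e1 : G.icut A (Sum.inl ⁻¹' ({Sum.inl v} : Set (V ⊕ W))) = ∅ := by
    ext e
    simp only [icut, mem_filter, mem_univ, true_and, Set.mem_preimage, Set.mem_singleton_iff,
      Sum.inl.injEq, notMem_empty, iff_false]
    rintro ⟨a, b, c⟩
    exact c ⟨fun h' => absurd (h' ▸ a) hv, fun h' => absurd (h' ▸ b) hv⟩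
  have e2 : P.cut (Sum.inr ⁻¹' ({Sum.inl v} : Set (V ⊕ W))) = ∅ := by ext; simp [MG.mem_cut]
  have e3 : ∀ i, α i ≠ v := fun i h' => hv (h' ▸ h.mem i)
  rw [e1, e2]
  simp [e3]

theorem Pole.glue_df_inr {M : Type} [AddCommMonoid M] (h : G.Pole A ε α) (φ : E ⊕ F → M) (w : W) :
    (G.glue A ε o P).df φ (.inr w) =
      (∑ i, if o i = w then φ (.inl (ε i)) else 0) + P.df (fun f => φ (.inr f)) w := by
  unfold df
  rw [h.glue_sum]
  have e1 : G.icut A (Sum.inl ⁻¹' ({Sum.inr w} : Set (V ⊕ W))) = ∅ := by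
    ext e
    simp [icut]
  have e2 : (Sum.inr ⁻¹' ({Sum.inr w} : Set (V ⊕ W))) = {w} := by ext; simp
  rw [e1, e2]
  simp

theorem d_eq_df (v : V) : G.d {v} = G.df (fun _ => 1) v := by simp [d, df]

theorem Pole.glue_oc [DecidableEq W] (h : G.Pole A ε α) :
    (G.glue A ε o P).oc Set.univ = G.oc A + oddc o P := by
  unfold oc oddc
  rw [card_filter, card_filter, card_filter, Fintype.sum_sum_type]
  congr 1
  · apply sum_congr rfl
    intro v _
    by_cases hv : v ∈ A
    · rw [d_eq_df, h.glue_df_inl _ hv, ← d_eq_df]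
      simp [hv]
    · rw [d_eq_df, h.glue_df_inl' _ hv]
      simp [hv]
  · apply sum_congr rfl
    intro w _
    rw [h.glue_d]
    have e1 : G.icut A (Sum.inl ⁻¹' ({Sum.inr w} : Set (V ⊕ W))) = ∅ := by
      ext e
      simp [icut]
    rw [e1]
    simp [Nat.odd_iff]

theorem Pole.glue_loc [DecidableEq W] (h : G.Pole A ε α) (hc : (G.glue A ε o P).Col) :
    ∃ φ, G.Loc A φ ∧ PCol o P (fun i => φ (ε i)) := by
  obtain ⟨φ, h1, h2⟩ := hc
  refine ⟨fun e => φ (.inl e), ⟨fun e => h1 _, fun v hv => ?_⟩, fun f => φ (.inr f),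
    fun f => h1 _, fun w => ?_⟩
  · rw [← h.glue_df_inl (o := o) (P := P) φ hv]
    exact h2 _ trivial
  · have := h2 (.inr w) trivial
    rw [h.glue_df_inr, df_eq_cons] at this
    refine Eq.trans ?_ this
    congr 1
    apply sum_congr rfl
    intro i _
    split_ifs <;> rfl

theorem Triv.mono {X Y : Set V} (h : G.Triv X) (hY : Y ⊆ X) : G.Triv Y := by
  obtain ⟨w, hw⟩ := h
  exact ⟨w, fun e he => ⟨fun h => (hw e he).1 (hY h), fun h => (hw e he).2 (hY h)⟩⟩

theorem Pole.ni (h : G.Pole A ε α) (i : I) : G.NI (α i) := by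
  obtain ⟨b, h1, h2⟩ := h.jn i
  exact h1.ni fun h' => h2 (h' ▸ h.mem i)

def Bad (G : MG V E) (α : I → V) (i j : I) : Prop := α i = α j ∧ G.d {α i} = 3

theorem Pole.bad_of_three (h4 : G.E4) (h : G.Pole A ε α) (hA : ¬ G.Triv Aᶜ) {Y : Set V}
    (hY : Y ⊆ A) (hd : G.d Y = 3) {i j : I} (hi : α i ∈ Y) (hj : α j ∈ Y) : G.Bad α i j := by
  rcases h4.2 Y (by omega) with ht | ht
  · refine ⟨ht.eq' (h.ni i) (h.ni j) hi hj, ?_⟩
    obtain ⟨b, h1, h2⟩ := h.jn i
    unfold d at hd ⊢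
    rw [← ht.cut_eq h1 (fun h' => h2 (h' ▸ h.mem i)) hi, hd]
  · exact absurd (ht.mono (Set.compl_subset_compl.mpr hY)) hA

theorem two_of_sum : ∀ S : Fin 5 → Bool, ∀ b : Bool, (∑ i, if S i = b then 1 else 0) = 2 →
    ∃ i j, i ≠ j ∧ ∀ k, S k = b ↔ (k = i ∨ k = j) := by decide +kernel

theorem Pole.bl5 {ε : Fin 5 → E} {α : Fin 5 → V} {o : Fin 5 → W} (h4 : G.E4) (h : G.Pole A ε α)
    (hA : ¬ G.Triv Aᶜ) (h1 : ∀ b Z, pc o P (fun _ => b) Z ≠ 1)
    (h2 : ∀ S Z, pc o P S Z = 0 → ∀ i j, i ≠ j → ∀ b, (∀ k, S k = b ↔ (k = i ∨ k = j)) →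
      ¬ G.Bad α i j) : (G.glue A ε o P).Bl := by
  intro X hX
  rw [h.glue_d] at hX
  set S : Fin 5 → Bool := fun i => decide (.inl (α i) ∈ X) with hS
  generalize (fun w => decide (Sum.inr w ∈ X)) = Z at hX
  have d1 := h.d_sub' (Y := A ∩ Sum.inl ⁻¹' X) Set.inter_subset_left S true
    (fun i => by simp [hS, h.mem i])
  have d2 := h.d_sub' (Y := A \ Sum.inl ⁻¹' X) Set.sdiff_subset S false
    (fun i => by simp [hS, h.mem i])
  rw [icut_inter] at d1
  rw [icut_diff] at d2
  have s3 : ∀ S : Fin 5 → Bool, (∑ i, if S i = true then 1 else 0) +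
      (∑ i, if S i = false then 1 else 0) = 5 ∧
      ((∑ i, if S i = true then 1 else 0) = 0 → S = fun _ => false) ∧
      ((∑ i, if S i = false then 1 else 0) = 0 → S = fun _ => true) := by decide +kernel
  obtain ⟨t1, t2, t3⟩ := s3 S
  have a1 := h4.1 (A ∩ Sum.inl ⁻¹' X)
  have a2 := h4.1 (A \ Sum.inl ⁻¹' X)
  by_cases hc : (G.icut A (Sum.inl ⁻¹' X)).card = 0
  · have : (∑ i, if S i = true then 1 else 0) = 0 ∨ (∑ i, if S i = false then 1 else 0) = 0 := by
      omega
    rcases this with h' | h'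
    · rw [t2 h'] at hX
      exact h1 false Z (by omega)
    · rw [t3 h'] at hX
      exact h1 true Z (by omega)
  · have : (∑ i, if S i = true then 1 else 0) = 2 ∨ (∑ i, if S i = false then 1 else 0) = 2 := by
      omega
    rcases this with h' | h'
    · obtain ⟨i, j, hij, hk⟩ := two_of_sum S true h'
      refine h2 S Z (by omega) i j hij true hk (h.bad_of_three h4 hA (Y := A ∩ Sum.inl ⁻¹' X) Set.inter_subset_left
        (by omega) ⟨h.mem i, ?_⟩ ⟨h.mem j, ?_⟩)
      · simpa [hS] using (hk i).mpr (Or.inl rfl)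
      · simpa [hS] using (hk j).mpr (Or.inr rfl)
    · obtain ⟨i, j, hij, hk⟩ := two_of_sum S false h'
      refine h2 S Z (by omega) i j hij false hk (h.bad_of_three h4 hA (Y := A \ Sum.inl ⁻¹' X) Set.sdiff_subset
        (by omega) ⟨h.mem i, ?_⟩ ⟨h.mem j, ?_⟩)
      · simpa [hS] using (hk i).mpr (Or.inl rfl)
      · simpa [hS] using (hk j).mpr (Or.inr rfl)

end MG

end

end Pool.Agent.Lib.MP_aa6b05_co
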