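import Pool.Agent.Lib.MP_aa6b05_co.Split

set_option linter.unusedSectionVars false
set_option linter.unusedVariables false
set_option linter.unusedSimpArgs false
set_option synthInstance.maxSize 4096

namespace Pool.Agent.Lib.MP_aa6b05_co

open Finset

open scoped Classical

noncomputable section

namespace MG

variable {V E : Type} [Fintype V] [Fintype E] {G : MG V E}

def ConnE (G : MG V E) (A : Set V) : Prop :=
  ∀ (Z : Set V) (a c : V), G.NI a → G.NI c → a ∈ A → c ∈ A → a ∈ Z → c ∉ Z →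
    ∃ g x y, G.Joins g x y ∧ x ∈ A ∧ y ∈ A ∧ x ∈ Z ∧ y ∉ Z

theorem connE_pair {e : E} {a b : V} (h : G.Joins e a b) : G.ConnE {a, b} := by
  intro Z x y _ _ hx hy hxZ hyZ
  simp only [Set.mem_insert_iff, Set.mem_singleton_iff] at hx hy
  rcases hx with rfl | rfl <;> rcases hy with rfl | rfl
  · exact absurd hxZ hyZ
  · exact ⟨e, _, _, h, by simp, by simp, hxZ, hyZ⟩
  · exact ⟨e, _, _, h.symm, by simp, by simp, hxZ, hyZ⟩
  · exact absurd hxZ hyZ

theorem ConnE.insert {A : Set V} (hA : G.ConnE A) {e : E} {a b : V} (h : G.Joins e a b)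
    (hab : a ≠ b) (hb : b ∈ A) : G.ConnE (insert a A) := by
  intro Z x y nx ny hx hy hxZ hyZ
  by_cases haZ : a ∈ Z <;> by_cases hbZ : b ∈ Z
  · rcases hy with rfl | hy
    · exact absurd haZ hyZ
    · obtain ⟨g, p, q, h1, h2, h3, h4, h5⟩ := hA Z b y (h.ni' hab) ny hb hy hbZ hyZ
      exact ⟨g, p, q, h1, Or.inr h2, Or.inr h3, h4, h5⟩
  · exact ⟨e, a, b, h, Or.inl rfl, Or.inr hb, haZ, hbZ⟩
  · exact ⟨e, b, a, h.symm, Or.inr hb, Or.inl rfl, hbZ, haZ⟩
  · rcases hx with rfl | hx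
    · exact absurd hxZ haZ
    · obtain ⟨g, p, q, h1, h2, h3, h4, h5⟩ := hA Z x b nx (h.ni' hab) hx hb hxZ hbZ
      exact ⟨g, p, q, h1, Or.inr h2, Or.inr h3, h4, h5⟩

theorem d_add_of_no_edge {A Z : Set V}
    (h : ¬ ∃ g x y, G.Joins g x y ∧ x ∈ A ∧ y ∈ A ∧ x ∈ Z ∧ y ∉ Z) :
    G.d (A ∩ Z) + G.d (A \ Z) = G.d A := by
  push Not at h
  rw [d_eq_sum, d_eq_sum, d_eq_sum, ← sum_add_distrib]
  apply sum_congr rfl
  intro e _
  have h1 := h e _ _ (joins_self e)
  have h2 := h e _ _ (joins_self e).symm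
  simp only [Set.mem_inter_iff, Set.mem_sdiff]
  by_cases p1 : G.s e ∈ A <;> by_cases p2 : G.t e ∈ A <;> by_cases p3 : G.s e ∈ Z <;>
    by_cases p4 : G.t e ∈ Z <;> simp_all

theorem reduce (Q : ∀ {V E : Type} [Fintype V] [Fintype E], MG V E → Prop) (N : ℕ)
    (hcon : ∀ {V E : Type} [Fintype V] [Fintype E] (G : MG V E) (X : Set V),
      (G.d X = 0 ∨ G.ConnE X) → Q (G.map (con X)) → Q G)
    (hcore : ∀ {V E : Type} [Fintype V] [Fintype E] (G : MG V E), G.E4 → G.NoPar → G.NoTri →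
      G.NoQuad → G.oc Set.univ ≤ N → ¬ G.Col →
      (∀ G' : MG V E, G'.m < G.m → G'.Bl → G'.oc Set.univ ≤ N → ¬ G'.Col → Q G') → Q G)
    (n : ℕ) : ∀ {V E : Type} [Fintype V] [Fintype E] (G : MG V E), G.m ≤ n → G.Bl →
      G.oc Set.univ ≤ N → ¬ G.Col → Q G := by
  induction n using Nat.strong_induction_on with
  | _ n ih =>
  intro V E _ _ G hm hb hoc hcol
  have IH : ∀ X : Set V, (G.map (con X)).m < G.m → ¬ (G.map (con X)).Col → Q (G.map (con X)) :=
    fun X h1 h2 => ih _ (lt_of_lt_of_le h1 hm) _ le_rfl (hb.map _)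
      ((oc_map_le _).trans hoc) h2
  by_cases h2 : ∃ X, G.d X = 2
  · obtain ⟨X, hX⟩ := h2
    obtain ⟨e, f, hef, hc⟩ := card_eq_two.mp hX
    obtain ⟨a, b, hj, ha, hb'⟩ := exists_joins_of_mem_cut (G := G) (X := X) (e := e) (by simp [hc])
    have hab : a ≠ b := fun h => hb' (h ▸ ha)
    apply hcon G {a, b} (Or.inr (connE_pair hj))
    exact IH _ (m_con_lt hj hab (by simp) (by simp))
      (fun h => hcol (col_of_two_cut hc hef hj ha hb' h))
  push Not at h2
  have h12 : ∀ X, G.d X ≠ 1 ∧ G.d X ≠ 2 := fun X => ⟨hb X, h2 X⟩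
  by_cases h0 : ∃ X a c, G.d X = 0 ∧ G.NI a ∧ G.NI c ∧ a ∈ X ∧ c ∉ X
  · obtain ⟨X, a, c, hX, ⟨e, b, hj, hab⟩, ⟨f, d, hj', hcd⟩, ha, hc⟩ := h0
    have hcut : G.cut X = ∅ := card_eq_zero.mp hX
    have hbX : b ∈ X := by
      by_contra h
      have : e ∈ G.cut X := by rw [hj.mem_cut]; simp [ha, h]
      simp [hcut] at this
    have hdX : d ∉ X := by
      intro h
      have : f ∈ G.cut X := by rw [hj'.mem_cut]; simp [hc, h]
      simp [hcut] at this
    by_cases c1 : (G.map (con X)).Col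
    · by_cases c2 : (G.map (con Xᶜ)).Col
      · exact absurd (col_of_small_cut (Or.inl hX) c1 c2) hcol
      · exact hcon G Xᶜ (Or.inl (by rw [d_compl, hX])) (IH _ (m_con_lt hj' hcd hc hdX) c2)
    · exact hcon G X (Or.inl hX) (IH _ (m_con_lt hj hab ha hbX) c1)
  push Not at h0
  have hconn : ∀ X, G.d X ≤ 3 → G.ConnE X := by
    intro X hX Z a c na nc ha hc haZ hcZ
    by_contra hne
    have h1 := d_add_of_no_edge hne
    have h2 := h12 (X ∩ Z)
    have h3 := h12 (X \ Z)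
    by_cases h4 : G.d (X ∩ Z) = 0
    · exact hcZ (h0 _ a c h4 na nc ⟨ha, haZ⟩).2
    · exact (h0 (X \ Z) c a (by omega) nc na ⟨hc, hcZ⟩).2 haZ
  by_cases h3 : ∃ X, G.d X ≤ 3 ∧ ¬ G.Triv X ∧ ¬ G.Triv Xᶜ
  · obtain ⟨X, hX, t1, t2⟩ := h3
    have : Nonempty V := by
      by_contra hV
      apply hcol
      refine ⟨fun _ => .k1, fun _ => (by decide : K.k1 ≠ 0), fun v _ => absurd ⟨v⟩ hV⟩
    obtain ⟨e, a, b, hj, hab, ha, hb'⟩ := inner_edge_of_not_triv h12 hX t1
    obtain ⟨f, c, d, hj', hcd, hc, hd⟩ := inner_edge_of_not_triv h12 (by rwa [d_compl]) t2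
    have hd03 : G.d X = 0 ∨ G.d X = 3 := by
      have := h12 X
      omega
    by_cases c1 : (G.map (con X)).Col
    · by_cases c2 : (G.map (con Xᶜ)).Col
      · exact absurd (col_of_small_cut hd03 c1 c2) hcol
      · exact hcon G Xᶜ (Or.inr (hconn _ (by rwa [d_compl]))) (IH _ (m_con_lt hj' hcd hc hd) c2)
    · exact hcon G X (Or.inr (hconn _ hX)) (IH _ (m_con_lt hj hab ha hb') c1)
  have h4 : G.E4 := by
    refine ⟨h12, fun X hX => ?_⟩
    by_contra h
    push Not at h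
    exact h3 ⟨X, hX, h.1, h.2⟩
  by_cases hp : G.NoPar
  swap
  · unfold NoPar at hp
    push Not at hp
    obtain ⟨e, f, a, b, hef, hab, he, hf⟩ := hp
    apply hcon G {a, b} (Or.inr (connE_pair he))
    exact IH _ (m_con_lt he hab (by simp) (by simp))
      (fun h => hcol (col_of_par hef hab he hf h))
  by_cases ht : G.NoTri
  swap
  · unfold NoTri at ht
    push Not at ht
    obtain ⟨e, f, g, a, b, c, hab, hbc, hac, he, hf, hg⟩ := ht
    apply hcon G {a, b, c} (Or.inr ((connE_pair hf).insert he hab (by simp)))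
    exact IH _ (m_con_lt he hab (by simp) (by simp))
      (fun h => hcol (col_of_tri hab hbc hac he hf hg h))
  by_cases hq : G.NoQuad
  swap
  · unfold NoQuad at hq
    push Not at hq
    obtain ⟨e, f, g, k, a, b, c, d, hab, hac, had, hbc, hbd, hcd, he, hf, hg, hk⟩ := hq
    apply hcon G {a, b, c, d}
      (Or.inr (((connE_pair hg).insert hf hbc (by simp)).insert he hab (by simp)))
    exact IH _ (m_con_lt he hab (by simp) (by simp))
      (fun h => hcol (col_of_quad hab hac had hbc hbd hcd he hf hg hk h))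
  exact hcore G h4 hp ht hq hoc hcol
    (fun G' h1 h2 h3 h4 => ih _ (lt_of_lt_of_le h1 hm) G' le_rfl h2 h3 h4)

def Cubic (G : MG V E) : Prop := ∀ v, G.d {v} = 0 ∨ G.d {v} = 3

theorem reduce2 (Q : ∀ {V E : Type} [Fintype V] [Fintype E], MG V E → Prop) (N : ℕ)
    (hcon : ∀ {V E : Type} [Fintype V] [Fintype E] (G : MG V E) (X : Set V),
      Q (G.map (con X)) → Q G)
    (hbase : ∀ {V E : Type} [Fintype V] [Fintype E] (G : MG V E), G.E4 → G.NoPar → G.NoTri →
      G.NoQuad → G.Cubic → G.oc Set.univ ≤ N → ¬ G.Col → Q G)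
    (hlift : ∀ {V E : Type} [Fintype V] [Fintype E] (G : MG V E), G.E4 → G.NoPar →
      G.oc Set.univ ≤ N → ¬ G.Col → ∀ c1 c2 v x y, c1 ≠ c2 → G.Joins c1 v x → v ≠ x →
      G.Joins c2 v y → v ≠ y → 4 ≤ G.d {v} → (∀ X, G.Dang v X → x ∈ X → y ∉ X) →
      Q (G.split c1 c2 v x y) → Q G)
    {V E : Type} [Fintype V] [Fintype E] (G : MG V E) (hb : G.Bl)
    (hoc : G.oc Set.univ ≤ N) (hcol : ¬ G.Col) : Q G := by
  refine reduce Q N (fun G X _ h => hcon G X h) ?_ G.m G le_rfl hb hoc hcol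
  intro V E _ _ G h4 hp ht hq hoc hcol IH
  by_cases hc : G.Cubic
  · exact hbase G h4 hp ht hq hc hoc hcol
  · unfold Cubic at hc
    push Not at hc
    obtain ⟨v, h0, h3⟩ := hc
    have hv : 4 ≤ G.d {v} := by
      have := h4.1 {v}
      omega
    obtain ⟨c1, c2, x, y, h12, j1, n1, j2, n2, hg⟩ := exists_good_split h4 hp hv
    refine hlift G h4 hp hoc hcol c1 c2 v x y h12 j1 n1 j2 n2 hv hg ?_
    exact IH _ (m_split h12 j1 n1 j2 n2) (bl_split h4 h12 j1 j2 hv hg)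
      (by rw [oc_split h12 j1 j2]; exact hoc) (fun h => hcol (col_of_split h12 j1 j2 h))

end MG

end

end Pool.Agent.Lib.MP_aa6b05_co
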