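import Pool.Agent.Lib.MP_aa6b05_co.Tmpl

set_option linter.unusedSectionVars false
set_option linter.unusedVariables false
set_option linter.unusedSimpArgs false
set_option synthInstance.maxSize 4096

namespace Pool.Agent.Lib.MP_aa6b05_co

open Finset

open scoped Classical

noncomputable section

namespace MG

variable {V E : Type} [Fintype V] [Fintype E] {G : MG V E}

section lift

variable {W : Type} [Fintype W] {m : ℕ} {H : MG W (Fin m)} {π : V → W} {ι : Fin m → E}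
  {c1 c2 : E} {v x y : V}

theorem split_joins {e : E} (h1 : e ≠ c1) (h2 : e ≠ c2) (a b : W) :
    ((G.split c1 c2 v x y).map π).Joins e a b ↔ (G.map π).Joins e a b := by
  simp [Joins, MG.map, split, h1, h2]

theorem QuoVia.ne_c2 (h : (G.split c1 c2 v x y).QuoVia H π ι) (hnl : ∀ k, H.s k ≠ H.t k)
    (h12 : c1 ≠ c2) (k : Fin m) : ι k ≠ c2 := by
  intro hk
  have := h.jn k
  rw [hk] at this
  simp only [Joins, MG.map, split, h12.symm, if_false, if_true] at this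
  apply hnl k
  rcases this with ⟨a, b⟩ | ⟨a, b⟩ <;> rw [← a, ← b]

theorem QuoVia.c1_joins (h : (G.split c1 c2 v x y).QuoVia H π ι) {k : Fin m} (hk : ι k = c1) :
    (H.s k = π x ∧ H.t k = π y) ∨ (H.s k = π y ∧ H.t k = π x) := by
  have := h.jn k
  rw [hk] at this
  simp only [Joins, MG.map, split, if_true] at this
  tauto

theorem QuoVia.c1_mem (h : (G.split c1 c2 v x y).QuoVia H π ι) (hxy : π x ≠ π y) :
    ∃ k, ι k = c1 := by
  by_contra hc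
  push Not at hc
  have := h.lp c1 hc
  simp only [split, if_true] at this
  exact hxy this

theorem QuoVia.lift3 (h : (G.split c1 c2 v x y).QuoVia H π ι) (hnl : ∀ k, H.s k ≠ H.t k)
    (h12 : c1 ≠ c2) (j1 : G.Joins c1 v x) (j2 : G.Joins c2 v y) {k0 : Fin m} (hk : ι k0 = c1) :
    G.QuoVia (l3 H k0 (π v) (π x) (π y)) π (Fin.cons c2 ι) := by
  have n2 := h.ne_c2 hnl h12
  refine ⟨Fin.cons_injective_iff.mpr ⟨by rintro ⟨k, hk⟩; exact n2 k hk, h.inj⟩, fun k => ?_,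
    fun e he => ?_⟩
  · refine Fin.cases ?_ (fun k => ?_) k
    · exact j2.map π
    · simp only [l3, Fin.cons_succ]
      by_cases hkk : k = k0
      · subst hkk
        simp only [Function.update_self, hk]
        exact j1.map π
      · rw [Function.update_of_ne hkk, Function.update_of_ne hkk,
          ← split_joins (fun h' => hkk (h.inj (h'.trans hk.symm))) (n2 k)]
        exact h.jn k
  · have e2 : e ≠ c2 := fun h' => he 0 h'.symm
    have e1 : e ≠ c1 := fun h' => he k0.succ (hk.trans h'.symm)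
    have := h.lp e (fun k => he k.succ)
    simpa [split, e1, e2] using this

theorem QuoVia.lift2 (h : (G.split c1 c2 v x y).QuoVia H π ι) (hnl : ∀ k, H.s k ≠ H.t k)
    (h12 : c1 ≠ c2) (j1 : G.Joins c1 v x) (j2 : G.Joins c2 v y) (hxy : π x = π y) :
    G.QuoVia (l2 H (π v) (π x)) π (Fin.cons c1 (Fin.cons c2 ι)) := by
  have n2 := h.ne_c2 hnl h12
  have n1 : ∀ k, ι k ≠ c1 := by
    intro k hk
    apply hnl k
    rcases h.c1_joins hk with ⟨a, b⟩ | ⟨a, b⟩ <;> rw [a, b, hxy]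
  refine ⟨Fin.cons_injective_iff.mpr ⟨?_, Fin.cons_injective_iff.mpr
    ⟨by rintro ⟨k, hk⟩; exact n2 k hk, h.inj⟩⟩, fun k => ?_, fun e he => ?_⟩
  · rintro ⟨k, hk⟩
    revert hk
    refine Fin.cases ?_ (fun k => ?_) k
    · exact h12.symm
    · exact n1 k
  · refine Fin.cases ?_ (fun k => Fin.cases ?_ (fun k => ?_) k) k
    · exact j1.map π
    · have := j2.map π
      rw [← hxy] at this
      exact this
    · simp only [l2, Fin.cons_succ]
      rw [← split_joins (n1 k) (n2 k)]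
      exact h.jn k
  · have e1 : e ≠ c1 := fun h' => he 0 h'.symm
    have e2 : e ≠ c2 := fun h' => he (Fin.succ 0) h'.symm
    have := h.lp e (fun k => he k.succ.succ)
    simpa [split, e1, e2] using this

end lift

section tm

variable {n m : ℕ} {H : MG (Fin n) (Fin m)} {π : V → Fin n} {ι : Fin m → E}

theorem QuoVia.triv2 (h4 : G.E4) (h : G.QuoVia H π ι) {a b : Fin n} (hc : Cub2 H a b) {w : Fin n}
    (ha : w ≠ a) (hb : w ≠ b) : G.Triv (π ⁻¹' {w}) ∧ 1 ≤ G.oc (π ⁻¹' {w}) := by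
  obtain ⟨h1, k, h2, h3, h5⟩ := hc w ha hb
  rw [← d_single_dg] at h1
  exact ⟨h.triv h4 {w} (by omega) k h2 h3 h5, h.odd_part (by rw [h1]; decide)⟩

theorem QuoVia.kap (h : G.QuoVia H π ι) {a : Fin n} {κ : Fin 5 → Fin m} (hk : Kap H a κ) :
    (∃ α, G.Pole (π ⁻¹' {a}) (fun i => ι (κ i)) α) ∧ ¬ G.Triv (π ⁻¹' {a})ᶜ := by
  obtain ⟨h1, h2, k, h3, h4, h5⟩ := hk
  exact ⟨h.pole {a} κ (fun i j => h1 i j) h2,
    h.not_triv k h3 (fun z hz => by simpa [hz] using h4) (fun z hz => by simpa [hz] using h5)⟩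

theorem Pole.ok {A : Set V} {ε : Fin 5 → E} {α : Fin 5 → V} (h : G.Pole A ε α) {φ : E → K}
    (hφ : G.Loc A φ) (h3 : φ (ε 3) = .k1) (h4 : φ (ε 4) = .k2) :
    Ok (φ (ε 0)) (φ (ε 1)) (φ (ε 2)) :=
  ⟨hφ.1 _, hφ.1 _, hφ.1 _, by rw [← h3, ← h4]; exact h.sum0 hφ⟩

theorem QuoVia.col2 (h4 : G.E4) (h : G.QuoVia H π ι) {a b : Fin n} (hc : Cub2 H a b) {c : ℕ}
    (hw : Wit H a b c) {κ κ' : Fin 5 → Fin m} (hk : Kap H a κ) (hk' : Kap H b κ') {φ ψ : E → K}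
    (hφ : G.Loc (π ⁻¹' {a}) φ) (h3 : φ (ι (κ 3)) = .k1) (h5 : φ (ι (κ 4)) = .k2)
    (hm : Mt κ c (φ (ι (κ 0))) (φ (ι (κ 1))) (φ (ι (κ 2))))
    (hψ : G.Loc (π ⁻¹' {b}) ψ) (h3' : ψ (ι (κ' 3)) = .k1) (h5' : ψ (ι (κ' 4)) = .k2)
    (hm' : Mt κ' c (ψ (ι (κ' 0))) (ψ (ι (κ' 1))) (ψ (ι (κ' 2)))) : G.Col := by
  have key : ∀ {a : Fin n} {κ : Fin 5 → Fin m} {φ : E → K}, Kap H a κ → φ (ι (κ 3)) = .k1 →
      φ (ι (κ 4)) = .k2 → Mt κ c (φ (ι (κ 0))) (φ (ι (κ 1))) (φ (ι (κ 2))) →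
      ∀ k ∈ H.cut {a}, φ (ι k) = kk c k := by
    intro a κ φ hk h3 h5 hm k hka
    obtain ⟨i, rfl⟩ := (hk.2.1 k).mp (MG.mem_cut.mp hka)
    obtain ⟨m0, m1, m2, m3, m4⟩ := hm
    fin_cases i
    · exact m0.symm
    · exact m1.symm
    · exact m2.symm
    · exact h3.trans m3.symm
    · exact h5.trans m4.symm
  refine h.col (fun k => kk c k) hw.1 fun w => ?_
  by_cases ha : w = a
  · subst ha
    exact ⟨φ, hφ, key hk h3 h5 hm⟩
  by_cases hb : w = b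
  · subst hb
    exact ⟨ψ, hψ, key hk' h3' h5' hm'⟩
  refine h.triv_part _ hw.1 (h.triv2 h4 hc ha hb).1 ?_
  have := hw.2 w ha hb
  rw [← df_eq_cons] at this
  exact this

theorem QuoVia.oc_two (h4 : G.E4) (h : G.QuoVia H π ι) {a b : Fin n} (hc : Cub2 H a b)
    (hab : a ≠ b) : G.oc (π ⁻¹' {a}) + G.oc (π ⁻¹' {b}) + n ≤ G.oc Set.univ + 2 := by
  rw [← sum_oc_fibres π, ← add_sum_erase _ _ (mem_univ a),
    ← add_sum_erase _ _ (mem_erase.mpr ⟨hab.symm, mem_univ b⟩)]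
  have := card_nsmul_le_sum ((univ.erase a).erase b) (fun w => G.oc (π ⁻¹' {w})) 1 (by
    intro w hw
    simp only [mem_erase, mem_univ, and_true] at hw
    exact (h.triv2 h4 hc hw.2 hw.1).2)
  rw [card_erase_of_mem (mem_erase.mpr ⟨hab.symm, mem_univ b⟩), card_erase_of_mem (mem_univ a),
    card_fin, smul_eq_mul] at this
  omega

theorem QuoVia.oc_one (h4 : G.E4) (h : G.QuoVia H π ι) {a : Fin n} (hc : Cub2 H a a) :
    G.oc (π ⁻¹' {a}) + n ≤ G.oc Set.univ + 1 := by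
  rw [← sum_oc_fibres π, ← add_sum_erase _ _ (mem_univ a)]
  have := card_nsmul_le_sum (univ.erase a) (fun w => G.oc (π ⁻¹' {w})) 1 (by
    intro w hw
    simp only [mem_erase, mem_univ, and_true] at hw
    exact (h.triv2 h4 hc hw hw).2)
  rw [card_erase_of_mem (mem_univ a), card_fin, smul_eq_mul] at this
  omega

theorem QuoVia.d_le (h : G.QuoVia H π ι) (Z : Fin n → Bool) :
    G.d (π ⁻¹' {w | Z w = true}) = dg H Z := by rw [h.d_eq, d_eq_dg]

theorem QuoVia.mem_cut' (h : G.QuoVia H π ι) (Z : Fin n → Bool) (k : Fin m)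
    (hk : Z (H.s k) ≠ Z (H.t k)) : ι k ∈ G.cut (π ⁻¹' {w | Z w = true}) := by
  rw [h.mem_cut, MG.mem_cut]
  simp only [Set.mem_ofPred_eq]
  revert hk
  cases Z (H.s k) <;> cases Z (H.t k) <;> simp

theorem QuoVia.ni_part (h : G.QuoVia H π ι) (k : Fin m) (hk : H.s k ≠ H.t k) :
    (∃ z, G.NI z ∧ π z = H.s k) ∧ ∃ z, G.NI z ∧ π z = H.t k := by
  obtain ⟨a, b, h1, h2, h3⟩ := h.ends k
  have hab : a ≠ b := fun h' => hk (by rw [← h2, ← h3, h'])
  exact ⟨⟨a, h1.ni hab, h2⟩, ⟨b, h1.ni' hab, h3⟩⟩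

theorem ni_of_d {v : V} (h : 0 < G.d {v}) : G.NI v := by
  obtain ⟨e, he⟩ := card_pos.mp h
  obtain ⟨x, hj, hx⟩ := exists_other he
  exact hj.ni hx

theorem QuoVia.deg3 (h4 : G.E4) (h : G.QuoVia H π ι) {v : V} (hv : 4 ≤ G.d {v})
    (hd : dg H (fun z => decide (z = π v)) ≤ 3) (k : Fin m) (hk : H.s k ≠ H.t k)
    (hs : H.s k ≠ π v) (ht : H.t k ≠ π v) : False := by
  rw [← d_single_dg] at hd
  have := (h.triv h4 {π v} hd k hk hs ht).d_eq (ni_of_d (by omega)) rfl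
  rw [h.d_eq] at this
  omega

theorem QuoVia.not_triv_compl (h : G.QuoVia H π ι) (Z : Fin n → Bool) {X : Set V}
    (hX : X ⊆ π ⁻¹' {w | Z w = true}) (k : Fin m) (hk : H.s k ≠ H.t k) (hs : Z (H.s k) = false)
    (ht : Z (H.t k) = false) : ¬ G.Triv Xᶜ :=
  h.not_triv k hk (fun z hz h' => by have := hX h'; simp [hz, hs] at this)
    (fun z hz h' => by have := hX h'; simp [hz, ht] at this)

/-- a bad pair at part `a` inside a union of parts with a 4-cut -/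
theorem QuoVia.not_bad (h4 : G.E4) (h : G.QuoVia H π ι) {a : Fin n} {I : Type} [Fintype I]
    {κ : I → Fin m} {α : I → V} (hP : G.Pole (π ⁻¹' {a}) (fun i => ι (κ i)) α) {i j : I}
    (hij : i ≠ j) (Z : Fin n → Bool) (hZ : Z a = true) (hd : dg H Z ≤ 4)
    (hi : Z (H.s (κ i)) ≠ Z (H.t (κ i))) (hj : Z (H.s (κ j)) ≠ Z (H.t (κ j)))
    {v z : V} (hv : 4 ≤ G.d {v}) (hva : π v = a) (hz : G.NI z) (hza : π z ≠ a) (hzZ : Z (π z) = true)
    (k : Fin m) (hk : H.s k ≠ H.t k) (hs : Z (H.s k) = false) (ht : Z (H.t k) = false) :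
    ¬ G.Bad α i j := by
  intro hb
  have hα : π (α i) = a := hP.mem i
  have h1 := d_remove (X := π ⁻¹' {w | Z w = true}) (u := α i) (by simpa [hα] using hZ) hb.2
    (fun h' => hij (hP.inj h')) (hP.mem_cut_single i) (h.mem_cut' Z _ hi)
    (hb.1 ▸ hP.mem_cut_single j) (h.mem_cut' Z _ hj)
  rw [h.d_le] at h1
  refine h4.no_small (X := π ⁻¹' {w | Z w = true} \ {α i}) (by omega) ?_ ?_
  · refine not_triv' (ni_of_d (by omega)) hz (a := v) ⟨by simpa [hva] using hZ, ?_⟩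
      ⟨by simpa using hzZ, ?_⟩ (fun h' => hza (h' ▸ hva))
    · intro h'
      have := hb.2
      rw [← h'] at this
      omega
    · intro h'
      exact hza (h' ▸ hα)
  · exact h.not_triv k hk (fun z hz => by simp [hz, hs]) (fun z hz => by simp [hz, ht])

end tm

section cases

variable (h4 : G.E4) (hc : ¬ G.Col) {π : V → Fin 10} {v : V} (hv : 4 ≤ G.d {v}) (h0 : π v = 0)
include h4 hc hv h0

theorem case3a {ι : Fin 16 → E} (h : G.QuoVia T3a π ι) (hoc : G.oc Set.univ ≤ 17) : False := by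
  obtain ⟨f1, f2, f3, f4⟩ := f3a
  obtain ⟨⟨α, hP⟩, hA⟩ := h.kap f2
  have o1 := h.oc_one h4 f1
  obtain ⟨-, z, hz, hz1⟩ := h.ni_part 1 (by decide)
  have hb := h.not_bad h4 hP (i := 1) (j := 2) (by decide) (fun w => decide (w = 0 ∨ w = 1))
    (by decide) (by decide +kernel) (by decide) (by decide) hv h0 hz (by rw [hz1]; decide)
    (by rw [hz1]; decide) 3 (by decide) (by decide) (by decide)
  obtain ⟨φ, a1, a2, a3, a4⟩ := hP.tyU h4 hA (by omega) hb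
  obtain ⟨c, c1, c2⟩ := f4 _ _ _ (hP.ok a1 a2 a3) (a4.mpr rfl)
  exact hc (h.col2 h4 f1 (f3 c c1) f2 f2 a1 a2 a3 c2 a1 a2 a3 c2)

theorem case3b_of {ι : Fin 16 → E} (h : G.QuoVia T3b π ι) {b : Bool}
    (ht : G.Ty (π ⁻¹' {0}) (fun i => ι (κ3b i)) b) : False := by
  obtain ⟨f1, f2, f3, f4⟩ := f3b
  obtain ⟨⟨α, hP⟩, hA⟩ := h.kap f2
  obtain ⟨φ, a1, a2, a3, -⟩ := ht
  obtain ⟨c, c1, c2⟩ := f4 _ _ _ (hP.ok a1 a2 a3)
  exact hc (h.col2 h4 f1 (f3 c c1) f2 f2 a1 a2 a3 c2 a1 a2 a3 c2)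

theorem case3b {ι : Fin 16 → E} (h : G.QuoVia T3b π ι) (hoc : G.oc Set.univ ≤ 17) : False := by
  obtain ⟨f1, f2, f3, f4⟩ := f3b
  obtain ⟨⟨α, hP⟩, hA⟩ := h.kap f2
  have o1 := h.oc_one h4 f1
  obtain ⟨φ, a1, a2⟩ := hP.ne34 h4 hA (by omega)
  exact case3b_of h4 hc hv h0 h (ty_of a1 a2 (b := decide _) decide_eq_true_iff.symm)

theorem case2a {ι : Fin 17 → E} (h : G.QuoVia T2a π ι) (hoc : G.oc Set.univ ≤ 17) : False := by
  obtain ⟨f1, f2, f2', f3, f4⟩ := f2a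
  obtain ⟨⟨α, hP⟩, hA⟩ := h.kap f2
  obtain ⟨⟨β, hQ⟩, hB⟩ := h.kap f2'
  have o1 := h.oc_two h4 f1 (by decide)
  have o2 := h.odd_part (Y := {0}) (by rw [d_single_dg]; decide +kernel)
  have o3 := h.odd_part (Y := {1}) (by rw [d_single_dg]; decide +kernel)
  obtain ⟨-, z, hz, hz1⟩ := h.ni_part 1 (by decide)
  have hb := h.not_bad h4 hP (i := 1) (j := 2) (by decide) (fun w => decide (w = 0 ∨ w = 1))
    (by decide) (by decide +kernel) (by decide) (by decide) hv h0 hz (by rw [hz1]; decide)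
    (by rw [hz1]; decide) 4 (by decide) (by decide) (by decide)
  have hb' : ¬ G.Bad β 1 2 := by
    intro hb'
    have hβ : π (β 1) = 1 := hQ.mem 1
    have h1 := d_remove (X := π ⁻¹' {w | decide (w = 0 ∨ w = 1) = true}) (u := β 1)
      (by simp [hβ]) hb'.2 (fun h' => absurd (hQ.inj h') (by decide)) (hQ.mem_cut_single 1)
      (h.mem_cut' _ _ (by decide)) (hb'.1 ▸ hQ.mem_cut_single 2) (h.mem_cut' _ _ (by decide))
    rw [h.d_le] at h1
    have h2 : dg T2a (fun w => decide (w = 0 ∨ w = 1)) = 4 := by decide +kernel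
    obtain ⟨i, hi⟩ : ∃ i, β i ≠ β 1 := by
      by_contra hn
      push Not at hn
      exact hQ.not_bad3 h4 (i := 1) (j := 2) (k := 0) (by decide) (by decide) (by decide) hb'
        ⟨(hn 0).symm, hb'.2⟩
    have hi' : π (β i) = 1 := hQ.mem i
    refine h4.no_small (X := π ⁻¹' {w | decide (w = 0 ∨ w = 1) = true} \ {β 1}) (by omega) ?_ ?_
    · refine not_triv' (ni_of_d (by omega)) (hQ.ni i) (a := v) ⟨by simp [h0], ?_⟩
        ⟨by simp [hi'], hi⟩ (fun h' => by rw [← h', h0] at hi'; exact absurd hi' (by decide))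
      intro h'
      rw [← h', h0] at hβ
      exact absurd hβ (by decide)
    · exact h.not_triv_compl _ Set.sdiff_subset 4 (by decide) (by decide) (by decide)
  obtain ⟨φ, a1, a2, a3, a4⟩ := hP.tyU h4 hA (by omega) hb
  obtain ⟨ψ, b1, b2, b3, b4⟩ := hQ.tyU h4 hB (by omega) hb'
  obtain ⟨c, c1, c2, c3⟩ := f4 _ _ _ (hP.ok a1 a2 a3) (a4.mpr rfl) _ _ _ (hQ.ok b1 b2 b3)
    (b4.mpr rfl)
  exact hc (h.col2 h4 f1 (f3 c c1) f2 f2' a1 a2 a3 c2 b1 b2 b3 c3)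

theorem case2b_of {ι : Fin 17 → E} (h : G.QuoVia T2b π ι) {b : Bool}
    (ht : G.Ty (π ⁻¹' {0}) (fun i => ι (κA i)) b)
    (ht' : G.Ty (π ⁻¹' {2}) (fun i => ι (κ2b i)) (!b)) : False := by
  obtain ⟨f1, f2, f2', f3, f4⟩ := f2b
  obtain ⟨⟨α, hP⟩, hA⟩ := h.kap f2
  obtain ⟨⟨β, hQ⟩, hB⟩ := h.kap f2'
  obtain ⟨φ, a1, a2, a3, a4⟩ := ht
  obtain ⟨ψ, b1, b2, b3, b4⟩ := ht'
  obtain ⟨c, c1, c2, c3⟩ := f4 _ _ _ (hP.ok a1 a2 a3) _ _ _ (hQ.ok b1 b2 b3)
    (by rw [a4, b4]; cases b <;> simp)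
  exact hc (h.col2 h4 f1 (f3 c c1) f2 f2' a1 a2 a3 c2 b1 b2 b3 c3)

theorem case2b_bad {ι : Fin 17 → E} (h : G.QuoVia T2b π ι) {α β : Fin 5 → V}
    (hP : G.Pole (π ⁻¹' {0}) (fun i => ι (κA i)) α) (hQ : G.Pole (π ⁻¹' {2}) (fun i => ι (κ2b i)) β)
    (b1 : G.Bad α 1 2) (b2 : G.Bad β 1 2) : False := by
  have hα : π (α 1) = 0 := hP.mem 1
  have hβ : π (β 1) = 2 := hQ.mem 1
  have hne : β 1 ≠ α 1 := fun h' => by rw [h', hα] at hβ; exact absurd hβ (by decide)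
  have h1 := d_remove (X := π ⁻¹' {w | decide (w = 0 ∨ w = 1 ∨ w = 2) = true}) (u := α 1)
    (by simp [hα]) b1.2 (fun h' => absurd (hP.inj h') (by decide)) (hP.mem_cut_single 1)
    (h.mem_cut' _ _ (by decide)) (b1.1 ▸ hP.mem_cut_single 2) (h.mem_cut' _ _ (by decide))
  rw [h.d_le] at h1
  have h2 : dg T2b (fun w => decide (w = 0 ∨ w = 1 ∨ w = 2)) = 5 := by decide +kernel
  have key : ∀ i, β i = β 1 → ι (κ2b i) ∈ G.cut (π ⁻¹' {w | decide (w = 0 ∨ w = 1 ∨ w = 2) = true}) →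
      ι (κ2b i) ∈ G.cut (π ⁻¹' {w | decide (w = 0 ∨ w = 1 ∨ w = 2) = true} \ {α 1}) := by
    intro i hi he
    obtain ⟨b, j1, j2⟩ := hQ.jn i
    rw [j1.mem_cut, hi] at he ⊢
    have m1 : β 1 ∈ π ⁻¹' {w | decide (w = 0 ∨ w = 1 ∨ w = 2) = true} := by simp [hβ]
    simp only [Set.mem_sdiff, Set.mem_singleton_iff, m1, hne, true_iff, not_false_eq_true,
      and_self] at he ⊢
    tauto
  have h3 := d_remove (X := π ⁻¹' {w | decide (w = 0 ∨ w = 1 ∨ w = 2) = true} \ {α 1}) (u := β 1)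
    ⟨by simp [hβ], hne⟩ b2.2 (fun h' => absurd (hQ.inj h') (by decide)) (hQ.mem_cut_single 1)
    (key 1 rfl (h.mem_cut' _ _ (by decide))) (b2.1 ▸ hQ.mem_cut_single 2)
    (key 2 b2.1.symm (h.mem_cut' _ _ (by decide)))
  obtain ⟨-, z, hz, hz1⟩ := h.ni_part 2 (by decide)
  have hz2 : π z = 1 := hz1
  refine h4.no_small (X := (π ⁻¹' {w | decide (w = 0 ∨ w = 1 ∨ w = 2) = true} \ {α 1}) \ {β 1})
    (by omega) ?_ ?_
  · refine not_triv' (ni_of_d (by omega)) hz (a := v) ⟨⟨by simp [h0], ?_⟩, ?_⟩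
      ⟨⟨by simp [hz2], ?_⟩, ?_⟩ ?_
    · intro h'
      have := b1.2
      rw [← h'] at this
      omega
    · intro h'
      rw [← h', h0] at hβ
      exact absurd hβ (by decide)
    · intro h'
      rw [← h', hz2] at hα
      exact absurd hα (by decide)
    · intro h'
      rw [← h', hz2] at hβ
      exact absurd hβ (by decide)
    · intro h'
      rw [← h', h0] at hz2
      exact absurd hz2 (by decide)
  · exact h.not_triv_compl _ (Set.sdiff_subset.trans Set.sdiff_subset) 5 (by decide) (by decide)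
      (by decide)

theorem case2b {ι : Fin 17 → E} (h : G.QuoVia T2b π ι) (hoc : G.oc Set.univ ≤ 17) : False := by
  obtain ⟨f1, f2, f2', f3, f4⟩ := f2b
  obtain ⟨⟨α, hP⟩, hA⟩ := h.kap f2
  obtain ⟨⟨β, hQ⟩, hB⟩ := h.kap f2'
  have o1 := h.oc_two h4 f1 (by decide)
  have o2 := h.odd_part (Y := {0}) (by rw [d_single_dg]; decide +kernel)
  have o3 := h.odd_part (Y := {2}) (by rw [d_single_dg]; decide +kernel)
  by_cases b1 : G.Bad α 1 2
  · exact case2b_of h4 hc hv h0 h (hP.tyW_bad h4 hA (by omega) b1)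
      (hQ.tyU h4 hB (by omega) (case2b_bad h4 hc hv h0 h hP hQ b1))
  by_cases b2 : G.Bad β 1 2
  · exact case2b_of h4 hc hv h0 h (hP.tyU h4 hA (by omega) b1) (hQ.tyW_bad h4 hB (by omega) b2)
  by_cases o4 : G.oc (π ⁻¹' {0}) ≤ 6
  · exact case2b_of h4 hc hv h0 h (hP.tyW h4 hA o4) (hQ.tyU h4 hB (by omega) b2)
  · exact case2b_of h4 hc hv h0 h (hP.tyU h4 hA (by omega) b1) (hQ.tyW h4 hB (by omega))

end cases

theorem lift_cases (h4 : G.E4) {c1 c2 : E} {v x y : V} (h12 : c1 ≠ c2) (j1 : G.Joins c1 v x)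
    (j2 : G.Joins c2 v y) (hv : 4 ≤ G.d {v}) (h : (G.split c1 c2 v x y).Quo Pet) :
    ∃ π : V → Fin 10, π v = 0 ∧ ((∃ ι, G.QuoVia T3a π ι) ∨ (∃ ι, G.QuoVia T3b π ι) ∨
      (∃ ι, G.QuoVia T2a π ι) ∨ (∃ ι, G.QuoVia T2b π ι)) := by
  obtain ⟨π, ι, h⟩ := h
  obtain ⟨g, g1, g2, g3⟩ := auts_tr (π v) (π x) (π y) (by
    by_cases hxy : π x = π y
    · exact Or.inl hxy
    · obtain ⟨k, hk⟩ := h.c1_mem hxy
      exact Or.inr ⟨k, h.c1_joins hk⟩)
  have h' := h.trans (auts_iso g g1).quo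
  set π' : V → Fin 10 := (fun i : Fin 10 => hx 10 g.1 i) ∘ π with hπ
  have e0 : π' v = 0 := g2
  change (π' x, π' y) ∈ _ at g3
  generalize ι ∘ _ = ι' at h'
  generalize π' = ρ at *
  refine ⟨ρ, e0, ?_⟩
  have l2' := h'.lift2 Pet_nl h12 j1 j2
  have l3' : ρ x ≠ ρ y → ∃ k, ((Pet.s k = ρ x ∧ Pet.t k = ρ y) ∨ (Pet.s k = ρ y ∧ Pet.t k = ρ x)) ∧
      G.QuoVia (l3 Pet k (ρ v) (ρ x) (ρ y)) ρ (Fin.cons c2 ι') := by
    intro hxy
    obtain ⟨k, hk⟩ := h'.c1_mem hxy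
    exact ⟨k, h'.c1_joins hk, h'.lift3 Pet_nl h12 j1 j2 hk⟩
  simp only [List.mem_cons, Prod.mk.injEq, List.not_mem_nil, or_false] at g3
  rw [e0] at l2' l3'
  rcases g3 with ⟨a, b⟩ | ⟨a, b⟩ | ⟨a, b⟩ | ⟨a, b⟩ | ⟨a, b⟩ | ⟨a, b⟩ | ⟨a, b⟩ | ⟨a, b⟩ <;>
    rw [a, b] at l2' l3'
  · exact ((l2' rfl).deg3 h4 hv (by rw [e0]; decide +kernel) 4 (by decide) (by rw [e0]; decide)
      (by rw [e0]; decide)).elim
  · exact Or.inr (Or.inr (Or.inl ⟨_, l2' rfl⟩))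
  · exact Or.inr (Or.inr (Or.inr ⟨_, l2' rfl⟩))
  · obtain ⟨k, k1, k2⟩ := l3' (by decide)
    obtain rfl : k = 0 := by clear k2; revert k1; revert k; decide +kernel
    exact (k2.deg3 h4 hv (by rw [e0]; decide +kernel) 4 (by decide) (by rw [e0]; decide)
      (by rw [e0]; decide)).elim
  · obtain ⟨k, k1, k2⟩ := l3' (by decide)
    obtain rfl : k = 0 := by clear k2; revert k1; revert k; decide +kernel
    exact (k2.deg3 h4 hv (by rw [e0]; decide +kernel) 4 (by decide) (by rw [e0]; decide)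
      (by rw [e0]; decide)).elim
  · obtain ⟨k, k1, k2⟩ := l3' (by decide)
    obtain rfl : k = 1 := by clear k2; revert k1; revert k; decide +kernel
    exact Or.inl ⟨_, k2⟩
  · obtain ⟨k, k1, k2⟩ := l3' (by decide)
    obtain rfl : k = 1 := by clear k2; revert k1; revert k; decide +kernel
    exact Or.inl ⟨_, k2.trans swap3a.quo⟩
  · obtain ⟨k, k1, k2⟩ := l3' (by decide)
    obtain rfl : k = 2 := by clear k2; revert k1; revert k; decide +kernel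
    exact Or.inr (Or.inl ⟨_, k2⟩)

theorem t16 (hb : G.Bl) (hoc : G.oc Set.univ ≤ 17) (hc : ¬ G.Col) : G.Quo Pet := by
  refine reduce2 (fun G => G.Quo Pet) 16 (fun _ _ h => h.of_map) ?_ ?_ G hb ?_ hc
  · intro V E _ _ G h4 hp ht hq hcu hoc hc
    exact base16 ⟨h4, hp, ht, hq, hcu⟩ hoc hc
  · intro V E _ _ G h4 hp hoc hc c1 c2 v x y h12 j1 n1 j2 n2 hv hg h
    obtain ⟨π, h0, ⟨ι, h⟩ | ⟨ι, h⟩ | ⟨ι, h⟩ | ⟨ι, h⟩⟩ := lift_cases h4 h12 j1 j2 hv h
    · exact (case3a h4 hc hv h0 h (by omega)).elim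
    · exact (case3b h4 hc hv h0 h (by omega)).elim
    · exact (case2a h4 hc hv h0 h (by omega)).elim
    · exact (case2b h4 hc hv h0 h (by omega)).elim
  · have := oc_even (G := G)
    rw [Nat.even_iff] at this
    omega

end MG

end

end Pool.Agent.Lib.MP_aa6b05_co
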