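import Pool.Agent.Lib.MP_aa6b05_co.Modes

set_option maxRecDepth 100000

namespace Pool.Agent.Lib.MP_aa6b05_co.S.N16

def cP : List T4 := [⟨103443233185277998863774442717022036126086368368978403834562278710748481268209764253302834,325702574508064,4835389144820709689376,10928764961371803749441⟩]

def cE : List T4 := []

noncomputable def lf : Nat → Nat → Bool := leafQ cP cE

end Pool.Agent.Lib.MP_aa6b05_co.S.N16
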