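import Pool.Agent.Lib.MP_aa6b05_co.Induct

set_option linter.unusedSectionVars false
set_option linter.unusedVariables false
set_option linter.unusedSimpArgs false
set_option synthInstance.maxSize 4096

namespace Pool.Agent.Lib.MP_aa6b05_co

open Finset

def Pet : MG (Fin 10) (Fin 15) where
  s := ![0,1,2,3,4,5,6,7,8,9,0,1,2,3,4]
  t := ![1,2,3,4,0,7,8,9,5,6,5,6,7,8,9]

/-- the Petersen graph with the edge `01` contracted to the vertex `0`, and `9` renamed `1` -/
def Pe : MG (Fin 9) (Fin 14) where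
  s := ![0,2,3,4,5,6,7,8,1,0,0,2,3,4]
  t := ![2,3,4,0,7,8,1,5,6,5,6,7,8,1]

open scoped Classical

noncomputable section

namespace MG

variable {V E : Type} [Fintype V] [Fintype E] {G : MG V E}

structure QuoVia (G : MG V E) {W F : Type} (H : MG W F) (π : V → W) (ι : F → E) : Prop where
  inj : Function.Injective ι
  jn : ∀ k, (G.map π).Joins (ι k) (H.s k) (H.t k)
  lp : ∀ e, (∀ k, ι k ≠ e) → π (G.s e) = π (G.t e)

def Quo (G : MG V E) {W F : Type} (H : MG W F) : Prop := ∃ π ι, G.QuoVia H π ι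

variable {W F : Type} [Fintype W] [Fintype F] {H : MG W F} {π : V → W} {ι : F → E}

theorem QuoVia.of_map {V' : Type} [Fintype V'] {ρ : V → V'} {π : V' → W}
    (h : (G.map ρ).QuoVia H π ι) : G.QuoVia H (π ∘ ρ) ι :=
  ⟨h.inj, h.jn, h.lp⟩

theorem Quo.of_map {V' : Type} [Fintype V'] {ρ : V → V'} (h : (G.map ρ).Quo H) : G.Quo H := by
  obtain ⟨π, ι, h⟩ := h
  exact ⟨_, _, h.of_map⟩

theorem QuoVia.trans {W' F' : Type} [Fintype W'] [Fintype F'] {H' : MG W' F'} {π' : W → W'}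
    {ι' : F' → F} (h : G.QuoVia H π ι) (h' : H.QuoVia H' π' ι') :
    G.QuoVia H' (π' ∘ π) (ι ∘ ι') := by
  refine ⟨h.inj.comp h'.inj, fun k => ?_, fun e he => ?_⟩
  · have a := h.jn (ι' k)
    have b := h'.jn k
    unfold Joins MG.map at *
    simp only [Function.comp] at *
    rcases a with ⟨a1, a2⟩ | ⟨a1, a2⟩ <;> rcases b with ⟨b1, b2⟩ | ⟨b1, b2⟩ <;>
      rw [a1, a2] <;> tauto
  · by_cases h1 : ∃ k, ι k = e
    · obtain ⟨k, rfl⟩ := h1
      have a := h.jn k
      have b := h'.lp k (fun j hj => he j (by simp [hj]))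
      unfold Joins MG.map at a
      simp only [Function.comp] at *
      rcases a with ⟨a1, a2⟩ | ⟨a1, a2⟩ <;> rw [a1, a2]
      · exact b
      · exact b.symm
    · push Not at h1
      simp only [Function.comp]
      rw [h.lp e h1]

theorem Quo.trans {W' F' : Type} [Fintype W'] [Fintype F'] {H' : MG W' F'}
    (h : G.Quo H) (h' : H.Quo H') : G.Quo H' := by
  obtain ⟨π, ι, h⟩ := h
  obtain ⟨π', ι', h'⟩ := h'
  exact ⟨_, _, h.trans h'⟩

theorem QuoVia.mem_cut (h : G.QuoVia H π ι) (Y : Set W) (k : F) :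
    ι k ∈ G.cut (π ⁻¹' Y) ↔ k ∈ H.cut Y := by
  rw [← cut_map, (h.jn k).mem_cut, MG.mem_cut]

theorem QuoVia.cut_eq (h : G.QuoVia H π ι) (Y : Set W) :
    G.cut (π ⁻¹' Y) = (H.cut Y).map ⟨ι, h.inj⟩ := by
  ext e
  simp only [mem_map, Function.Embedding.coeFn_mk]
  constructor
  · intro he
    by_cases h1 : ∃ k, ι k = e
    · obtain ⟨k, rfl⟩ := h1
      exact ⟨k, (h.mem_cut Y k).mp he, rfl⟩
    · push Not at h1
      have := h.lp e h1
      rw [MG.mem_cut] at he
      simp only [Set.mem_preimage, this] at he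
      tauto
  · rintro ⟨k, hk, rfl⟩
    exact (h.mem_cut Y k).mpr hk

theorem QuoVia.d_eq (h : G.QuoVia H π ι) (Y : Set W) : G.d (π ⁻¹' Y) = H.d Y := by
  unfold d
  rw [h.cut_eq, card_map]

theorem QuoVia.sum_cut {M : Type} [AddCommMonoid M] (h : G.QuoVia H π ι) (Y : Set W) (φ : E → M) :
    ∑ e ∈ G.cut (π ⁻¹' Y), φ e = ∑ k ∈ H.cut Y, φ (ι k) := by
  rw [h.cut_eq, sum_map]
  rfl

theorem QuoVia.oc_le (h : G.QuoVia H π ι) : H.oc Set.univ ≤ G.oc Set.univ := by
  refine le_trans ?_ (oc_map_le π)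
  apply le_of_eq
  unfold oc
  congr 1
  ext w
  simp only [mem_filter, mem_univ, true_and]
  rw [d_map, h.d_eq]

theorem QuoVia.col (h : G.QuoVia H π ι) (ψ : F → K) (hψ : ∀ k, ψ k ≠ 0)
    (hp : ∀ w : W, ∃ φ, G.Loc (π ⁻¹' {w}) φ ∧ ∀ k ∈ H.cut {w}, φ (ι k) = ψ k) : G.Col := by
  choose φ h1 h2 using hp
  refine ⟨fun e => if he : ∃ k, ι k = e then (if e ∈ G.cut (π ⁻¹' {π (G.s e)}) then ψ he.choose
    else φ (π (G.s e)) e) else φ (π (G.s e)) e, ?_, fun v _ => ?_⟩
  · intro e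
    dsimp only
    split_ifs
    · exact hψ _
    · exact (h1 _).1 e
    · exact (h1 _).1 e
  · rw [← (h1 (π v)).2 v rfl]
    apply df_congr
    intro e he
    obtain ⟨x, hj, hvx⟩ := exists_other he
    by_cases hc : e ∈ G.cut (π ⁻¹' {π (G.s e)})
    · have hx : π x ≠ π v := by
        intro hx
        rw [hj.mem_cut] at hc
        simp only [Set.mem_preimage, Set.mem_singleton_iff, hx] at hc
        tauto
      have hc' : e ∈ G.cut (π ⁻¹' {π v}) := by
        rw [hj.mem_cut]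
        simp [hx]
      have hc2 := hc'
      rw [h.cut_eq, mem_map] at hc2
      obtain ⟨k, hk, hke⟩ := hc2
      have he' : ∃ k, ι k = e := ⟨k, hke⟩
      rw [dif_pos he', if_pos hc]
      have : he'.choose = k := h.inj (he'.choose_spec.trans hke.symm)
      rw [this, ← h2 _ k hk]
      exact congrArg _ hke
    · have hs : π (G.s e) = π v := by
        rcases hj with ⟨a, b⟩ | ⟨a, b⟩
        · rw [a]
        · rw [MG.mem_cut] at hc
          simp only [Set.mem_preimage, Set.mem_singleton_iff, true_iff, not_not] at hc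
          rw [← hc, b]
      rw [← hs]
      simp only [if_neg hc, dite_eq_ite, ite_self]

theorem QuoVia.triv_part (h : G.QuoVia H π ι) (ψ : F → K) (hψ : ∀ k, ψ k ≠ 0) {Y : Set W}
    (ht : G.Triv (π ⁻¹' Y)) (hs : ∑ k ∈ H.cut Y, ψ k = 0) :
    ∃ φ, G.Loc (π ⁻¹' Y) φ ∧ ∀ k ∈ H.cut Y, φ (ι k) = ψ k := by
  have key : ∀ k, (if he : ∃ j, ι j = ι k then ψ he.choose else K.k1) = ψ k := by
    intro k
    have he : ∃ j, ι j = ι k := ⟨k, rfl⟩
    rw [dif_pos he, h.inj he.choose_spec]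
  refine ⟨fun e => if he : ∃ k, ι k = e then ψ he.choose else K.k1, ht.loc ?_ ?_, fun k _ => key k⟩
  · intro e
    split_ifs
    · exact hψ _
    · exact (by decide : K.k1 ≠ 0)
  · rw [h.sum_cut]
    simp only [key, hs]

end MG

end

end Pool.Agent.Lib.MP_aa6b05_co
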