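import Pool.Agent.Lib.MP_aa6b05_co.Basic

set_option linter.unusedSectionVars false
set_option linter.unusedVariables false
set_option linter.unusedSimpArgs false
set_option synthInstance.maxSize 4096

namespace Pool.Agent.Lib.MP_aa6b05_co

open Finset

theorem K.three (a b c a' b' c' : K) (ha : a ≠ 0) (hb : b ≠ 0) (hc : c ≠ 0) (ha' : a' ≠ 0)
    (hb' : b' ≠ 0) (hc' : c' ≠ 0) (h : a + (b + c) = 0) (h' : a' + (b' + c') = 0) :
    ∃ σ, GoodAut σ ∧ σ a = a' ∧ σ b = b' ∧ σ c = c' := by
  have e1 : ∀ a b c : K, c ≠ 0 → a + (b + c) = 0 → a ≠ b ∧ c = a + b := by decide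
  obtain ⟨σ, hσ, h1, h2⟩ := exists_aut_two a b a' b' ha hb (e1 a b c hc h).1 ha' hb'
    (e1 a' b' c' hc' h').1
  refine ⟨σ, hσ, h1, h2, ?_⟩
  rw [(e1 a b c hc h).2, (e1 a' b' c' hc' h').2, hσ.1, h1, h2]

theorem K.eq_of_add_eq_zero {a b : K} (h : a + b = 0) : a = b := by revert a b; decide

theorem K.two (s : K) : ∃ x y : K, x ≠ 0 ∧ y ≠ 0 ∧ s + (x + y) = 0 := by revert s; decide

theorem K.tri (s0 s1 s2 : K) (h : s0 + (s1 + s2) = 0) : ∃ x y z : K, x ≠ 0 ∧ y ≠ 0 ∧ z ≠ 0 ∧
    s0 + (x + z) = 0 ∧ s1 + (x + y) = 0 ∧ s2 + (y + z) = 0 := by revert s0 s1 s2; decide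

theorem K.quad (s0 s1 s2 s3 : K) (h : s0 + (s1 + (s2 + s3)) = 0) :
    (∃ x y z w : K, x ≠ 0 ∧ y ≠ 0 ∧ z ≠ 0 ∧ w ≠ 0 ∧
      s0 + (x + w) = 0 ∧ s1 + (x + y) = 0 ∧ s2 + (y + z) = 0 ∧ s3 + (z + w) = 0) ∨
    (s0 ≠ 0 ∧ s1 ≠ 0 ∧ s0 ≠ s1 ∧ s2 = s0 ∧ s3 = s1) := by revert s0 s1 s2 s3; decide +kernel

/-- the functional with kernel `{0, x}` -/
def lam (x y : K) : ZMod 2 := if y = 0 ∨ y = x then 0 else 1

theorem lam_add (x : K) (hx : x ≠ 0) (y z : K) : lam x (y + z) = lam x y + lam x z := by
  revert x y z; decide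

def sm (j : ZMod 2) (x : K) : K := if j = 0 then 0 else x

theorem sm_add (x : K) (i j : ZMod 2) : sm (i + j) x = sm i x + sm j x := by
  revert x i j; decide

theorem kempe_ne (x y : K) (j : ZMod 2) (hy : y ≠ 0) (h : j ≠ 0 → lam x y ≠ 0) :
    y + sm j x ≠ 0 := by
  revert x y j; decide

theorem zmod2_cases (j : ZMod 2) : j = 0 ∨ j = 1 := by revert j; decide

open scoped Classical

noncomputable section

namespace MG

variable {V E : Type} [Fintype V] [Fintype E] {G : MG V E}

theorem df_add {M : Type} [AddCommMonoid M] (φ ψ : E → M) (v : V) :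
    G.df (fun e => φ e + ψ e) v = G.df φ v + G.df ψ v := sum_add_distrib

theorem df_hom {M N : Type} [AddCommGroup M] [AddCommGroup N] (f : M → N)
    (hf : ∀ x y, f (x + y) = f x + f y) (φ : E → M) (v : V) :
    G.df (fun e => f (φ e)) v = f (G.df φ v) :=
  (map_sum (AddMonoidHom.mk' f hf) φ (G.cut {v})).symm

theorem df_single {M : Type} [AddCommGroup M] (h2 : ∀ x : M, x + x = 0) {e : E} {a b : V}
    (hj : G.Joins e a b) (x : M) (v : V) :
    G.df (fun f => if f = e then x else 0) v = (if v = a then x else 0) + (if v = b then x else 0) := by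
  unfold df
  rw [sum_ite_eq']
  simp only [hj.mem_cut, Set.mem_singleton_iff]
  by_cases h1 : a = v <;> by_cases h3 : b = v
  · subst h1; subst h3; simp [h2]
  · subst h1; simp [h3, Ne.symm h3]
  · subst h3; simp [h1, Ne.symm h1]
  · simp [h1, h3, Ne.symm h1, Ne.symm h3]

theorem tjoin (J0 : E → ZMod 2) (u : V) (hu : G.df J0 u ≠ 0) :
    ∃ w, w ≠ u ∧ G.df J0 w ≠ 0 ∧ ∃ J : E → ZMod 2, (∀ e, J e ≠ 0 → J0 e ≠ 0) ∧
      ∀ v, G.df J v = (if v = u then 1 else 0) + (if v = w then 1 else 0) := by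
  set R : Set V := {w | ∃ J : E → ZMod 2, (∀ e, J e ≠ 0 → J0 e ≠ 0) ∧
      ∀ v, G.df J v = (if v = u then 1 else 0) + (if v = w then 1 else 0)} with hR
  have huR : u ∈ R := ⟨fun _ => 0, by simp, fun v => by simp [df, zmod2_add_self]⟩
  have hcl : ∀ e ∈ G.cut R, J0 e = 0 := by
    intro e he
    by_contra h0
    obtain ⟨a, b, hj, ⟨J, hJ1, hJ2⟩, hb⟩ := exists_joins_of_mem_cut he
    apply hb
    refine ⟨fun f => J f + (if f = e then 1 else 0), ?_, ?_⟩
    · intro f hf
      by_cases hfe : f = e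
      · rw [hfe]; exact h0
      · apply hJ1
        simpa [hfe] using hf
    · intro v
      rw [df_add, hJ2, df_single zmod2_add_self hj]
      have := zmod2_add_self (if v = a then (1 : ZMod 2) else 0)
      linear_combination this
  by_contra hcon
  push Not at hcon
  have h1 := sum_cut_eq_one (G := G) zmod2_add_self (φ := J0) huR (by
    intro v hv hvu
    by_contra h
    obtain ⟨J, hJ1, hJ2⟩ := hv
    obtain ⟨x, hx⟩ := hcon v hvu h J hJ1
    exact hx (hJ2 x))
  rw [sum_eq_zero hcl] at h1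
  exact hu h1.symm

theorem df_zero_of_two {φ : E → K} {u w : V} (h : ∀ v, v ≠ u → v ≠ w → G.df φ v = 0)
    {X : Set V} (hu : u ∈ X) (hw : w ∉ X) (hX : ∑ e ∈ G.cut X, φ e = 0) : ∀ v, G.df φ v = 0 := by
  have h1 := sum_cut_eq_one (G := G) K.add_self (φ := φ) hu
    (fun v hv hvu => h v hvu (fun h' => hw (h' ▸ hv)))
  have h2 := sum_cut_eq_one (G := G) K.add_self (φ := φ) (X := Xᶜ) hw
    (fun v hv hvw => h v (fun h' => hv (h' ▸ hu)) hvw)
  rw [cut_compl] at h2
  intro v
  by_cases hvu : v = u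
  · rw [hvu, ← h1, hX]
  · by_cases hvw : v = w
    · rw [hvw, ← h2, hX]
    · exact h v hvu hvw

/-- contraction of a vertex set to the new vertex `none` -/
def con (X : Set V) (v : V) : Option V := if v ∈ X then none else some v

theorem loc_of_con {X : Set V} {φ : E → K} (h : (G.map (con X)).Loc Set.univ φ) : G.Loc Xᶜ φ := by
  refine ⟨h.1, fun v hv => ?_⟩
  rw [← df_map (con X) φ v]
  · exact h.2 _ trivial
  · intro u hu
    have hv' : v ∉ X := hv
    unfold con at hu
    rw [if_neg hv'] at hu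
    split_ifs at hu
    exact Option.some.inj hu

theorem m_con_lt {X : Set V} {e : E} {a b : V} (hj : G.Joins e a b) (hab : a ≠ b) (ha : a ∈ X)
    (hb : b ∈ X) : (G.map (con X)).m < G.m := by
  apply m_map_lt _ e (hj.ne hab)
  rcases hj with ⟨h1, h2⟩ | ⟨h1, h2⟩ <;> simp [con, h1, h2, ha, hb]

theorem col_of_two_cut {X : Set V} {e f : E} {a b : V} (hX : G.cut X = {e, f}) (hef : e ≠ f)
    (hj : G.Joins e a b) (ha : a ∈ X) (hb : b ∉ X) (h : (G.map (con {a, b})).Col) : G.Col := by
  obtain ⟨φ, hφ⟩ := h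
  have h1 := loc_of_con hφ
  refine ⟨fun g => if g = e then φ f else φ g, ?_, fun v _ => ?_⟩
  · intro g
    dsimp only
    split_ifs
    · exact h1.1 f
    · exact h1.1 g
  · refine df_zero_of_two (u := a) (w := b) ?_ ha hb ?_ v
    · intro v hva hvb
      rw [← h1.2 v (by simp [hva, hvb])]
      apply df_congr
      intro g hg
      rw [if_neg]
      rintro rfl
      rw [hj.mem_cut] at hg
      simp [Ne.symm hva, Ne.symm hvb] at hg
    · rw [hX, sum_pair hef]
      simp [hef.symm, K.add_self]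

theorem col_of_small_cut {X : Set V} (hd : G.d X = 0 ∨ G.d X = 3)
    (h1 : (G.map (con X)).Col) (h2 : (G.map (con Xᶜ)).Col) : G.Col := by
  obtain ⟨φ, hφ⟩ := h1
  obtain ⟨ψ, hψ⟩ := h2
  have a1 := loc_of_con hφ
  have a2 := loc_of_con hψ
  rw [compl_compl] at a2
  rcases hd with hd | hd
  · apply col_of_two a2 a1
    rw [card_eq_zero.mp hd]
    simp
  · obtain ⟨x, y, z, hxy, hxz, hyz, hc⟩ := card_eq_three.mp hd
    have s1 := a1.sum_cut (X := Xᶜ) subset_rfl
    have s2 := a2.sum_cut (X := X) subset_rfl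
    rw [cut_compl] at s1
    rw [hc, sum_insert (by simp [hxy, hxz]), sum_pair hyz] at s1 s2
    obtain ⟨σ, hσ, b1, b2, b3⟩ := K.three _ _ _ _ _ _ (a2.1 x) (a2.1 y) (a2.1 z) (a1.1 x) (a1.1 y)
      (a1.1 z) s2 s1
    apply col_of_two (a2.aut hσ) a1
    rw [hc]
    intro e he
    simp only [mem_insert, mem_singleton] at he
    rcases he with rfl | rfl | rfl <;> assumption

theorem inner_edge_of_not_triv (h12 : ∀ X, G.d X ≠ 1 ∧ G.d X ≠ 2) {X : Set V} (hd : G.d X ≤ 3)
    (hX : ¬ G.Triv X) [Nonempty V] : ∃ e a b, G.Joins e a b ∧ a ≠ b ∧ a ∈ X ∧ b ∈ X := by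
  by_contra hcon
  push Not at hcon
  apply hX
  have key : ∀ e a b, G.Joins e a b → a ≠ b → a ∈ X → G.cut {a} = G.cut X := by
    intro e a b hj hab ha
    apply eq_of_subset_of_card_le
    · intro f hf
      obtain ⟨c, d, hj', hc, hd⟩ := exists_joins_of_mem_cut hf
      rw [Set.mem_singleton_iff] at hc hd
      subst hc
      rw [hj'.mem_cut]
      have := hcon f c d hj' (Ne.symm hd) ha
      tauto
    · have h0 : e ∈ G.cut {a} := by rw [hj.mem_cut]; simp [hab.symm]
      have h1 : 0 < G.d {a} := card_pos.mpr ⟨e, h0⟩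
      have := h12 {a}
      change G.d X ≤ G.d {a}
      omega
  by_cases hex : ∃ e a b, G.Joins e a b ∧ a ≠ b ∧ a ∈ X
  · obtain ⟨e, a, b, hj, hab, ha⟩ := hex
    have aux : ∀ f c d, G.Joins f c d → c ≠ d → c ∈ X → c = a := by
      intro f c d hj' hcd hc
      by_contra hca
      have h0 : e ∈ G.cut {a} := by rw [hj.mem_cut]; simp [hab.symm]
      rw [key e a b hj hab ha, ← key f c d hj' hcd hc, hj.mem_cut] at h0
      simp only [Set.mem_singleton_iff] at h0
      have hbc : b = c := by
        by_contra h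
        exact h0 ⟨fun h' => absurd h'.symm hca, fun h' => absurd h' h⟩
      exact hcon e a b hj hab ha (hbc ▸ hc)
    exact ⟨a, fun f hf => ⟨aux f _ _ (joins_self f) hf, aux f _ _ (joins_self f).symm hf.symm⟩⟩
  · push Not at hex
    exact ⟨Classical.arbitrary V, fun f hf => ⟨fun h => absurd h (hex f _ _ (joins_self f) hf),
      fun h => absurd h (hex f _ _ (joins_self f).symm hf.symm)⟩⟩

/-- overwrite the values on a list of edges -/
theorem df_split {M : Type} [AddCommGroup M] (φ : E → M) (C : Finset E) (v : V) :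
    G.df φ v = G.df (fun e => if e ∈ C then 0 else φ e) v + G.df (fun e => if e ∈ C then φ e else 0) v := by
  rw [← df_add]
  apply df_congr
  intro e _
  split_ifs <;> simp

def NoPar (G : MG V E) : Prop := ∀ e f a b, e ≠ f → a ≠ b → G.Joins e a b → ¬ G.Joins f a b

def NoTri (G : MG V E) : Prop := ∀ e f g a b c, a ≠ b → b ≠ c → a ≠ c →
  G.Joins e a b → G.Joins f b c → ¬ G.Joins g c a

def NoQuad (G : MG V E) : Prop := ∀ e f g h a b c d, a ≠ b → a ≠ c → a ≠ d → b ≠ c → b ≠ d →
  c ≠ d → G.Joins e a b → G.Joins f b c → G.Joins g c d → ¬ G.Joins h d a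

theorem sum_df_set {φ : E → K} {X : Set V} (S : Finset V) (hS : ∀ v, v ∈ S ↔ v ∈ X) (C : Finset E)
    (hC : ∀ e ∈ C, e ∉ G.cut X) (h : G.Loc Xᶜ φ) :
    ∑ v ∈ S, G.df (fun e => if e ∈ C then 0 else φ e) v = 0 := by
  have h1 := sum_cut (G := G) K.add_self (fun e => if e ∈ C then 0 else φ e) X
  have h2 : univ.filter (fun v => v ∈ X) = S := by ext v; simp [hS]
  rw [h2] at h1
  unfold df
  rw [← h1]
  have h3 := h.sum_cut (X := Xᶜ) subset_rfl
  rw [cut_compl] at h3
  rw [← h3]
  apply sum_congr rfl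
  intro e he
  rw [if_neg (fun h => hC e h he)]

theorem col_of_par {e f : E} {a b : V} (hef : e ≠ f) (hab : a ≠ b) (he : G.Joins e a b)
    (hf : G.Joins f a b) (h : (G.map (con {a, b})).Col) : G.Col := by
  obtain ⟨φ, hφ⟩ := h
  have h1 := loc_of_con hφ
  set ψ : E → K := fun g => if g ∈ ({e, f} : Finset E) then 0 else φ g with hψ
  have hs := sum_df_set (G := G) (X := {a, b}) {a, b} (by simp) {e, f} (by
    intro g hg
    simp only [mem_insert, mem_singleton] at hg
    rcases hg with rfl | rfl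
    · rw [he.mem_cut]; simp
    · rw [hf.mem_cut]; simp) h1
  rw [sum_pair hab, ← hψ] at hs
  have hs' := K.eq_of_add_eq_zero hs
  obtain ⟨x, y, hx, hy, hxy⟩ := K.two (G.df ψ a)
  refine ⟨fun g => ψ g + ((if g = e then x else 0) + (if g = f then y else 0)), ?_, fun v _ => ?_⟩
  · intro g
    by_cases h1' : g = e
    · subst h1'; simp [hψ, hef, hx]
    · by_cases h2' : g = f
      · subst h2'; simp [hψ, h1', hy]
      · simp [hψ, h1', h2', h1.1 g]
  · rw [df_add, df_add, df_single K.add_self he, df_single K.add_self hf]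
    by_cases hva : v = a
    · subst hva; simpa [hab] using hxy
    · by_cases hvb : v = b
      · subst hvb; rw [← hs']; simpa [hva] using hxy
      · simp only [hva, hvb, if_false, add_zero]
        rw [← h1.2 v (by simp [hva, hvb])]
        apply df_congr
        intro g hg
        simp only [hψ]
        rw [if_neg]
        simp only [mem_insert, mem_singleton]
        rintro (rfl | rfl)
        · rw [he.mem_cut] at hg; simp [Ne.symm hva, Ne.symm hvb] at hg
        · rw [hf.mem_cut] at hg; simp [Ne.symm hva, Ne.symm hvb] at hg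

theorem Joins.ne_edge {e f : E} {a b c d : V} (he : G.Joins e a b) (hf : G.Joins f c d)
    (h1 : a ≠ c) (h2 : a ≠ d) : e ≠ f := by
  rintro rfl
  rcases he with ⟨a1, a2⟩ | ⟨a1, a2⟩ <;> rcases hf with ⟨b1, b2⟩ | ⟨b1, b2⟩
  · exact h1 (a1.symm.trans b1)
  · exact h2 (a1.symm.trans b1)
  · exact h2 (a2.symm.trans b2)
  · exact h1 (a2.symm.trans b2)

theorem col_of_tri {e f g : E} {a b c : V} (hab : a ≠ b) (hbc : b ≠ c) (hac : a ≠ c)
    (he : G.Joins e a b) (hf : G.Joins f b c) (hg : G.Joins g c a)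
    (h : (G.map (con {a, b, c})).Col) : G.Col := by
  obtain ⟨φ, hφ⟩ := h
  have h1 := loc_of_con hφ
  have hef : e ≠ f := he.ne_edge hf hab hac
  have hfg : f ≠ g := hf.ne_edge hg hbc hab.symm
  have heg : e ≠ g := he.symm.ne_edge hg hbc hab.symm
  set ψ : E → K := fun k => if k ∈ ({e, f, g} : Finset E) then 0 else φ k with hψ
  have hs := sum_df_set (G := G) (X := {a, b, c}) {a, b, c} (by simp) {e, f, g} (by
    intro k hk
    simp only [mem_insert, mem_singleton] at hk
    rcases hk with rfl | rfl | rfl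
    · rw [he.mem_cut]; simp
    · rw [hf.mem_cut]; simp
    · rw [hg.mem_cut]; simp) h1
  rw [sum_insert (by simp [hab, hac]), sum_pair hbc, ← hψ] at hs
  obtain ⟨x, y, z, hx, hy, hz, s1, s2, s3⟩ := K.tri _ _ _ hs
  refine ⟨fun k => ψ k + ((if k = e then x else 0) + ((if k = f then y else 0) +
    (if k = g then z else 0))), ?_, fun v _ => ?_⟩
  · intro k
    by_cases h1' : k = e
    · subst h1'; simp [hψ, hef, heg, hx]
    · by_cases h2' : k = f
      · subst h2'; simp [hψ, h1', hfg, hy]
      · by_cases h3' : k = g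
        · subst h3'; simp [hψ, h1', h2', hz]
        · simp [hψ, h1', h2', h3', h1.1 k]
  · rw [df_add, df_add, df_add, df_single K.add_self he, df_single K.add_self hf,
      df_single K.add_self hg]
    by_cases hva : v = a
    · subst hva; simpa [hab, hac] using s1
    · by_cases hvb : v = b
      · subst hvb; simpa [hva, hbc] using s2
      · by_cases hvc : v = c
        · subst hvc; simpa [hva, hvb] using s3
        · simp only [hva, hvb, hvc, if_false, add_zero]
          rw [← h1.2 v (by simp [hva, hvb, hvc])]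
          apply df_congr
          intro k hk
          simp only [hψ]
          rw [if_neg]
          simp only [mem_insert, mem_singleton]
          rintro (rfl | rfl | rfl)
          · rw [he.mem_cut] at hk; simp [Ne.symm hva, Ne.symm hvb] at hk
          · rw [hf.mem_cut] at hk; simp [Ne.symm hvc, Ne.symm hvb] at hk
          · rw [hg.mem_cut] at hk; simp [Ne.symm hvc, Ne.symm hva] at hk

theorem K.quad2 (s0 s1 : K) (h0 : s0 ≠ 0) (h1 : s1 ≠ 0) (h01 : s0 ≠ s1) :
    lam (s0 + s1) s0 ≠ 0 ∧ s0 + s1 ≠ 0 ∧ s0 + (s0 + s1) = s1 ∧ s1 + (s0 + s1) = s0 := by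
  revert s0 s1; decide

theorem col_of_quad {e f g h : E} {a b c d : V} (hab : a ≠ b) (hac : a ≠ c) (had : a ≠ d)
    (hbc : b ≠ c) (hbd : b ≠ d) (hcd : c ≠ d)
    (he : G.Joins e a b) (hf : G.Joins f b c) (hg : G.Joins g c d) (hh : G.Joins h d a)
    (H : (G.map (con {a, b, c, d})).Col) : G.Col := by
  obtain ⟨φ, hφ⟩ := H
  have h1 := loc_of_con hφ
  have hef : e ≠ f := he.ne_edge hf hab hac
  have heg : e ≠ g := he.ne_edge hg hac had
  have heh : e ≠ h := he.symm.ne_edge hh hbd hab.symm
  have hfg : f ≠ g := hf.ne_edge hg hbc hbd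
  have hfh : f ≠ h := hf.ne_edge hh hbd hab.symm
  have hgh : g ≠ h := hg.ne_edge hh hcd hac.symm
  have hC : ∀ k ∈ ({e, f, g, h} : Finset E), k ∉ G.cut {a, b, c, d} := by
    intro k hk
    simp only [mem_insert, mem_singleton] at hk
    rcases hk with rfl | rfl | rfl | rfl
    · rw [he.mem_cut]; simp
    · rw [hf.mem_cut]; simp
    · rw [hg.mem_cut]; simp
    · rw [hh.mem_cut]; simp
  have hout : ∀ v, v ≠ a → v ≠ b → v ≠ c → v ≠ d → ∀ k ∈ G.cut {v},
      k ∉ ({e, f, g, h} : Finset E) := by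
    intro v hva hvb hvc hvd k hk
    simp only [mem_insert, mem_singleton]
    rintro (rfl | rfl | rfl | rfl)
    · rw [he.mem_cut] at hk; simp [Ne.symm hva, Ne.symm hvb] at hk
    · rw [hf.mem_cut] at hk; simp [Ne.symm hvc, Ne.symm hvb] at hk
    · rw [hg.mem_cut] at hk; simp [Ne.symm hvc, Ne.symm hvd] at hk
    · rw [hh.mem_cut] at hk; simp [Ne.symm hvd, Ne.symm hva] at hk
  have main : ∀ φ : E → K, G.Loc ({a, b, c, d} : Set V)ᶜ φ → G.Col ∨
      (let ψ : E → K := fun k => if k ∈ ({e, f, g, h} : Finset E) then 0 else φ k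
       G.df ψ a ≠ 0 ∧ G.df ψ b ≠ 0 ∧ G.df ψ a ≠ G.df ψ b ∧ G.df ψ c = G.df ψ a ∧
        G.df ψ d = G.df ψ b) := by
    intro φ h1
    set ψ : E → K := fun k => if k ∈ ({e, f, g, h} : Finset E) then 0 else φ k with hψ
    have hs := sum_df_set (G := G) (X := {a, b, c, d}) {a, b, c, d} (by simp) {e, f, g, h} hC h1
    rw [sum_insert (by simp [hab, hac, had]), sum_insert (by simp [hbc, hbd]), sum_pair hcd,
      ← hψ] at hs
    rcases K.quad _ _ _ _ hs with ⟨x, y, z, w, hx, hy, hz, hw, s1, s2, s3, s4⟩ | hbad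
    · left
      refine ⟨fun k => ψ k + ((if k = e then x else 0) + ((if k = f then y else 0) +
        ((if k = g then z else 0) + (if k = h then w else 0)))), ?_, fun v _ => ?_⟩
      · intro k
        by_cases h1' : k = e
        · subst h1'; simp [hψ, hef, heg, heh, hx]
        · by_cases h2' : k = f
          · subst h2'; simp [hψ, h1', hfg, hfh, hy]
          · by_cases h3' : k = g
            · subst h3'; simp [hψ, h1', h2', hgh, hz]
            · by_cases h4' : k = h
              · subst h4'; simp [hψ, h1', h2', h3', hw]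
              · simp [hψ, h1', h2', h3', h4', h1.1 k]
      · rw [df_add, df_add, df_add, df_add, df_single K.add_self he, df_single K.add_self hf,
          df_single K.add_self hg, df_single K.add_self hh]
        by_cases hva : v = a
        · subst hva; simpa [hab, hac, had] using s1
        · by_cases hvb : v = b
          · subst hvb; simpa [hva, hbc, hbd] using s2
          · by_cases hvc : v = c
            · subst hvc; simpa [hva, hvb, hcd] using s3
            · by_cases hvd : v = d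
              · subst hvd; simpa [hva, hvb, hvc] using s4
              · simp only [hva, hvb, hvc, hvd, if_false, add_zero]
                rw [← h1.2 v (by simp [hva, hvb, hvc, hvd])]
                apply df_congr
                intro k hk
                simp only [hψ]
                rw [if_neg (hout v hva hvb hvc hvd k hk)]
    · exact Or.inr hbad
  rcases main φ h1 with hc | hbad
  · exact hc
  set ψ : E → K := fun k => if k ∈ ({e, f, g, h} : Finset E) then 0 else φ k with hψ
  obtain ⟨b1, b2, b3, b4, b5⟩ := hbad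
  obtain ⟨q1, q2, q3, q4⟩ := K.quad2 _ _ b1 b2 b3
  set x := G.df ψ a + G.df ψ b with hx
  have hdf : ∀ v, G.df (fun k => lam x (ψ k)) v = lam x (G.df ψ v) :=
    fun v => df_hom (lam x) (lam_add x q2) ψ v
  obtain ⟨w, hwa, hw0, J, hJ1, hJ2⟩ := tjoin (G := G) (fun k => lam x (ψ k)) a (by rw [hdf]; exact q1)
  have hJC : ∀ k ∈ ({e, f, g, h} : Finset E), J k = 0 := by
    intro k hk
    by_contra h0
    apply hJ1 k h0
    simp only [hψ, if_pos hk]
    rfl
  have hwin : w = b ∨ w = c ∨ w = d := by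
    by_contra hcon
    push Not at hcon
    apply hw0
    rw [hdf]
    have : G.df ψ w = 0 := by
      rw [← h1.2 w (by simp [hwa, hcon.1, hcon.2.1, hcon.2.2])]
      apply df_congr
      intro k hk
      simp only [hψ]
      rw [if_neg (hout w hwa hcon.1 hcon.2.1 hcon.2.2 k hk)]
    rw [this]
    rfl
  have hsm : ∀ v, G.df (fun k => sm (J k) x) v = sm (G.df J v) x :=
    fun v => df_hom (fun j => sm j x) (sm_add x) J v
  have h2 : G.Loc ({a, b, c, d} : Set V)ᶜ (fun k => φ k + sm (J k) x) := by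
    constructor
    · intro k
      apply kempe_ne _ _ _ (h1.1 k)
      intro h0
      have := hJ1 k h0
      simp only [hψ] at this
      split_ifs at this with h'
      · exact absurd (hJC k h') h0
      · exact this
    · intro v hv
      rw [df_add, h1.2 v hv, hsm, hJ2]
      simp only [Set.mem_compl_iff, Set.mem_insert_iff, Set.mem_singleton_iff, not_or] at hv
      have hvw : v ≠ w := by
        rcases hwin with h' | h' | h' <;> rw [h'] <;> tauto
      simp [hv.1, hvw, sm]
  rcases main _ h2 with hc | hbad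
  · exact hc
  exfalso
  have hψ' : (fun k => if k ∈ ({e, f, g, h} : Finset E) then 0 else φ k + sm (J k) x) =
      fun k => ψ k + sm (J k) x := by
    funext k
    simp only [hψ]
    split_ifs with h'
    · rw [hJC k h']; rfl
    · rfl
  simp only [hψ', df_add, hsm, hJ2] at hbad
  obtain ⟨-, -, c3, c4, c5⟩ := hbad
  rcases hwin with h' | h' | h'
  · subst h'
    simp only [if_true, hab, hab.symm, hac.symm, hbc.symm, if_false, add_zero, zero_add, sm, b4] at c4
    simp only [one_ne_zero, if_false, if_true, add_zero] at c4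
    rw [q3] at c4
    exact b3 c4
  · subst h'
    simp only [if_true, hab.symm, hac, hbc, if_false, add_zero, zero_add, sm] at c3
    simp only [one_ne_zero, if_false, if_true, add_zero] at c3
    exact c3 q3
  · subst h'
    simp only [if_true, had, hac.symm, hcd, if_false, add_zero, zero_add, sm, b4] at c4
    simp only [one_ne_zero, if_false, if_true, add_zero] at c4
    rw [q3] at c4
    exact b3 c4

end MG

end

end Pool.Agent.Lib.MP_aa6b05_co
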