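import Pool.Agent.Lib.MP_aa6b05_co.Reduce

set_option linter.unusedSectionVars false
set_option linter.unusedVariables false
set_option linter.unusedSimpArgs false
set_option synthInstance.maxSize 4096

namespace Pool.Agent.Lib.MP_aa6b05_co

open Finset

open scoped Classical

noncomputable section

namespace MG

variable {V E : Type} [Fintype V] [Fintype E] {G : MG V E}

def NI (G : MG V E) (a : V) : Prop := ∃ e b, G.Joins e a b ∧ a ≠ b

theorem E4.three_le' (h : G.E4) {X : Set V} {a c : V} (ha : G.NI a) (hc : G.NI c) (haX : a ∈ X)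
    (hcX : c ∉ X) : 3 ≤ G.d X := by
  obtain ⟨e, b, h1, hab⟩ := ha
  obtain ⟨f, d, h2, hcd⟩ := hc
  exact h.three_le h1 hab h2 hcd haX hcX

theorem Triv.eq' {X : Set V} (h : G.Triv X) {a c : V} (ha : G.NI a) (hc : G.NI c) (haX : a ∈ X)
    (hcX : c ∈ X) : a = c := by
  obtain ⟨e, b, h1, hab⟩ := ha
  obtain ⟨f, d, h2, hcd⟩ := hc
  by_contra hac
  exact not_triv h1 hab h2 hcd haX hcX hac h

theorem Joins.ni {e : E} {a b : V} (h : G.Joins e a b) (hab : a ≠ b) : G.NI a := ⟨e, b, h, hab⟩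

theorem Joins.ni' {e : E} {a b : V} (h : G.Joins e a b) (hab : a ≠ b) : G.NI b :=
  ⟨e, a, h.symm, hab.symm⟩

def split (G : MG V E) (c1 c2 : E) (v x y : V) : MG V E where
  s := fun e => if e = c1 then x else if e = c2 then v else G.s e
  t := fun e => if e = c1 then y else if e = c2 then v else G.t e

theorem d_split {c1 c2 : E} {v x y : V} (h12 : c1 ≠ c2) (h1 : G.Joins c1 v x)
    (h2 : G.Joins c2 v y) (X : Set V) :
    (G.split c1 c2 v x y).d X + (if (x ∈ X ↔ y ∈ X) ∧ ¬ (v ∈ X ↔ x ∈ X) then 2 else 0) = G.d X := by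
  have e1 : ∀ H : MG V E, H.d X = (∑ e ∈ (univ.erase c1).erase c2,
      if e ∈ H.cut X then 1 else 0) + (if c2 ∈ H.cut X then 1 else 0) +
      (if c1 ∈ H.cut X then 1 else 0) := by
    intro H
    rw [sum_erase_add _ _ (by simp [h12.symm]), sum_erase_add _ _ (mem_univ _)]
    unfold MG.d
    rw [← card_filter]
    congr 1
    ext e
    simp
  rw [e1, e1 G]
  have e2 : (∑ e ∈ (univ.erase c1).erase c2, if e ∈ (G.split c1 c2 v x y).cut X then 1 else 0) =
      ∑ e ∈ (univ.erase c1).erase c2, if e ∈ G.cut X then 1 else 0 := by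
    apply sum_congr rfl
    intro e he
    simp only [mem_erase] at he
    simp only [mem_cut, split, he.1, he.2.1, if_false]
  rw [e2]
  have e3 : c1 ∈ (G.split c1 c2 v x y).cut X ↔ ¬ (x ∈ X ↔ y ∈ X) := by simp [mem_cut, split]
  have e4 : c2 ∉ (G.split c1 c2 v x y).cut X := by simp [mem_cut, split, h12.symm]
  simp only [e3, e4, h1.mem_cut, h2.mem_cut]
  by_cases a : v ∈ X <;> by_cases b : x ∈ X <;> by_cases c : y ∈ X <;> simp [a, b, c]

theorem oc_split {c1 c2 : E} {v x y : V} (h12 : c1 ≠ c2) (h1 : G.Joins c1 v x)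
    (h2 : G.Joins c2 v y) (X : Set V) : (G.split c1 c2 v x y).oc X = G.oc X := by
  unfold oc
  congr 1
  ext u
  simp only [mem_filter, mem_univ, true_and]
  have := d_split h12 h1 h2 {u}
  rw [← this]
  split_ifs <;> simp [Nat.odd_add]

theorem m_split {c1 c2 : E} {v x y : V} (h12 : c1 ≠ c2) (h1 : G.Joins c1 v x) (hx : v ≠ x)
    (h2 : G.Joins c2 v y) (hy : v ≠ y) : (G.split c1 c2 v x y).m < G.m := by
  apply card_lt_card
  constructor
  · intro f hf
    simp only [mem_filter, mem_univ, true_and, split] at hf ⊢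
    by_cases a : f = c1
    · rw [a]; exact h1.ne hx
    · by_cases b : f = c2
      · rw [b]; exact h2.ne hy
      · simpa [a, b] using hf
  · intro h
    have : c2 ∈ univ.filter (fun e => (G.split c1 c2 v x y).s e ≠ (G.split c1 c2 v x y).t e) :=
      h (by simp [h2.ne hy])
    simp [split, h12.symm] at this

theorem col_of_split {c1 c2 : E} {v x y : V} (h12 : c1 ≠ c2) (h1 : G.Joins c1 v x)
    (h2 : G.Joins c2 v y) (h : (G.split c1 c2 v x y).Col) : G.Col := by
  obtain ⟨φ, hφ⟩ := h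
  refine ⟨fun e => if e = c2 then φ c1 else φ e, fun e => ?_, fun u _ => ?_⟩
  · dsimp only
    split_ifs
    · exact hφ.1 _
    · exact hφ.1 _
  · have a1 := hφ.2 u trivial
    have j1 : (G.split c1 c2 v x y).Joins c1 x y := Or.inl (by simp [split])
    have j2 : (G.split c1 c2 v x y).Joins c2 v v := Or.inl (by simp [split, h12.symm])
    have dec : ∀ (H : MG V E) (ψ : E → K), H.df ψ u =
        H.df (fun e => if e = c1 ∨ e = c2 then 0 else ψ e) u +
        (H.df (fun e => if e = c1 then ψ c1 else 0) u + H.df (fun e => if e = c2 then ψ c2 else 0) u) := by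
      intro H ψ
      rw [← df_add, ← df_add]
      apply df_congr
      intro e _
      by_cases a : e = c1
      · subst a; simp [h12]
      · by_cases b : e = c2
        · subst b; simp [a]
        · simp [a, b]
    rw [dec, df_single K.add_self j1, df_single K.add_self j2, K.add_self, add_zero] at a1
    rw [dec, df_single K.add_self h1, df_single K.add_self h2]
    simp only [h12, if_false, if_true]
    have e0 : G.df (fun e => if e = c1 ∨ e = c2 then 0 else if e = c2 then φ c1 else φ e) u =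
        (G.split c1 c2 v x y).df (fun e => if e = c1 ∨ e = c2 then 0 else φ e) u := by
      unfold df cut
      rw [sum_filter, sum_filter]
      apply sum_congr rfl
      intro e _
      by_cases a : e = c1
      · simp [a]
      · by_cases b : e = c2
        · simp [b]
        · simp [a, b, split]
    rw [e0]
    have k : ∀ a b c d : K, a + (b + c) = 0 → a + ((d + b) + (d + c)) = 0 := by decide
    exact k _ _ _ _ a1

theorem d_posi (X Y : Set V) {e f : E} (hef : e ≠ f) {a b c d : V} (he : G.Joins e a b)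
    (hf : G.Joins f c d) (ha : a ∈ X) (ha' : a ∈ Y) (hb : b ∉ X) (hb' : b ∉ Y)
    (hc : c ∈ X) (hc' : c ∈ Y) (hd : d ∉ X) (hd' : d ∉ Y) :
    G.d (X \ Y) + G.d (Y \ X) + 4 ≤ G.d X + G.d Y := by
  have e1 : ∀ Z : Set V, G.d Z = ∑ k, if k ∈ G.cut Z then 1 else 0 := by
    intro Z
    unfold MG.d
    rw [← card_filter]
    congr 1
    ext e
    simp
  have e2 : (4 : ℕ) = ∑ k : E, ((if k = e then 2 else 0) + (if k = f then 2 else 0)) := by
    rw [sum_add_distrib]; simp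
  rw [e1, e1, e1 X, e1 Y, e2, ← sum_add_distrib, ← sum_add_distrib, ← sum_add_distrib]
  apply sum_le_sum
  intro k _
  by_cases h1 : k = e
  · subst h1
    simp [he.mem_cut, ha, ha', hb, hb', hef]
  · by_cases h2 : k = f
    · subst h2
      simp [hf.mem_cut, hc, hc', hd, hd', h1]
    · simp only [mem_cut, h1, h2, Set.mem_sdiff]
      by_cases p1 : G.s k ∈ X <;> by_cases p2 : G.s k ∈ Y <;> by_cases p3 : G.t k ∈ X <;>
        by_cases p4 : G.t k ∈ Y <;> simp [p1, p2, p3, p4]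

theorem d_posi1 (X Y : Set V) {e : E} {a b : V} (he : G.Joins e a b)
    (ha : a ∈ X) (ha' : a ∈ Y) (hb : b ∉ X) (hb' : b ∉ Y) :
    G.d (X \ Y) + G.d (Y \ X) + 2 ≤ G.d X + G.d Y := by
  have e1 : ∀ Z : Set V, G.d Z = ∑ k, if k ∈ G.cut Z then 1 else 0 := by
    intro Z
    unfold MG.d
    rw [← card_filter]
    congr 1
    ext e
    simp
  have e2 : (2 : ℕ) = ∑ k : E, (if k = e then 2 else 0) := by simp
  rw [e1, e1, e1 X, e1 Y, e2, ← sum_add_distrib, ← sum_add_distrib, ← sum_add_distrib]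
  apply sum_le_sum
  intro k _
  by_cases h1 : k = e
  · subst h1
    simp [he.mem_cut, ha, ha', hb, hb']
  · simp only [mem_cut, h1, Set.mem_sdiff]
    by_cases p1 : G.s k ∈ X <;> by_cases p2 : G.s k ∈ Y <;> by_cases p3 : G.t k ∈ X <;>
      by_cases p4 : G.t k ∈ Y <;> simp [p1, p2, p3, p4]

theorem d_three (X Y Z : Set V) {e : E} {a b : V} (he : G.Joins e a b)
    (ha : a ∈ X) (ha' : a ∈ Y) (ha'' : a ∈ Z) (hb : b ∉ X) (hb' : b ∉ Y) (hb'' : b ∉ Z) :
    G.d (X ∩ Y ∩ Z) + G.d ((X \ Y) \ Z) + G.d ((Y \ X) \ Z) + G.d ((Z \ X) \ Y) + 2 ≤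
      G.d X + G.d Y + G.d Z := by
  have e1 : ∀ Z : Set V, G.d Z = ∑ k, if k ∈ G.cut Z then 1 else 0 := by
    intro Z
    unfold MG.d
    rw [← card_filter]
    congr 1
    ext e
    simp
  have e2 : (2 : ℕ) = ∑ k : E, (if k = e then 2 else 0) := by simp
  rw [e1, e1, e1 ((Y \ X) \ Z), e1 ((Z \ X) \ Y), e1 X, e1 Y, e1 Z, e2, ← sum_add_distrib,
    ← sum_add_distrib, ← sum_add_distrib, ← sum_add_distrib, ← sum_add_distrib, ← sum_add_distrib]
  apply sum_le_sum
  intro k _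
  by_cases h1 : k = e
  · subst h1
    simp [he.mem_cut, ha, ha', ha'', hb, hb', hb'']
  · simp only [mem_cut, h1, Set.mem_sdiff, Set.mem_inter_iff]
    by_cases p1 : G.s k ∈ X <;> by_cases p2 : G.s k ∈ Y <;> by_cases p3 : G.t k ∈ X <;>
      by_cases p4 : G.t k ∈ Y <;> by_cases p5 : G.s k ∈ Z <;> by_cases p6 : G.t k ∈ Z <;>
      simp [p1, p2, p3, p4, p5, p6]

theorem d_insert (X : Set V) (v : V) (hv : v ∉ X) :
    G.d (insert v X) + 2 * (G.cut {v} ∩ G.cut X).card = G.d X + G.d {v} := by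
  have e1 : ∀ Z : Set V, G.d Z = ∑ k, if k ∈ G.cut Z then 1 else 0 := by
    intro Z
    unfold MG.d
    rw [← card_filter]
    congr 1
    ext e
    simp
  have e2 : (G.cut {v} ∩ G.cut X).card = ∑ k, if k ∈ G.cut {v} ∧ k ∈ G.cut X then 1 else 0 := by
    rw [← card_filter]
    congr 1
    ext e
    simp
  rw [e1, e1 X, e1 {v}, e2, mul_sum, ← sum_add_distrib, ← sum_add_distrib]
  apply sum_congr rfl
  intro k _
  simp only [mem_cut, Set.mem_insert_iff, Set.mem_singleton_iff]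
  by_cases p1 : G.s k = v <;> by_cases p2 : G.t k = v <;> by_cases p3 : G.s k ∈ X <;>
    by_cases p4 : G.t k ∈ X <;> simp_all

def Dang (G : MG V E) (v : V) (X : Set V) : Prop :=
  v ∉ X ∧ G.d X ≤ 4 ∧ ∃ u, G.NI u ∧ u ∉ X ∧ u ≠ v

theorem exists_other {v : V} {e : E} (he : e ∈ G.cut {v}) : ∃ x, G.Joins e v x ∧ v ≠ x := by
  obtain ⟨a, b, hj, ha, hb⟩ := exists_joins_of_mem_cut he
  rw [Set.mem_singleton_iff] at ha hb
  subst ha
  exact ⟨b, hj, Ne.symm hb⟩

theorem exists_good_split (h4 : G.E4) (hp : G.NoPar) {v : V} (hv : 4 ≤ G.d {v}) :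
    ∃ c1 c2 x y, c1 ≠ c2 ∧ G.Joins c1 v x ∧ v ≠ x ∧ G.Joins c2 v y ∧ v ≠ y ∧
      ∀ X, G.Dang v X → x ∈ X → y ∉ X := by
  by_contra hcon
  push Not at hcon
  have hcov : ∀ e ∈ G.cut {v}, ∀ f ∈ G.cut {v}, e ≠ f →
      ∃ X, G.Dang v X ∧ e ∈ G.cut X ∧ f ∈ G.cut X := by
    intro e he f hf hef
    obtain ⟨x, hx, hvx⟩ := exists_other he
    obtain ⟨y, hy, hvy⟩ := exists_other hf
    obtain ⟨X, hX, h1, h2⟩ := hcon e f x y hef hx hvx hy hvy
    refine ⟨X, hX, ?_, ?_⟩
    · rw [hx.mem_cut]; simp [hX.1, h1]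
    · rw [hy.mem_cut]; simp [hX.1, h2]
  have hmem : ∀ {e x X}, G.Joins e v x → v ∉ X → (e ∈ G.cut X ↔ x ∈ X) := by
    intro e x X hj hX
    rw [hj.mem_cut]; simp [hX]
  obtain ⟨e1, he1⟩ : (G.cut {v}).Nonempty := card_pos.mp (by unfold d at hv; omega)
  obtain ⟨x1, hx1, hvx1⟩ := exists_other he1
  have niv : G.NI v := hx1.ni hvx1
  have hbound : ∀ X, G.Dang v X → e1 ∈ G.cut X →
      2 * (G.cut {v} ∩ G.cut X).card ≤ G.d {v} + 1 := by
    intro X hX h1
    obtain ⟨u, hu, huX, huv⟩ := hX.2.2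
    have := h4.three_le' (X := insert v X) niv hu (Set.mem_insert _ _) (by simp [huX, huv])
    have := d_insert (G := G) X v hX.1
    have := hX.2.1
    omega
  have htwo : ∀ X, G.Dang v X → e1 ∈ G.cut X → (G.cut {v} ∩ G.cut X).card ≤ 2 := by
    by_contra hc
    push Not at hc
    obtain ⟨X, hXm, hmax⟩ := exists_max_image
      ((univ : Finset (Set V)).filter (fun X => G.Dang v X ∧ e1 ∈ G.cut X))
      (fun X => (G.cut {v} ∩ G.cut X).card)
      (by obtain ⟨X, h1, h2, -⟩ := hc; exact ⟨X, by simp [h1, h2]⟩)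
    simp only [mem_filter, mem_univ, true_and] at hXm hmax
    obtain ⟨hX, h1X⟩ := hXm
    have h3 : 3 ≤ (G.cut {v} ∩ G.cut X).card := by
      obtain ⟨X', a1, a2, a3⟩ := hc
      have := hmax X' ⟨a1, a2⟩
      omega
    have hb := hbound X hX h1X
    obtain ⟨f, hf, hfX⟩ : ∃ f ∈ G.cut {v}, f ∉ G.cut X := by
      by_contra h
      push Not at h
      have : G.cut {v} ∩ G.cut X = G.cut {v} := inter_eq_left.mpr h
      rw [this] at hb
      unfold d at hb hv
      omega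
    obtain ⟨Y, hY, h1Y, hfY⟩ := hcov e1 he1 f hf (fun h => hfX (h ▸ h1X))
    obtain ⟨y, hy, hvy⟩ := exists_other hf
    have hyY := (hmem hy hY.1).mp hfY
    have hyX : y ∉ X := fun h => hfX ((hmem hy hX.1).mpr h)
    obtain ⟨g, hg, hgY⟩ : ∃ g ∈ G.cut {v} ∩ G.cut X, g ∉ G.cut Y := by
      by_contra h
      push Not at h
      have hsub : insert f (G.cut {v} ∩ G.cut X) ⊆ G.cut {v} ∩ G.cut Y := by
        intro k hk
        rw [mem_insert] at hk
        rcases hk with rfl | hk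
        · exact mem_inter.mpr ⟨hf, hfY⟩
        · exact mem_inter.mpr ⟨(mem_inter.mp hk).1, h k hk⟩
      have := card_le_card hsub
      rw [card_insert_of_notMem (fun h => hfX (mem_inter.mp h).2)] at this
      have := hmax Y ⟨hY, h1Y⟩
      omega
    obtain ⟨z, hz, hvz⟩ := exists_other (mem_inter.mp hg).1
    have hzX := (hmem hz hX.1).mp (mem_inter.mp hg).2
    have hzY : z ∉ Y := fun h => hgY ((hmem hz hY.1).mpr h)
    have b1 := h4.three_le' (X := X \ Y) (hz.ni' hvz) niv ⟨hzX, hzY⟩ (fun h => hX.1 h.1)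
    have b2 := h4.three_le' (X := Y \ X) (hy.ni' hvy) niv ⟨hyY, hyX⟩ (fun h => hY.1 h.1)
    have hx1X := (hmem hx1 hX.1).mp h1X
    have hx1Y := (hmem hx1 hY.1).mp h1Y
    have b3 := d_posi1 X Y hx1.symm hx1X hx1Y hX.1 hY.1
    have bX := hX.2.1
    have bY := hY.2.1
    have htriv : G.Triv (X \ Y) := by
      rcases h4.2 (X \ Y) (by omega) with h | h
      · exact h
      · exact absurd (h.eq' niv (hx1.ni' hvx1) (fun h => hX.1 h.1) (fun h => h.2 hx1Y)) hvx1
    obtain ⟨k, hk, hk1, hkg⟩ : ∃ k ∈ G.cut {v} ∩ G.cut X, k ≠ e1 ∧ k ≠ g := by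
      by_contra h
      push Not at h
      have : G.cut {v} ∩ G.cut X ⊆ {e1, g} := by
        intro k hk
        by_cases a : k = e1
        · simp [a]
        · simp [h k hk a]
      have := (card_le_card this).trans card_le_two
      omega
    obtain ⟨w, hw, hvw⟩ := exists_other (mem_inter.mp hk).1
    have hwX := (hmem hw hX.1).mp (mem_inter.mp hk).2
    by_cases hwY : w ∈ Y
    · have := d_posi X Y hk1 hw.symm hx1.symm hwX hwY hX.1 hY.1 hx1X hx1Y hX.1 hY.1
      omega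
    · have := htriv.eq' (hw.ni' hvw) (hz.ni' hvz) ⟨hwX, hwY⟩ ⟨hzX, hzY⟩
      subst this
      exact hp k g v w hkg hvw hw hz
  obtain ⟨e2, e3, e4, he2, he3, he4, h23, h24, h34⟩ : ∃ e2 e3 e4, e2 ∈ (G.cut {v}).erase e1 ∧
      e3 ∈ (G.cut {v}).erase e1 ∧ e4 ∈ (G.cut {v}).erase e1 ∧ e2 ≠ e3 ∧ e2 ≠ e4 ∧ e3 ≠ e4 := by
    have : 2 < ((G.cut {v}).erase e1).card := by
      rw [card_erase_of_mem he1]; unfold d at hv; omega
    obtain ⟨a, b, c, ha, hb, hc, h1, h2, h3⟩ := two_lt_card_iff.mp this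
    exact ⟨a, b, c, ha, hb, hc, h1, h2, h3⟩
  rw [mem_erase] at he2 he3 he4
  have hex : ∀ X, G.Dang v X → e1 ∈ G.cut X → ∀ a b, a ≠ e1 → b ≠ e1 → a ≠ b → a ∈ G.cut {v} →
      b ∈ G.cut {v} → a ∈ G.cut X → b ∉ G.cut X := by
    intro X hX h1 a b ha hb hab ha' hb' haX hbX
    have h2 := htwo X hX h1
    have : ({e1, a, b} : Finset E) ⊆ G.cut {v} ∩ G.cut X := by
      intro k hk
      simp only [mem_insert, mem_singleton] at hk
      rcases hk with rfl | rfl | rfl <;> simp [*]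
    have h3 := card_le_card this
    rw [card_insert_of_notMem (by simp [ha.symm, hb.symm]), card_pair hab] at h3
    omega
  obtain ⟨X, hX, h1X, h2X⟩ := hcov e1 he1 e2 he2.2 he2.1.symm
  obtain ⟨Y, hY, h1Y, h3Y⟩ := hcov e1 he1 e3 he3.2 he3.1.symm
  obtain ⟨Z, hZ, h1Z, h4Z⟩ := hcov e1 he1 e4 he4.2 he4.1.symm
  obtain ⟨x2, hx2, hv2⟩ := exists_other he2.2
  obtain ⟨x3, hx3, hv3⟩ := exists_other he3.2
  obtain ⟨x4, hx4, hv4⟩ := exists_other he4.2
  have n3X := hex X hX h1X e2 e3 he2.1 he3.1 h23 he2.2 he3.2 h2X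
  have n4X := hex X hX h1X e2 e4 he2.1 he4.1 h24 he2.2 he4.2 h2X
  have n2Y := hex Y hY h1Y e3 e2 he3.1 he2.1 h23.symm he3.2 he2.2 h3Y
  have n4Y := hex Y hY h1Y e3 e4 he3.1 he4.1 h34 he3.2 he4.2 h3Y
  have n2Z := hex Z hZ h1Z e4 e2 he4.1 he2.1 h24.symm he4.2 he2.2 h4Z
  have n3Z := hex Z hZ h1Z e4 e3 he4.1 he3.1 h34.symm he4.2 he3.2 h4Z
  rw [hmem hx1 hX.1] at h1X
  rw [hmem hx1 hY.1] at h1Y
  rw [hmem hx1 hZ.1] at h1Z
  rw [hmem hx2 hX.1] at h2X
  rw [hmem hx3 hY.1] at h3Y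
  rw [hmem hx4 hZ.1] at h4Z
  rw [hmem hx3 hX.1] at n3X
  rw [hmem hx4 hX.1] at n4X
  rw [hmem hx2 hY.1] at n2Y
  rw [hmem hx4 hY.1] at n4Y
  rw [hmem hx2 hZ.1] at n2Z
  rw [hmem hx3 hZ.1] at n3Z
  have b0 := d_three X Y Z hx1.symm h1X h1Y h1Z hX.1 hY.1 hZ.1
  have b1 := h4.three_le' (X := X ∩ Y ∩ Z) (hx1.ni' hvx1) niv ⟨⟨h1X, h1Y⟩, h1Z⟩
    (fun h => hX.1 h.1.1)
  have b2 := h4.three_le' (X := (X \ Y) \ Z) (hx2.ni' hv2) niv ⟨⟨h2X, n2Y⟩, n2Z⟩
    (fun h => hX.1 h.1.1)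
  have b3 := h4.three_le' (X := (Y \ X) \ Z) (hx3.ni' hv3) niv ⟨⟨h3Y, n3X⟩, n3Z⟩
    (fun h => hY.1 h.1.1)
  have b4 := h4.three_le' (X := (Z \ X) \ Y) (hx4.ni' hv4) niv ⟨⟨h4Z, n4X⟩, n4Y⟩
    (fun h => hZ.1 h.1.1)
  have := hX.2.1
  have := hY.2.1
  have := hZ.2.1
  omega

theorem bl_split (h4 : G.E4) {c1 c2 : E} {v x y : V} (h12 : c1 ≠ c2) (h1 : G.Joins c1 v x)
    (h2 : G.Joins c2 v y) (hv : 4 ≤ G.d {v}) (hg : ∀ X, G.Dang v X → x ∈ X → y ∉ X) :
    (G.split c1 c2 v x y).Bl := by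
  have key : ∀ X, v ∉ X → (G.split c1 c2 v x y).d X ≠ 1 := by
    intro X hX h
    have := d_split h12 h1 h2 X
    split_ifs at this with hc
    · have hx : x ∈ X := by tauto
      have hy : y ∈ X := by tauto
      by_cases hd : G.Dang v X
      · exact hg X hd hx hy
      · unfold Dang at hd
        push Not at hd
        have h3 := hd hX (by omega)
        have : G.cut {v} ⊆ G.cut X := by
          intro e he
          obtain ⟨z, hz, hvz⟩ := exists_other he
          rw [hz.mem_cut]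
          have : z ∈ X := by
            by_contra h'
            exact hvz (h3 z (hz.ni' hvz) h').symm
          simp [hX, this]
        have := card_le_card this
        unfold d at *
        omega
    · exact (h4.1 X).1 (by omega)
  intro X
  by_cases hX : v ∈ X
  · rw [← d_compl]
    exact key Xᶜ (fun h => h hX)
  · exact key X hX

end MG

end

end Pool.Agent.Lib.MP_aa6b05_co
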